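import Pool.Agent.Lib.MP_06e9af_co.Count

/-!
Rooted trees built by grafting, the counting bounds and their strict forms.
-/

namespace Pool.Agent.Lib.MP_06e9af_co

open Finset

variable {α V : Type*}

/-- `T[U]` is a tree rooted at `r`, built by grafting. -/
inductive RT [DecidableEq α] (T : SimpleGraph α) : Finset α → α → Prop
  | single (r : α) : RT T {r} r
  | graft (U1 : Finset α) (r' : α) (U2 : Finset α) (r : α) : RT T U1 r' → RT T U2 r →
      Disjoint U1 U2 → T.Adj r r' →
      (∀ u ∈ U1, ∀ u' ∈ U2, T.Adj u u' → u = r' ∧ u' = r) → RT T (U1 ∪ U2) r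

variable [DecidableEq α] {T : SimpleGraph α} {G : SimpleGraph V}

lemma RT.root_mem {U : Finset α} {r : α} (h : RT T U r) : r ∈ U := by
  induction h with
  | single r => simp
  | graft U1 r' U2 r _ _ _ _ _ _ ih => exact mem_union_right _ ih

lemma RT.add_leaf {U : Finset α} {r : α} (h : RT T U r) {w p : α} (hw : w ∉ U) (hp : p ∈ U)
    (hwp : T.Adj p w) (hu : ∀ u ∈ U, T.Adj w u → u = p) : RT T (insert w U) r := by
  induction h with
  | single r =>
    have hpr : p = r := by simpa using hp
    subst hpr
    have : insert w ({p} : Finset α) = {w} ∪ {p} := by ext; simp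
    rw [this]
    refine RT.graft _ w _ p (RT.single w) (RT.single p) ?_ hwp ?_
    · simpa using hw
    · intro u hu u' hu' _
      exact ⟨by simpa using hu, by simpa using hu'⟩
  | graft U1 r' U2 r h1 h2 hd ha he ih1 ih2 =>
    have hw1 : w ∉ U1 := fun h => hw (mem_union_left _ h)
    have hw2 : w ∉ U2 := fun h => hw (mem_union_right _ h)
    rcases mem_union.mp hp with hp1 | hp2
    · have := ih1 hw1 hp1 (fun u hu' => hu u (mem_union_left _ hu'))
      rw [← insert_union]
      refine RT.graft _ r' _ r this h2 ?_ ha ?_
      · rw [disjoint_insert_left]; exact ⟨hw2, hd⟩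
      · intro u hu1 u' hu' hadj
        rcases mem_insert.mp hu1 with rfl | hu1
        · have := hu u' (mem_union_right _ hu') hadj
          exact absurd (this ▸ hu') (disjoint_left.mp hd hp1)
        · exact he u hu1 u' hu' hadj
    · have := ih2 hw2 hp2 (fun u hu' => hu u (mem_union_right _ hu'))
      rw [← union_insert]
      refine RT.graft _ r' _ r h1 this ?_ ha ?_
      · rw [disjoint_insert_right]; exact ⟨hw1, hd⟩
      · intro u hu1 u' hu' hadj
        rcases mem_insert.mp hu' with rfl | hu'
        · have := hu u (mem_union_left _ hu1) hadj.symm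
          exact absurd (this ▸ hu1) (disjoint_right.mp hd hp2)
        · exact he u hu1 u' hu' hadj

omit [DecidableEq α] in
lemma eps_single (r : α) : epsS T G {r} r = ∅ := by
  ext q
  simp only [epsS, Set.mem_ofPred_eq, Set.mem_empty_iff_false, iff_false, not_and, not_not]
  intro _
  refine ⟨fun _ => q.1, ?_, rfl, ?_, ?_⟩
  · intro a ha b hb _
    simp only [coe_singleton, Set.mem_singleton_iff] at ha hb
    rw [ha, hb]
  · intro u hu hr; exact absurd (by simpa using hu) hr
  · intro u hu u' hu' h
    rw [mem_singleton] at hu hu'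
    rw [hu, hu'] at h
    exact absurd h (T.loopless.irrefl _)

section
variable [Fintype V]

lemma graft_leaf {U1 U2 : Finset α} {r r' : α} (h1 : r' ∈ U1) (h2 : r ∈ U2)
    (hd : Disjoint U1 U2) (he : ∀ u ∈ U1, ∀ u' ∈ U2, T.Adj u u' → u = r' ∧ u' = r) :
    (betS T G (insert r U1) r).ncard ≤ (epsS T G U1 r').ncard :=
  bet_leaf (disjoint_right.mp hd h2) h1 (fun u hu h => (he u hu r h2 h).1)

lemma graft_split {U1 U2 : Finset α} {r r' : α} (h2 : r ∈ U2)
    (hd : Disjoint U1 U2) (he : ∀ u ∈ U1, ∀ u' ∈ U2, T.Adj u u' → u = r' ∧ u' = r) :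
    (betS T G (U1 ∪ U2) r).ncard ≤ (epsS T G (insert r U1) r).ncard + (betS T G U2 r).ncard ∧
    (betS T G (U1 ∪ U2) r).ncard ≤ (epsS T G U2 r).ncard + (betS T G (insert r U1) r).ncard := by
  have e1 : U1 ∪ U2 = insert r U1 ∪ U2 := by
    ext u; simp only [mem_union, mem_insert]
    constructor
    · tauto
    · rintro ((rfl | h) | h) <;> tauto
  have hi : ∀ u ∈ insert r U1, u ∈ U2 → u = r := by
    intro u hu hu2
    rcases mem_insert.mp hu with h | h
    · exact h
    · exact absurd hu2 (disjoint_left.mp hd h)
  have he' : ∀ u ∈ insert r U1, ∀ u' ∈ U2, T.Adj u u' → u = r ∨ u' = r := by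
    intro u hu u' hu' h
    rcases mem_insert.mp hu with h' | h'
    · exact Or.inl h'
    · exact Or.inr (he u h' u' hu' h).2
  constructor
  · rw [e1]
    exact bet_split (mem_insert_self _ _) h2 hi he'
  · rw [e1, union_comm]
    exact bet_split h2 (mem_insert_self _ _) (fun u a b => hi u b a)
      (fun u a u' b h => (he' u' b u a h.symm).symm)

lemma RT.bound {U : Finset α} {r : α} (h : RT T U r) :
    (epsS T G U r).ncard + (Arr V).ncard ≤ U.card * (Arr V).ncard ∧
    (U ≠ {r} → (betS T G U r).ncard + 2 * (Arr V).ncard ≤ U.card * (Arr V).ncard) := by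
  induction h with
  | single r => simp [eps_single]
  | graft U1 r' U2 r h1 h2 hd ha he ih1 ih2 =>
    have hc : (U1 ∪ U2).card = U1.card + U2.card := card_union_of_disjoint hd
    have a1 := graft_leaf (G := G) h1.root_mem h2.root_mem hd he
    have a2 := eps_le (T := T) (G := G) (insert r U1) r
    have a3 := piv_le (T := T) (G := G) (insert r U1) r
    have a4 := (graft_split (G := G) h2.root_mem hd he).1
    have a5 := eps_le (T := T) (G := G) (U1 ∪ U2) r
    have a6 := piv_le (T := T) (G := G) (U1 ∪ U2) r
    have key : (betS T G (U1 ∪ U2) r).ncard + 2 * (Arr V).ncard ≤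
        (U1 ∪ U2).card * (Arr V).ncard := by
      rw [hc, add_mul]
      by_cases hU : U2 = {r}
      · have e : U1 ∪ U2 = insert r U1 := by rw [hU]; ext; simp
        rw [e, hU, card_singleton]
        omega
      · have := ih2.2 hU
        omega
    exact ⟨by omega, fun _ => key⟩

omit [Fintype V] in
lemma Emb.card_le {U : Finset α} {r : α} {v : V} {P : List V} (h : Emb T G U r v P) :
    (U.erase r).card ≤ P.length := by
  classical
  obtain ⟨f, h1, -, h3, -⟩ := h
  refine le_trans (card_le_card_of_injOn (t := P.toFinset) f ?_ ?_) (List.toFinset_card_le _)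
  · intro u hu
    simp only [coe_erase, Set.mem_sdiff, mem_coe, Set.mem_singleton_iff] at hu
    simpa using h3 u hu.1 hu.2
  · exact h1.mono (by simp)

/-- A path `v a b` with `v`, `b` non-adjacent and `a` of degree at least `d`. -/
def Cherry (G : SimpleGraph V) (d : ℕ) : Prop :=
  ∃ v a b, G.Adj v a ∧ G.Adj a b ∧ v ≠ b ∧ ¬ G.Adj v b ∧ d ≤ (G.neighborSet a).ncard

lemma piv_broom_lt (htri : ∀ a b c, T.Adj a b → T.Adj b c → ¬ T.Adj a c)
    {U1 : Finset α} {r r' : α} (hr : r ∉ U1) (hr' : r' ∈ U1)
    (he : ∀ u ∈ U1, T.Adj u r → u = r') (hstar : ∀ u ∈ U1, u ≠ r' → T.Adj r' u)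
    (hne : U1 ≠ {r'}) {d : ℕ} (hd : U1.card ≤ d) (hc : Cherry G d) :
    (pivS T G (insert r U1) r).ncard < (Arr V).ncard := by
  classical
  obtain ⟨v, a, b, hva, hab, hvb, hnvb, hdeg⟩ := hc
  have h2 : 2 ≤ U1.card := by
    by_contra hlt
    have : U1.card = 1 := by have := card_pos.mpr ⟨r', hr'⟩; omega
    obtain ⟨x, hx⟩ := card_eq_one.mp this
    rw [hx] at hr' hne
    exact hne (by rw [mem_singleton.mp hr'])
  have hN : (G.neighborSet a).ncard = (G.neighborFinset a).card := by
    rw [← Set.ncard_coe_finset]; congr 1; ext; simp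
  have hsub : U1.card - 2 ≤ (((G.neighborFinset a).erase v).erase b).card := by
    have := pred_card_le_card_erase (s := G.neighborFinset a) (a := v)
    have := pred_card_le_card_erase (s := (G.neighborFinset a).erase v) (a := b)
    omega
  obtain ⟨B, hB, hBc⟩ := exists_subset_card_eq hsub
  have hBa : ∀ x ∈ B, x ≠ b ∧ x ≠ v ∧ G.Adj a x := by
    intro x hx
    have := hB hx
    simpa using this
  have hbB : b ∉ B := fun h => (hBa b h).1 rfl
  -- the broom embeds in `a :: B ++ [b]`
  have hemb : Emb T G (insert r U1) r v (a :: (B.toList ++ [b])) := by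
    refine emb_leaf hr hr' he hva ?_ ?_
    · simp only [List.mem_append, mem_toList, List.mem_singleton, not_or]
      exact ⟨fun h => (hBa v h).2.1 rfl, hvb⟩
    · have hcard : (U1.erase r').card = (insert b B).card := by
        rw [card_erase_of_mem hr', card_insert_of_notMem hbB]; omega
      obtain ⟨e, he1, he2⟩ : ∃ e : α → V, Set.InjOn e (U1.erase r') ∧
          ∀ u ∈ U1.erase r', e u ∈ insert b B := by
        have e := equivOfCardEq hcard
        refine ⟨fun u => if h : u ∈ U1.erase r' then (e ⟨u, h⟩ : V) else v, ?_, ?_⟩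
        · intro x hx y hy hxy
          have hx' : x ∈ U1.erase r' := hx
          have hy' : y ∈ U1.erase r' := hy
          simp only [dif_pos hx', dif_pos hy'] at hxy
          have := e.injective (Subtype.ext hxy)
          simpa using this
        · intro u hu
          simp only [dif_pos hu]
          exact (e ⟨u, hu⟩).2
      have hadj : ∀ u ∈ U1, u ≠ r' → G.Adj a (e u) := by
        intro u hu hur
        rcases mem_insert.mp (he2 u (mem_erase.mpr ⟨hur, hu⟩)) with h | h
        · rw [h]; exact hab
        · exact (hBa _ h).2.2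
      refine ⟨Function.update e r' a, ?_, by simp, ?_, ?_⟩
      · intro x hx y hy hxy
        by_cases hx' : x = r' <;> by_cases hy' : y = r'
        · rw [hx', hy']
        · rw [hx', Function.update_self, Function.update_of_ne hy'] at hxy
          exact absurd hxy (hadj y hy hy').ne
        · rw [hy', Function.update_self, Function.update_of_ne hx'] at hxy
          exact absurd hxy.symm (hadj x hx hx').ne
        · rw [Function.update_of_ne hx', Function.update_of_ne hy'] at hxy
          exact he1 (mem_erase.mpr ⟨hx', hx⟩) (mem_erase.mpr ⟨hy', hy⟩) hxy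
      · intro u hu hur
        rw [Function.update_of_ne hur]
        have := he2 u (mem_erase.mpr ⟨hur, hu⟩)
        simp only [mem_insert, List.mem_append, mem_toList, List.mem_singleton] at this ⊢
        tauto
      · intro x hx y hy hxy
        by_cases hx' : x = r' <;> by_cases hy' : y = r'
        · rw [hx', hy'] at hxy; exact absurd hxy (T.loopless.irrefl _)
        · rw [hx', Function.update_self, Function.update_of_ne hy']; exact hadj y hy hy'
        · rw [hy', Function.update_self, Function.update_of_ne hx']; exact (hadj x hx hx').symm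
        · exact absurd hxy (fun h => htri x r' y (hstar x hx hx').symm (hstar y hy hy') h)
  set L0 : List V := v :: ((a :: B.toList) ++ [b]) with hL0
  have hL0n : L0.Nodup := by
    have hBn := B.nodup_toList
    simp only [hL0, List.cons_append, List.nodup_cons, List.mem_cons, List.mem_append, mem_toList,
      List.not_mem_nil, or_false, not_or, List.nodup_append, ne_eq, forall_eq, not_false_eq_true,
      List.nodup_nil, and_self, true_and]
    refine ⟨⟨hva.ne, fun h => (hBa v h).2.1 rfl, hvb⟩, ⟨fun h => (hBa a h).2.2.ne rfl, hab.ne⟩,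
      hBn, fun x hx => (hBa x hx).1⟩
  set Rst : List V := (univ \ L0.toFinset).toList with hR
  have hl : L0 ++ Rst ∈ Arr V := by
    constructor
    · rw [List.nodup_append]
      refine ⟨hL0n, Finset.nodup_toList _, ?_⟩
      intro x hx y hy hxy
      rw [hR] at hy
      simp only [mem_toList, mem_sdiff, mem_univ, List.mem_toFinset, true_and] at hy
      exact hy (hxy ▸ hx)
    · intro u
      by_cases h : u ∈ L0
      · exact List.mem_append_left _ h
      · refine List.mem_append_right _ ?_
        rw [hR]; simp only [mem_toList, mem_sdiff, mem_univ, List.mem_toFinset, true_and]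
        exact h
  refine piv_lt _ _ _ hl ?_
  rintro ⟨v', P, w, Q⟩ ⟨⟨-, q1⟩, q2, q3⟩ hq
  simp only [flat, hL0, List.cons_append, List.cons.injEq, List.append_assoc] at q1 q2 q3 hq
  obtain ⟨rfl, hq⟩ := hq
  have hlen := q3.card_le
  rw [erase_insert hr, List.length_cons] at hlen
  have hq' : P ++ w :: Q = (a :: B.toList) ++ b :: Rst := by simpa using hq
  rcases List.append_eq_append_iff.mp hq' with ⟨c, hc1, hc2⟩ | ⟨c, hc1, hc2⟩
  · have hl2 := congrArg List.length hc1
    simp only [List.length_cons, length_toList, List.length_append] at hl2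
    have : c = [] := List.length_eq_zero_iff.mp (by omega)
    subst this
    simp only [List.nil_append, List.cons.injEq] at hc2
    exact hnvb (hc2.1 ▸ q1)
  · cases c with
    | nil =>
      simp only [List.nil_append, List.cons.injEq] at hc2
      exact hnvb (hc2.1 ▸ q1)
    | cons x c =>
      simp only [List.cons_append, List.cons.injEq] at hc2
      refine q2 (hemb.mono ?_)
      intro u hu
      rw [hc1, ← hc2.1]
      simp only [List.mem_cons, List.mem_append, List.cons_append, List.not_mem_nil,
        or_false] at hu ⊢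
      tauto

lemma RT.strict (htri : ∀ a b c, T.Adj a b → T.Adj b c → ¬ T.Adj a c) {d : ℕ}
    (hc : Cherry G d) {U : Finset α} {r : α} (h : RT T U r) (hd : U.card ≤ d + 1) :
    ((∃ u ∈ U, u ≠ r ∧ ¬ T.Adj r u) →
      (epsS T G U r).ncard + (Arr V).ncard < U.card * (Arr V).ncard) ∧
    ((∀ a ∈ U, ∃ u ∈ U, u ≠ a ∧ ¬ T.Adj a u) →
      (betS T G U r).ncard + 2 * (Arr V).ncard < U.card * (Arr V).ncard) := by
  induction h with
  | single r =>
    constructor
    · rintro ⟨u, hu, hr, -⟩; exact absurd (by simpa using hu) hr
    · intro h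
      obtain ⟨u, hu, hr, -⟩ := h r (by simp)
      exact absurd (by simpa using hu) hr
  | graft U1 r' U2 r h1 h2 hdj ha he ih1 ih2 =>
    have hcard : (U1 ∪ U2).card = U1.card + U2.card := card_union_of_disjoint hdj
    have p1 : 0 < U1.card := card_pos.mpr ⟨_, h1.root_mem⟩
    have p2 : 0 < U2.card := card_pos.mpr ⟨_, h2.root_mem⟩
    have ih1 := ih1 (by omega)
    have ih2 := ih2 (by omega)
    have b1 := h1.bound (G := G)
    have b2 := h2.bound (G := G)
    have hrU : r ∉ U1 := disjoint_right.mp hdj h2.root_mem
    have a1 := graft_leaf (G := G) h1.root_mem h2.root_mem hdj he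
    have a2 := eps_le (T := T) (G := G) (insert r U1) r
    have a3 := piv_le (T := T) (G := G) (insert r U1) r
    have a4 := graft_split (G := G) h2.root_mem hdj he
    have a5 := eps_le (T := T) (G := G) (U1 ∪ U2) r
    have a6 := piv_le (T := T) (G := G) (U1 ∪ U2) r
    -- strictness for the branch
    have br : U1 ≠ {r'} → (epsS T G (insert r U1) r).ncard < U1.card * (Arr V).ncard := by
      intro hne
      by_cases hs : ∀ u ∈ U1, u ≠ r' → T.Adj r' u
      · have := piv_broom_lt htri hrU h1.root_mem
          (fun u hu h => (he u hu r h2.root_mem h).1) hs hne (by omega) hc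
        omega
      · push Not at hs
        have := ih1.1 hs
        omega
    have big : U2 ≠ {r} → (∃ u ∈ U1 ∪ U2, u ≠ r ∧ ¬ T.Adj r u) →
        (betS T G (U1 ∪ U2) r).ncard + 2 * (Arr V).ncard <
          (U1 ∪ U2).card * (Arr V).ncard := by
      rintro hU ⟨u, hu, hur, hnadj⟩
      rw [hcard, add_mul]
      have := b2.2 hU
      by_cases hne : U1 = {r'}
      · have hu2 : u ∈ U2 := by
          rcases mem_union.mp hu with h | h
          · rw [hne, mem_singleton] at h
            exact absurd (h ▸ ha) hnadj
          · exact h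
        have := ih2.1 ⟨u, hu2, hur, hnadj⟩
        omega
      · have := br hne
        omega
    by_cases hU : U2 = {r}
    · have e : U1 ∪ U2 = insert r U1 := by rw [hU]; ext; simp
      have c2 : U2.card = 1 := by rw [hU]; simp
      rw [hcard, e, add_mul, c2, one_mul]
      constructor
      · rintro ⟨u, hu, hur, hnadj⟩
        have hne : U1 ≠ {r'} := by
          intro hne
          rcases mem_insert.mp hu with h | h
          · exact hur h
          · rw [hne, mem_singleton] at h
            exact hnadj (h ▸ ha)
        have := br hne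
        omega
      · intro hns
        obtain ⟨u, hu, hur, hnadj⟩ := hns r' (mem_insert_of_mem h1.root_mem)
        have hu1 : u ∈ U1 := by
          rcases mem_insert.mp hu with h | h
          · exact absurd (h ▸ ha.symm) hnadj
          · exact h
        have := ih1.1 ⟨u, hu1, hur, hnadj⟩
        omega
    · constructor
      · intro hx
        have := big hU hx
        omega
      · intro hns
        exact big hU (hns r (mem_union_right _ h2.root_mem))

lemma mk_total {R B : SimpleGraph V} (hc : ∀ u w, u ≠ w → R.Adj u w ∨ B.Adj u w) :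
    (Fintype.card V - 1) * (Arr V).ncard ≤ (Mk R).ncard + (Mk B).ncard := by
  have h1 : ((Arr V) ×ˢ (Set.Iio (Fintype.card V - 1))).ncard ≤ (Mk R ∪ Mk B).ncard := by
    refine ncard_le_of_rel ((mk_finite R).union (mk_finite B))
      (fun p q => flat q = p.1 ∧ q.2.1.length = p.2) ?_ ?_
    · rintro ⟨l, j⟩ ⟨hl, hj⟩
      simp only [Set.mem_Iio] at hl hj
      have hlen := arr_length hl
      obtain ⟨v, l', rfl⟩ : ∃ v l', l = v :: l' := by
        cases l with
        | nil => simp at hlen; omega
        | cons v l' => exact ⟨v, l', rfl⟩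
      have hj' : j < l'.length := by simp at hlen; omega
      have e : l' = l'.take j ++ l'[j] :: l'.drop (j + 1) := by simp
      have hne : v ≠ l'[j] := by
        intro h
        have := hl.1
        rw [List.nodup_cons] at this
        exact this.1 (h ▸ List.getElem_mem hj')
      have hf : flat (v, l'.take j, l'[j], l'.drop (j + 1)) = v :: l' := by
        simp only [flat]; rw [← e]
      refine ⟨(v, l'.take j, l'[j], l'.drop (j + 1)), ?_, hf, by simp; omega⟩
      rcases hc _ _ hne with h | h
      · exact Or.inl ⟨hf ▸ hl, h⟩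
      · exact Or.inr ⟨hf ▸ hl, h⟩
    · rintro ⟨l, j⟩ - ⟨l', j'⟩ - q ⟨a1, a2⟩ ⟨b1, b2⟩
      simp only at a1 a2 b1 b2
      rw [← a1, ← a2, ← b1, ← b2]
  rw [Set.ncard_prod] at h1
  have h2 : (Set.Iio (Fintype.card V - 1)).ncard = Fintype.card V - 1 := by
    rw [← Finset.coe_range, Set.ncard_coe_finset, card_range]
  rw [h2, mul_comm] at h1
  exact h1.trans (Set.ncard_union_le _ _)

end

end Pool.Agent.Lib.MP_06e9af_co
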