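import Pool.Agent.Lib.MP_06e9af_co.Tree

/-!
Trees whose leaves hang at two vertices only (double brooms).
-/

namespace Pool.Agent.Lib.MP_06e9af_co

open Finset

variable {α V : Type*}

/-- `T` is the path `x, mid, q` with leaf sets `A` at `x` and `B` at `q`. -/
structure DB [Fintype α] (T : SimpleGraph α) (V : Type*) (x q : α) (A B : Finset α)
    (mid : List α) : Prop where
  hA : ∀ u, u ∈ A ↔ LeafOf T u x
  hB : ∀ u, u ∈ B ↔ LeafOf T u q
  nodup : (x :: (mid ++ [q])).Nodup
  chain : (x :: (mid ++ [q])).IsChain T.Adj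
  notA : ∀ u ∈ x :: (mid ++ [q]), u ∉ A
  notB : ∀ u ∈ x :: (mid ++ [q]), u ∉ B
  cover : ∀ u, u ∈ x :: (mid ++ [q]) ∨ u ∈ A ∨ u ∈ B
  card : Fintype.card α = mid.length + 2 + A.card + B.card
  adj : T.Adj x q → mid = []
  emb : ∀ (G : SimpleGraph V) (v e : V) (m : List V) (A' B' : Finset V),
    m.length = mid.length → (v :: (m ++ [e])).Nodup → (v :: (m ++ [e])).IsChain G.Adj →
    A.card ≤ A'.card → B.card ≤ B'.card → Disjoint A' B' →
    (∀ z ∈ A', G.Adj v z ∧ z ∉ v :: (m ++ [e])) → (∀ z ∈ B', G.Adj e z ∧ z ∉ v :: (m ++ [e])) →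
    Cp T G

lemma exists_DB [Fintype α] {T : SimpleGraph α} (hT : T.IsTree)
    (hns : ∀ c, ∃ u, u ≠ c ∧ ¬ T.Adj c u) {x q y y' : α} (hxq : x ≠ q) (hy : LeafOf T y x)
    (hy' : LeafOf T y' q) (hall : ∀ a b, LeafOf T a b → b = x ∨ b = q) :
    ∃ A B mid, DB T V x q A B mid := by
  classical
  obtain ⟨h, par, P⟩ := exists_PS hT x
  set A : Finset α := univ.filter (fun u => LeafOf T u x) with hA
  set B : Finset α := univ.filter (fun u => LeafOf T u q) with hB
  have mA : ∀ u, u ∈ A ↔ LeafOf T u x := by simp [hA]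
  have mB : ∀ u, u ∈ B ↔ LeafOf T u q := by simp [hB]
  have xnl : ∀ c, ¬ LeafOf T x c := fun c => leaf_not_parent hT hns hy
  have qnl : ∀ c, ¬ LeafOf T q c := fun c => leaf_not_parent hT hns hy'
  have hq : (P.up q hxq.symm).2 = (P.up q hxq.symm).2 := rfl
  obtain ⟨L, hL⟩ : ∃ L, h q = L + 1 := ⟨h (par q), (P.up q hxq.symm).2.symm⟩
  have anc : ∀ j, j ≤ L + 1 → h (par^[j] q) + j = L + 1 := by
    intro j
    induction j with
    | zero => intro _; simpa using hL
    | succ j ih =>
      intro hj
      have h1 := ih (by omega)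
      have hne : par^[j] q ≠ x := by
        intro he; rw [he, P.root] at h1; omega
      rw [Function.iterate_succ_apply']
      have := (P.up _ hne).2
      omega
  have anc_ne : ∀ j, j ≤ L → par^[j] q ≠ x := by
    intro j hj he
    have := anc j (by omega)
    rw [he, P.root] at this; omega
  set p : ℕ → α := fun i => par^[L + 1 - i] q with hp
  have hpd : ∀ i, i ≤ L + 1 → h (p i) = i := by
    intro i hi
    have := anc (L + 1 - i) (by omega)
    simp only [hp]; omega
  have p0 : p 0 = x := P.eq_root (hpd 0 (by omega))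
  have pL : p (L + 1) = q := by simp [hp]
  have ppar : ∀ i, i ≤ L → p (i + 1) ≠ x ∧ par (p (i + 1)) = p i := by
    intro i hi
    refine ⟨anc_ne _ (by omega), ?_⟩
    simp only [hp]
    rw [← Function.iterate_succ_apply' par]
    congr 1; omega
  have padj : ∀ i, i ≤ L → T.Adj (p i) (p (i + 1)) := by
    intro i hi
    rw [← (ppar i hi).2]
    exact (P.up _ (ppar i hi).1).1.symm
  have pnl : ∀ i, i ≤ L + 1 → ∀ c, ¬ LeafOf T (p i) c := by
    intro i hi c hc
    rcases Nat.eq_zero_or_pos i with rfl | h0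
    · exact xnl c (p0 ▸ hc)
    rcases Nat.lt_or_eq_of_le hi with h1 | rfl
    · obtain ⟨j, rfl⟩ : ∃ j, i = j + 1 := ⟨i - 1, by omega⟩
      have a1 := hc.2 _ (padj j (by omega)).symm
      have a2 := hc.2 _ (padj (j + 1) (by omega))
      have a3 := hpd j (by omega)
      have a4 := hpd (j + 1 + 1) (by omega)
      rw [a1] at a3; rw [a2] at a4; omega
    · exact qnl c (pL ▸ hc)
  -- non-leaves are on the path
  obtain ⟨M, hM⟩ : ∃ M, ∀ u, h u ≤ M :=
    ⟨univ.sup h, fun u => le_sup (f := h) (mem_univ u)⟩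
  have onp : ∀ n u, M - h u = n → (∀ c, ¬ LeafOf T u c) → h u ≤ L + 1 ∧ p (h u) = u := by
    intro n
    induction n using Nat.strong_induction_on with
    | _ n ih =>
      intro u hu hnl
      by_cases hux : u = x
      · rw [hux, P.root]; exact ⟨by omega, p0⟩
      have hch : ∃ w, w ≠ x ∧ par w = u := by
        by_contra hcon
        push Not at hcon
        exact hnl _ (P.leaf_of_nochild hux hcon)
      obtain ⟨w, hw, hwu⟩ := hch
      have d1 := (P.up w hw).2
      rw [hwu] at d1
      by_cases hwl : ∃ c, LeafOf T w c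
      · obtain ⟨c, hc⟩ := hwl
        have : u = c := hc.2 u (hwu ▸ (P.up w hw).1)
        rcases hall w c hc with h' | h'
        · exact absurd (this.trans h') hux
        · rw [this, h', hL]; exact ⟨le_rfl, pL⟩
      · push Not at hwl
        have := hM w
        obtain ⟨b1, b2⟩ := ih (M - h w) (by omega) w rfl hwl
        refine ⟨by omega, ?_⟩
        rw [← (ppar (h u) (by omega)).2, d1, b2, hwu]
  have onp' : ∀ u, u ∉ A → u ∉ B → h u ≤ L + 1 ∧ p (h u) = u := by
    intro u h1 h2
    refine onp _ u rfl (fun c hc => ?_)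
    rcases hall u c hc with rfl | rfl
    · exact h1 ((mA u).mpr hc)
    · exact h2 ((mB u).mpr hc)
  set mid : List α := ((List.range L).map Nat.succ).map p with hmid
  have hπ : x :: (mid ++ [q]) = (List.range (L + 2)).map p := by
    rw [List.range_succ, List.range_succ_eq_map]
    simp [hmid, p0, pL]
  have hml : mid.length = L := by simp [hmid]
  have hmem : ∀ u, u ∈ x :: (mid ++ [q]) ↔ ∃ i, i ≤ L + 1 ∧ p i = u := by
    intro u; rw [hπ]; simp only [List.mem_map, List.mem_range]
    constructor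
    · rintro ⟨i, h1, h2⟩; exact ⟨i, by omega, h2⟩
    · rintro ⟨i, h1, h2⟩; exact ⟨i, by omega, h2⟩
  have hnd : (x :: (mid ++ [q])).Nodup := by
    rw [hπ]
    refine List.Nodup.map_on ?_ List.nodup_range
    intro i hi j hj he
    have a1 := hpd i (by simp at hi; omega)
    have a2 := hpd j (by simp at hj; omega)
    rw [he] at a1; omega
  have nA : ∀ u ∈ x :: (mid ++ [q]), u ∉ A := by
    intro u hu hc
    obtain ⟨i, hi, rfl⟩ := (hmem u).mp hu
    exact pnl i hi _ ((mA _).mp hc)
  have nB : ∀ u ∈ x :: (mid ++ [q]), u ∉ B := by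
    intro u hu hc
    obtain ⟨i, hi, rfl⟩ := (hmem u).mp hu
    exact pnl i hi _ ((mB _).mp hc)
  have hcov : ∀ u, u ∈ x :: (mid ++ [q]) ∨ u ∈ A ∨ u ∈ B := by
    intro u
    by_cases h1 : u ∈ A
    · tauto
    by_cases h2 : u ∈ B
    · tauto
    exact Or.inl ((hmem u).mpr ⟨h u, onp' u h1 h2⟩)
  have dAB : Disjoint A B := by
    rw [disjoint_left]
    intro u h1 h2
    exact hxq (((mB u).mp h2).2 x ((mA u).mp h1).1)
  refine ⟨A, B, mid, mA, mB, hnd, ?_, nA, nB, hcov, ?_, ?_, ?_⟩
  · rw [hπ, List.isChain_iff_getElem]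
    intro i hi
    simp only [List.length_map, List.length_range] at hi
    simp only [List.getElem_map, List.getElem_range]
    exact padj i (by omega)
  · have e : (univ : Finset α) = (x :: (mid ++ [q])).toFinset ∪ (A ∪ B) := by
      ext u
      simp only [mem_univ, mem_union, List.mem_toFinset, true_iff]
      exact hcov u
    rw [← card_univ, e, card_union_of_disjoint, card_union_of_disjoint dAB,
      List.toFinset_card_of_nodup hnd]
    · simp; omega
    · rw [disjoint_left]
      intro u hu hc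
      rw [List.mem_toFinset] at hu
      rcases mem_union.mp hc with h' | h'
      · exact nA u hu h'
      · exact nB u hu h'
  · intro hadj
    have := P.depth_adj hadj
    rw [P.root, hL] at this
    exact List.length_eq_zero_iff.mp (by omega)
  · intro G v e m A' B' hm hn hc c1 c2 hd g1 g2
    obtain ⟨eA, a1, a2⟩ := exists_inj _ _ v c1
    obtain ⟨eB, b1, b2⟩ := exists_inj _ _ v c2
    set l := v :: (m ++ [e]) with hl
    have hll : l.length = L + 2 := by simp [hl, hm, hml]
    have l0 : l.getD 0 v = v := by simp [hl]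
    have lL : l.getD (L + 1) v = e := by
      simp only [hl, List.getD_cons_succ]
      rw [List.getD_eq_getElem?_getD, List.getElem?_append_right (by omega)]
      simp [hm, hml]
    have lg : ∀ i (hi : i ≤ L + 1), l.getD i v = l[i]'(by omega) := by
      intro i hi; rw [List.getD_eq_getElem]
    have lmem : ∀ i, i ≤ L + 1 → l.getD i v ∈ l := by
      intro i hi; rw [lg i hi]; exact List.getElem_mem _
    have xA : x ∉ A := nA x (by simp)
    have xB : x ∉ B := nB x (by simp)
    have qA : q ∉ A := nA q (by simp)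
    have qB : q ∉ B := nB q (by simp)
    set f : α → V := fun u => if u ∈ A then eA u else if u ∈ B then eB u else l.getD (h u) v
      with hf
    have fA : ∀ u ∈ A, f u = eA u := fun u hu => by simp [hf, hu]
    have fB : ∀ u ∈ B, f u = eB u := fun u hu => by
      simp [hf, hu, disjoint_right.mp dAB hu]
    have fP : ∀ u, u ∉ A → u ∉ B → f u = l.getD (h u) v := fun u h1 h2 => by
      simp only [hf, if_neg h1, if_neg h2]
    have up : ∀ u, u ≠ x → G.Adj (f u) (f (par u)) := by
      intro u hu
      by_cases h1 : u ∈ A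
      · have : par u = x := ((mA u).mp h1).2 _ (P.up u hu).1
        rw [this, fA u h1, fP x xA xB, P.root, l0]
        exact (g1 _ (a2 u h1)).1.symm
      by_cases h2 : u ∈ B
      · have : par u = q := ((mB u).mp h2).2 _ (P.up u hu).1
        rw [this, fB u h2, fP q qA qB, hL, lL]
        exact (g2 _ (b2 u h2)).1.symm
      obtain ⟨d1, d2⟩ := onp' u h1 h2
      have d3 := (P.up u hu).2
      have d4 : par u = p (h (par u)) := by
        rw [← (ppar (h (par u)) (by omega)).2, d3, d2]
      have d5 : par u ∈ x :: (mid ++ [q]) := (hmem _).mpr ⟨_, by omega, d4.symm⟩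
      rw [fP u h1 h2, fP _ (nA _ d5) (nB _ d5), lg _ d1, lg _ (by omega)]
      have := List.isChain_iff_getElem.mp hc (h (par u)) (by omega)
      simp only [d3] at this
      exact this.symm
    refine ⟨f, ?_, ?_⟩
    · intro u w huw
      rcases hcov u with hu | hu | hu <;> rcases hcov w with hw | hw | hw
      · obtain ⟨d1, d2⟩ := onp' u (nA u hu) (nB u hu)
        obtain ⟨d3, d4⟩ := onp' w (nA w hw) (nB w hw)
        rw [fP u (nA u hu) (nB u hu), fP w (nA w hw) (nB w hw), lg _ d1, lg _ d3] at huw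
        have := (List.Nodup.getElem_inj_iff hn).mp huw
        rw [← d2, ← d4, this]
      · rw [fP u (nA u hu) (nB u hu), fA w hw] at huw
        exact absurd (huw ▸ lmem _ (onp' u (nA u hu) (nB u hu)).1) (g1 _ (a2 w hw)).2
      · rw [fP u (nA u hu) (nB u hu), fB w hw] at huw
        exact absurd (huw ▸ lmem _ (onp' u (nA u hu) (nB u hu)).1) (g2 _ (b2 w hw)).2
      · rw [fP w (nA w hw) (nB w hw), fA u hu] at huw
        exact absurd (huw ▸ lmem _ (onp' w (nA w hw) (nB w hw)).1) (g1 _ (a2 u hu)).2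
      · rw [fA u hu, fA w hw] at huw; exact a1 u hu w hw huw
      · rw [fA u hu, fB w hw] at huw
        exact absurd (huw ▸ a2 u hu) (disjoint_right.mp hd (b2 w hw))
      · rw [fP w (nA w hw) (nB w hw), fB u hu] at huw
        exact absurd (huw ▸ lmem _ (onp' w (nA w hw) (nB w hw)).1) (g2 _ (b2 u hu)).2
      · rw [fB u hu, fA w hw] at huw
        exact absurd (huw ▸ b2 u hu) (disjoint_left.mp hd (a2 w hw))
      · rw [fB u hu, fB w hw] at huw; exact b1 u hu w hw huw
    · intro u w huw
      rcases P.edge u w huw with ⟨d1, d2⟩ | ⟨d1, d2⟩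
      · exact d2 ▸ up u d1
      · exact d2 ▸ (up w d1).symm

/-- symmetric form of the embedding property -/
lemma DB.emb2 [Fintype α] {T : SimpleGraph α} {x q : α} {A B : Finset α} {mid : List α}
    (D : DB T V x q A B mid) (G : SimpleGraph V) (v e : V) (m : List V) (A' B' : Finset V)
    (hm : m.length = mid.length) (hn : (v :: (m ++ [e])).Nodup)
    (hc : (v :: (m ++ [e])).IsChain G.Adj)
    (c1 : max A.card B.card ≤ A'.card) (c2 : min A.card B.card ≤ B'.card) (hd : Disjoint A' B')
    (g1 : ∀ z ∈ A', G.Adj v z ∧ z ∉ v :: (m ++ [e]))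
    (g2 : ∀ z ∈ B', G.Adj e z ∧ z ∉ v :: (m ++ [e])) : Cp T G := by
  by_cases hle : B.card ≤ A.card
  · exact D.emb G v e m A' B' hm hn hc (by omega) (by omega) hd g1 g2
  · have er : e :: (m.reverse ++ [v]) = (v :: (m ++ [e])).reverse := by simp
    refine D.emb G e v m.reverse B' A' (by simpa using hm) ?_ ?_ (by omega) (by omega) hd.symm
      ?_ ?_
    · rw [er]; exact List.nodup_reverse.mpr hn
    · rw [er, List.isChain_reverse]; exact hc.imp (fun _ _ h => h.symm)
    · intro z hz; rw [er, List.mem_reverse]; exact g2 z hz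
    · intro z hz; rw [er, List.mem_reverse]; exact g1 z hz

end Pool.Agent.Lib.MP_06e9af_co
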