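import Mathlib

/-!
Permutation counting for rooted trees in a graph.
-/

namespace Pool.Agent.Lib.MP_06e9af_co

open Finset

variable {α V : Type*}

/-- A copy of `T[U]` in `G` with root `r` at `v` and all other vertices in `P`. -/
def Emb (T : SimpleGraph α) (G : SimpleGraph V) (U : Finset α) (r : α) (v : V) (P : List V) :
    Prop :=
  ∃ f : α → V, Set.InjOn f U ∧ f r = v ∧ (∀ u ∈ U, u ≠ r → f u ∈ P) ∧
    ∀ u ∈ U, ∀ u' ∈ U, T.Adj u u' → G.Adj (f u) (f u')

/-- Orderings of all vertices. -/
def Arr (V : Type*) : Set (List V) := {l | l.Nodup ∧ ∀ u, u ∈ l}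

/-- Root, earlier part, marked vertex, later part. -/
abbrev Q4 (V : Type*) := V × List V × V × List V

def flat (q : Q4 V) : List V := q.1 :: (q.2.1 ++ q.2.2.1 :: q.2.2.2)

def Mk (G : SimpleGraph V) : Set (Q4 V) := {q | flat q ∈ Arr V ∧ G.Adj q.1 q.2.2.1}

def epsS (T : SimpleGraph α) (G : SimpleGraph V) (U : Finset α) (r : α) : Set (Q4 V) :=
  {q | q ∈ Mk G ∧ ¬ Emb T G U r q.1 q.2.1}

def betS (T : SimpleGraph α) (G : SimpleGraph V) (U : Finset α) (r : α) : Set (Q4 V) :=
  {q | q ∈ Mk G ∧ ¬ Emb T G U r q.1 (q.2.2.1 :: q.2.1)}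

def pivS (T : SimpleGraph α) (G : SimpleGraph V) (U : Finset α) (r : α) : Set (Q4 V) :=
  {q | q ∈ Mk G ∧ ¬ Emb T G U r q.1 q.2.1 ∧ Emb T G U r q.1 (q.2.2.1 :: q.2.1)}

lemma Emb.mono {T : SimpleGraph α} {G : SimpleGraph V} {U : Finset α} {r : α} {v : V}
    {P P' : List V} (h : Emb T G U r v P) (hP : ∀ u ∈ P, u ∈ P') : Emb T G U r v P' := by
  obtain ⟨f, h1, h2, h3, h4⟩ := h
  exact ⟨f, h1, h2, fun u hu hr => hP _ (h3 u hu hr), h4⟩

lemma arr_length [Fintype V] {l : List V} (h : l ∈ Arr V) : l.length = Fintype.card V := by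
  classical
  rw [← List.toFinset_card_of_nodup h.1]
  have : l.toFinset = univ := by
    ext u; simp [h.2 u]
  rw [this]; simp

lemma arr_finite [Fintype V] : (Arr V).Finite :=
  (List.finite_length_eq V (Fintype.card V)).subset (fun _ h => arr_length h)

lemma arr_perm {l l' : List V} (h : l ∈ Arr V) (hp : l.Perm l') : l' ∈ Arr V :=
  ⟨hp.nodup_iff.mp h.1, fun u => hp.mem_iff.mp (h.2 u)⟩

lemma all4_finite [Fintype V] : {q : Q4 V | flat q ∈ Arr V}.Finite := by
  have h1 := List.finite_length_le V (Fintype.card V)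
  refine ((Set.finite_univ (α := V)).prod (h1.prod ((Set.finite_univ (α := V)).prod h1))).subset ?_
  rintro ⟨v, P, w, Q⟩ h
  have := arr_length h
  simp only [flat, List.length_cons, List.length_append] at this
  simp only [Set.mem_prod, Set.mem_univ, Set.mem_ofPred_eq, true_and]
  omega

lemma mk_finite [Fintype V] (G : SimpleGraph V) : (Mk G).Finite :=
  all4_finite.subset (fun _ h => h.1)

lemma ncard_le_of_rel {β γ : Type*} {A : Set β} {B : Set γ} (hB : B.Finite) (R : β → γ → Prop)
    (h1 : ∀ a ∈ A, ∃ b ∈ B, R a b) (h2 : ∀ a ∈ A, ∀ a' ∈ A, ∀ b, R a b → R a' b → a = a') :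
    A.ncard ≤ B.ncard := by
  classical
  rcases A.eq_empty_or_nonempty with rfl | ⟨a0, ha0⟩
  · simp
  obtain ⟨b0, -, -⟩ := h1 a0 ha0
  have : Nonempty γ := ⟨b0⟩
  choose! g hg using h1
  refine Set.ncard_le_ncard_of_injOn g (fun a ha => (hg a ha).1) ?_ hB
  intro a ha a' ha' h
  exact h2 a ha a' ha' (g a) (hg a ha).2 (h ▸ (hg a' ha').2)

section steps

variable [Fintype V] [DecidableEq α] {T : SimpleGraph α} {G : SimpleGraph V}

omit [DecidableEq α] in
lemma eps_le (U : Finset α) (r : α) :
    (epsS T G U r).ncard ≤ (betS T G U r).ncard + (pivS T G U r).ncard := by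
  refine le_trans (Set.ncard_le_ncard (t := betS T G U r ∪ pivS T G U r) ?_ ?_)
    (Set.ncard_union_le _ _)
  · intro q hq
    by_cases h : Emb T G U r q.1 (q.2.2.1 :: q.2.1)
    · exact Or.inr ⟨hq.1, hq.2, h⟩
    · exact Or.inl ⟨hq.1, h⟩
  · exact ((mk_finite G).subset (fun _ h => h.1)).union ((mk_finite G).subset (fun _ h => h.1))

omit [DecidableEq α] [Fintype V] in
lemma flat_injOn (U : Finset α) (r : α) : Set.InjOn flat (pivS T G U r) := by
  rintro ⟨v, P, w, Q⟩ h ⟨v', P', w', Q'⟩ h' he
  simp only [flat, List.cons.injEq] at he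
  obtain ⟨rfl, he⟩ := he
  obtain ⟨-, h1, h2⟩ := h
  obtain ⟨-, h1', h2'⟩ := h'
  simp only at h1 h2 h1' h2'
  rcases List.append_eq_append_iff.mp he with ⟨a, ha, hb⟩ | ⟨a, ha, hb⟩
  · cases a with
    | nil =>
      simp only [List.append_nil, List.nil_append, List.cons.injEq] at ha hb
      obtain ⟨rfl, rfl⟩ := hb
      rw [ha]
    | cons x a =>
      simp only [List.cons_append, List.cons.injEq] at hb
      obtain ⟨rfl, rfl⟩ := hb
      exfalso
      refine h1' (h2.mono ?_)
      intro u hu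
      rw [ha]
      simp only [List.mem_cons, List.mem_append] at hu ⊢
      tauto
  · cases a with
    | nil =>
      simp only [List.append_nil, List.nil_append, List.cons.injEq] at ha hb
      obtain ⟨rfl, rfl⟩ := hb
      rw [ha]
    | cons x a =>
      simp only [List.cons_append, List.cons.injEq] at hb
      obtain ⟨rfl, rfl⟩ := hb
      exfalso
      refine h1 (h2'.mono ?_)
      intro u hu
      rw [ha]
      simp only [List.mem_cons, List.mem_append] at hu ⊢
      tauto

omit [DecidableEq α] in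
lemma piv_le_of (U : Finset α) (r : α) (B : Set (List V)) (hB : B ⊆ Arr V)
    (h : ∀ q ∈ pivS T G U r, flat q ∈ B) : (pivS T G U r).ncard ≤ B.ncard :=
  Set.ncard_le_ncard_of_injOn flat h (flat_injOn U r) (arr_finite.subset hB)

omit [DecidableEq α] in
lemma piv_le (U : Finset α) (r : α) : (pivS T G U r).ncard ≤ (Arr V).ncard :=
  piv_le_of U r _ subset_rfl (fun _ hq => hq.1.1)

omit [DecidableEq α] in
lemma piv_lt (U : Finset α) (r : α) (l : List V) (hl : l ∈ Arr V)
    (h : ∀ q ∈ pivS T G U r, flat q ≠ l) : (pivS T G U r).ncard < (Arr V).ncard := by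
  have h1 := piv_le_of (T := T) (G := G) U r (Arr V \ {l}) Set.sdiff_subset
    (fun q hq => ⟨hq.1.1, h q hq⟩)
  have h2 := Set.ncard_sdiff_singleton_lt_of_mem hl arr_finite
  omega

omit [Fintype V] in
lemma emb_leaf {U : Finset α} {r r' : α} (hr : r ∉ U) (_hr' : r' ∈ U)
    (he : ∀ u ∈ U, T.Adj u r → u = r') {v w : V} {P : List V} (hvw : G.Adj v w) (hv : v ∉ P)
    (h : Emb T G U r' w P) : Emb T G (insert r U) r v (w :: P) := by
  obtain ⟨f, h1, h2, h3, h4⟩ := h
  have hne : ∀ u ∈ U, u ≠ r := fun u hu h => hr (h ▸ hu)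
  have hmem : ∀ u ∈ U, f u ∈ w :: P := by
    intro u hu
    by_cases h : u = r'
    · rw [h, h2]; simp
    · exact List.mem_cons_of_mem _ (h3 u hu h)
  have hfv : ∀ u ∈ U, f u ≠ v := by
    intro u hu h
    have := hmem u hu
    rw [h] at this
    rcases List.mem_cons.mp this with h' | h'
    · exact hvw.ne h'
    · exact hv h'
  refine ⟨Function.update f r v, ?_, by simp, ?_, ?_⟩
  · intro a ha b hb hab
    simp only [coe_insert, Set.mem_insert_iff, mem_coe] at ha hb
    rcases ha with rfl | ha <;> rcases hb with rfl | hb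
    · rfl
    · rw [Function.update_self, Function.update_of_ne (hne b hb)] at hab
      exact absurd hab.symm (hfv b hb)
    · rw [Function.update_self, Function.update_of_ne (hne a ha)] at hab
      exact absurd hab (hfv a ha)
    · rw [Function.update_of_ne (hne a ha), Function.update_of_ne (hne b hb)] at hab
      exact h1 ha hb hab
  · intro u hu hur
    rcases mem_insert.mp hu with rfl | hu
    · exact absurd rfl hur
    · rw [Function.update_of_ne hur]; exact hmem u hu
  · intro a ha b hb hab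
    rw [mem_insert] at ha hb
    rcases ha with rfl | ha <;> rcases hb with rfl | hb
    · exact absurd hab (T.loopless.irrefl _)
    · rw [Function.update_self, Function.update_of_ne (hne b hb), he b hb hab.symm, h2]
      exact hvw
    · rw [Function.update_self, Function.update_of_ne (hne a ha), he a ha hab, h2]
      exact hvw.symm
    · rw [Function.update_of_ne (hne a ha), Function.update_of_ne (hne b hb)]
      exact h4 a ha b hb hab

lemma bet_leaf {U : Finset α} {r r' : α} (hr : r ∉ U) (hr' : r' ∈ U)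
    (he : ∀ u ∈ U, T.Adj u r → u = r') :
    (betS T G (insert r U) r).ncard ≤ (epsS T G U r').ncard := by
  refine Set.ncard_le_ncard_of_injOn (fun q : Q4 V => (q.2.2.1, q.2.1, q.1, q.2.2.2)) ?_ ?_
    ((mk_finite G).subset (fun _ h => h.1))
  · rintro ⟨v, P, w, Q⟩ ⟨⟨h1, h2⟩, h3⟩
    simp only [flat] at h1 h2 h3
    refine ⟨⟨arr_perm h1 ?_, h2.symm⟩, fun h => h3 (emb_leaf hr hr' he h2 ?_ h)⟩
    · simp only [flat]
      exact ((List.perm_middle.cons v).trans (List.Perm.swap _ _ _)).trans
        (List.perm_middle.cons w).symm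
    · have := h1.1
      simp only [List.nodup_cons, List.mem_append, not_or] at this
      exact this.1.1
  · rintro ⟨v, P, w, Q⟩ - ⟨v', P', w', Q'⟩ - h
    simp only [Prod.mk.injEq] at h ⊢
    tauto

omit [Fintype V] in
lemma emb_union {U1 U2 : Finset α} {r : α} (h1 : r ∈ U1)
    (hi : ∀ u ∈ U1, u ∈ U2 → u = r)
    (he : ∀ u ∈ U1, ∀ u' ∈ U2, T.Adj u u' → u = r ∨ u' = r) (h2 : r ∈ U2)
    {v : V} {P1 P2 : List V} (hv : v ∉ P2) (hd : ∀ u ∈ P1, u ∉ P2)
    (e1 : Emb T G U1 r v P1) (e2 : Emb T G U2 r v P2) : Emb T G (U1 ∪ U2) r v (P1 ++ P2) := by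
  classical
  obtain ⟨f, f1, f2, f3, f4⟩ := e1
  obtain ⟨g, g1, g2, g3, g4⟩ := e2
  have hg : ∀ u ∈ U2, (if u ∈ U1 then f u else g u) = g u := by
    intro u hu
    split_ifs with h
    · rw [hi u h hu, f2, g2]
    · rfl
  have hcross : ∀ a ∈ U1, ∀ b ∈ U2, b ∉ U1 → f a ≠ g b := by
    intro a ha b hb hb' hab
    have hbr : b ≠ r := fun h => hb' (h ▸ h1)
    have := g3 b hb hbr
    by_cases har : a = r
    · rw [← hab, har, f2] at this; exact hv this
    · exact hd _ (f3 a ha har) (hab ▸ this)
  refine ⟨fun u => if u ∈ U1 then f u else g u, ?_, by simp [h1, f2], ?_, ?_⟩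
  · intro a ha b hb hab
    simp only [coe_union, Set.mem_union, mem_coe] at ha hb
    simp only at hab
    by_cases ha1 : a ∈ U1 <;> by_cases hb1 : b ∈ U1
    · rw [if_pos ha1, if_pos hb1] at hab; exact f1 ha1 hb1 hab
    · rw [if_pos ha1, if_neg hb1] at hab
      exact absurd hab (hcross a ha1 b (hb.resolve_left hb1) hb1)
    · rw [if_neg ha1, if_pos hb1] at hab
      exact absurd hab.symm (hcross b hb1 a (ha.resolve_left ha1) ha1)
    · rw [if_neg ha1, if_neg hb1] at hab
      exact g1 (ha.resolve_left ha1) (hb.resolve_left hb1) hab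
  · intro u hu hur
    simp only
    by_cases h : u ∈ U1
    · rw [if_pos h]; exact List.mem_append_left _ (f3 u h hur)
    · rw [if_neg h]
      exact List.mem_append_right _ (g3 u ((mem_union.mp hu).resolve_left h) hur)
  · intro a ha b hb hab
    simp only
    by_cases ha1 : a ∈ U1 <;> by_cases hb1 : b ∈ U1
    · rw [if_pos ha1, if_pos hb1]; exact f4 a ha1 b hb1 hab
    · have hb2 := (mem_union.mp hb).resolve_left hb1
      have : a = r := (he a ha1 b hb2 hab).resolve_right (fun h => hb1 (h ▸ h1))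
      have ha2 : a ∈ U2 := this ▸ h2
      rw [hg a ha2, hg b hb2]; exact g4 a ha2 b hb2 hab
    · have ha2 := (mem_union.mp ha).resolve_left ha1
      have : b = r := (he b hb1 a ha2 hab.symm).resolve_right (fun h => ha1 (h ▸ h1))
      have hb2 : b ∈ U2 := this ▸ h2
      rw [hg a ha2, hg b hb2]; exact g4 a ha2 b hb2 hab
    · have ha2 := (mem_union.mp ha).resolve_left ha1
      have hb2 := (mem_union.mp hb).resolve_left hb1
      rw [hg a ha2, hg b hb2]; exact g4 a ha2 b hb2 hab

lemma exists_min_split {β : Type*} (p : List β → Prop) (P : List β) (h : p P) :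
    ∃ P1 P2, P = P1 ++ P2 ∧ p P1 ∧ ∀ A B, P1 = A ++ B → p A → B = [] := by
  classical
  have hex : ∃ i, p (P.take i) := ⟨P.length, by simpa using h⟩
  refine ⟨P.take (Nat.find hex), P.drop (Nat.find hex), (List.take_append_drop _ _).symm,
    Nat.find_spec hex, ?_⟩
  intro A B hAB hA
  have hl := congrArg List.length hAB
  simp only [List.length_take, List.length_append] at hl
  have hA' : P.take A.length = A := by
    have : (P.take (Nat.find hex)).take A.length = A := by rw [hAB]; simp
    rw [List.take_take] at this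
    have hm : min A.length (Nat.find hex) = A.length := by omega
    rwa [hm] at this
  have : Nat.find hex ≤ A.length := Nat.find_min' hex (by rw [hA']; exact hA)
  have : B.length = 0 := by omega
  exact List.length_eq_zero_iff.mp this

lemma bet_split {U1 U2 : Finset α} {r : α} (h1 : r ∈ U1) (h2 : r ∈ U2)
    (hi : ∀ u ∈ U1, u ∈ U2 → u = r)
    (he : ∀ u ∈ U1, ∀ u' ∈ U2, T.Adj u u' → u = r ∨ u' = r) :
    (betS T G (U1 ∪ U2) r).ncard ≤ (epsS T G U1 r).ncard + (betS T G U2 r).ncard := by
  classical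
  set X : Set (Q4 V) := {q | q ∈ betS T G (U1 ∪ U2) r ∧ Emb T G U1 r q.1 q.2.1} with hX
  have hsub : betS T G (U1 ∪ U2) r ⊆ epsS T G U1 r ∪ X := by
    intro q hq
    by_cases h : Emb T G U1 r q.1 q.2.1
    · exact Or.inr ⟨hq, h⟩
    · exact Or.inl ⟨hq.1, h⟩
  have hXf : X.Finite := (mk_finite G).subset (fun _ h => h.1.1)
  have hle : X.ncard ≤ (betS T G U2 r).ncard := by
    refine ncard_le_of_rel ((mk_finite G).subset (fun _ h => h.1))
      (fun q q' => ∃ P1, q.2.1 = P1 ++ q'.2.1 ∧ q'.1 = q.1 ∧ q'.2.2.1 = q.2.2.1 ∧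
        q'.2.2.2 = q.2.2.2 ++ P1.reverse ∧ Emb T G U1 r q.1 P1 ∧
        ∀ A B, P1 = A ++ B → Emb T G U1 r q.1 A → B = []) ?_ ?_
    · rintro ⟨v, P, w, Q⟩ ⟨⟨⟨a1, a2⟩, a3⟩, a4⟩
      simp only [flat] at a1 a2 a3 a4
      obtain ⟨P1, P2, rfl, b1, b2⟩ := exists_min_split (Emb T G U1 r v) P a4
      refine ⟨(v, P2, w, Q ++ P1.reverse), ⟨⟨arr_perm a1 ?_, a2⟩, ?_⟩, P1, rfl, rfl, rfl, rfl,
        b1, b2⟩
      · simp only [flat]
        refine List.Perm.cons v ?_
        rw [List.perm_iff_count]
        intro x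
        simp only [List.count_append, List.count_cons, List.count_reverse]
        omega
      · intro hc
        simp only at hc
        have hnd := a1.1
        simp only [List.nodup_cons, List.mem_append, List.mem_cons, not_or, List.nodup_append,
          ne_eq] at hnd
        refine a3 ((emb_union h1 hi he h2 ?_ ?_ b1 hc).mono ?_)
        · simp only [List.mem_cons, not_or]; tauto
        · intro u hu hu'
          rcases List.mem_cons.mp hu' with h | h
          · exact hnd.2.2.2 u (Or.inl hu) w (Or.inl rfl) h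
          · exact hnd.2.1.2.2 u hu u h rfl
        · intro u hu
          simp only [List.mem_append, List.mem_cons] at hu ⊢
          tauto
    · rintro ⟨v, P, w, Q⟩ - ⟨v', P', w', Q'⟩ - ⟨v0, P0, w0, Q0⟩
        ⟨P1, a1, a2, a3, a4, a5, a6⟩ ⟨P1', b1, b2, b3, b4, b5, b6⟩
      simp only at a1 a2 a3 a4 a5 a6 b1 b2 b3 b4 b5 b6
      subst a2 a3
      subst b2 b3
      have hrev : P1 ++ Q.reverse = P1' ++ Q'.reverse := by
        have := congrArg List.reverse (a4.symm.trans b4)
        simpa using this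
      have hP : P1 = P1' := by
        rcases List.append_eq_append_iff.mp hrev with ⟨a, ha, -⟩ | ⟨a, ha, -⟩
        · have := b6 P1 a ha a5
          rw [ha, this]; simp
        · have := a6 P1' a ha b5
          rw [ha, this]; simp
      subst hP
      have hQ : Q = Q' := by
        have := List.append_cancel_left hrev
        exact List.reverse_injective this
      rw [a1, b1, hQ]
  have := Set.ncard_le_ncard hsub (((mk_finite G).subset (fun _ h => h.1)).union hXf)
  have := Set.ncard_union_le (epsS T G U1 r) X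
  omega

end steps

end Pool.Agent.Lib.MP_06e9af_co
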