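import Mathlib

/-!
Ramsey numbers of graphs: definitions.
-/

namespace Pool.Agent.Lib.MP_06e9af_co

/-- Every red/blue colouring of the edges of the complete graph on `N` vertices (red graph `G`,
blue graph its complement) contains a copy of `T` all of whose edges have the same colour. -/
def Arrows {α : Type} (T : SimpleGraph α) (N : ℕ) : Prop :=
  ∀ G : SimpleGraph (Fin N), T.IsContained G ∨ T.IsContained Gᶜ

/-- `r` is the Ramsey number of `T`: the least `N` with the property `Arrows T N`. -/
def IsRamseyNumber {α : Type} (T : SimpleGraph α) (r : ℕ) : Prop :=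
  IsLeast {N : ℕ | Arrows T N} r

/-- some vertex is adjacent to all other vertices (for a tree: `T` is a star) -/
def IsStar {α : Type} (T : SimpleGraph α) : Prop :=
  ∃ c, ∀ u, u ≠ c → T.Adj c u

end Pool.Agent.Lib.MP_06e9af_co
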