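import Pool.Agent.Lib.MP_06e9af_co.Final

/-!
Trees with a vertex carrying `d` leaves and `d` further vertices carrying a leaf.
-/

namespace Pool.Agent.Lib.MP_06e9af_co

open Finset

variable {α β V : Type*}

/-- `f` is a copy of `T[U]` in `G`. -/
def SC (T : SimpleGraph α) (G : SimpleGraph V) (U : Finset α) (f : α → V) : Prop :=
  Set.InjOn f U ∧ ∀ u ∈ U, ∀ u' ∈ U, T.Adj u u' → G.Adj (f u) (f u')

/-- some copy of `T[U]` in `G` has `x` at `v` -/
def Car (T : SimpleGraph α) (G : SimpleGraph V) (U : Finset α) (x : α) (v : V) : Prop :=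
  ∃ f, SC T G U f ∧ f x = v

/-- orderings whose first vertex carries `T[U]` -/
def CarS (T : SimpleGraph α) (G : SimpleGraph V) (U : Finset α) (x : α) : Set (List V) :=
  {l | l ∈ Arr V ∧ ∃ v, l.head? = some v ∧ Car T G U x v}

open Classical in
/-- vertices of `U` other than `x` whose place is not adjacent to the place of `x` -/
noncomputable def Far (G : SimpleGraph V) (U : Finset α) (x : α) (f : α → V) : Finset α :=
  U.filter (fun u => u ≠ x ∧ ¬ G.Adj (f x) (f u))

lemma mem_Far {G : SimpleGraph V} {U : Finset α} {x u : α} {f : α → V} :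
    u ∈ Far G U x f ↔ u ∈ U ∧ u ≠ x ∧ ¬ G.Adj (f x) (f u) := by
  simp [Far]

variable [DecidableEq α] {T : SimpleGraph α} {G R B : SimpleGraph V}

omit [DecidableEq α] in
lemma piv_le_car [Fintype V] {U U' : Finset α} (hU : U ⊆ U') (x : α) :
    (pivS T G U' x).ncard ≤ (CarS T G U x).ncard := by
  refine piv_le_of U' x _ (fun _ h => h.1) ?_
  rintro ⟨v, P, w, Q⟩ ⟨h1, -, f, a1, a2, -, a4⟩
  exact ⟨h1.1, v, by simp [flat], f,
    ⟨a1.mono (coe_subset.mpr hU), fun u hu u' hu' => a4 u (hU hu) u' (hU hu')⟩, a2⟩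

lemma eps_chain [Fintype V] {U : Finset α} {x : α} (hx : x ∈ U) (L : Finset α)
    (hL : ∀ y ∈ L, LeafOf T y x) (hd : ∀ y ∈ L, y ∉ U) :
    (epsS T G (L ∪ U) x).ncard ≤
      (betS T G U x).ncard + (L.card + 1) * (CarS T G U x).ncard := by
  induction L using Finset.induction_on with
  | empty =>
    have h1 := eps_le (T := T) (G := G) U x
    have h2 := piv_le_car (T := T) (G := G) (subset_refl U) x
    simp only [empty_union, card_empty, zero_add, one_mul]
    omega
  | insert y L hy ih =>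
    have ih' := ih (fun z hz => hL z (mem_insert_of_mem hz)) (fun z hz => hd z (mem_insert_of_mem hz))
    have hyl := hL y (mem_insert_self _ _)
    have e : insert y L ∪ U = {y} ∪ (L ∪ U) := by
      ext u; simp only [mem_union, mem_insert, mem_singleton]; tauto
    have hx' : x ∈ L ∪ U := mem_union_right _ hx
    have hdis : Disjoint ({y} : Finset α) (L ∪ U) := by
      rw [disjoint_singleton_left, mem_union, not_or]
      exact ⟨hy, hd y (mem_insert_self _ _)⟩
    have he : ∀ u ∈ ({y} : Finset α), ∀ u' ∈ L ∪ U, T.Adj u u' → u = y ∧ u' = x := by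
      intro u hu u' _ h
      rw [mem_singleton] at hu
      subst hu
      exact ⟨rfl, hyl.2 u' h⟩
    have h1 := eps_le (T := T) (G := G) ({y} ∪ (L ∪ U)) x
    have h2 := piv_le_car (T := T) (G := G) (U := U) (U' := {y} ∪ (L ∪ U))
      (fun u hu => mem_union_right _ (mem_union_right _ hu)) x
    have h3 := (graft_split (G := G) hx' hdis he).2
    have h4 := graft_leaf (G := G) (mem_singleton_self y) hx' hdis he
    rw [eps_single, Set.ncard_empty] at h4
    rw [e, card_insert_of_notMem hy, add_mul (L.card + 1) 1, one_mul]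
    omega

lemma SC.extend [Fintype α] {L : Finset α} {x : α} (hL : ∀ y ∈ L, LeafOf T y x) {f : α → V}
    (hf : SC T G (univ \ L) f) (S : Finset V) (hS : L.card ≤ S.card)
    (h1 : ∀ z ∈ S, G.Adj (f x) z) (h2 : ∀ z ∈ S, ∀ u, u ∉ L → f u ≠ z) : Cp T G := by
  obtain ⟨e, e1, e2⟩ := exists_inj L S (f x) hS
  have hx : x ∉ L := fun h => (hL x h).1.ne rfl
  have hm : ∀ u, u ∉ L → u ∈ univ \ L := fun u hu => by simpa using hu
  refine ⟨fun u => if u ∈ L then e u else f u, ?_, ?_⟩
  · intro a b hab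
    by_cases ha : a ∈ L <;> by_cases hb : b ∈ L <;> simp only [ha, hb, if_true, if_false] at hab
    · exact e1 a ha b hb hab
    · exact absurd hab.symm (h2 _ (e2 a ha) b hb)
    · exact absurd hab (h2 _ (e2 b hb) a ha)
    · exact hf.1 (mem_coe.mpr (hm a ha)) (mem_coe.mpr (hm b hb)) hab
  · intro a b hab
    by_cases ha : a ∈ L <;> by_cases hb : b ∈ L <;> simp only [ha, hb, if_true, if_false]
    · exact absurd ((hL a ha).2 b hab ▸ hb) hx
    · rw [(hL a ha).2 b hab]; exact (h1 _ (e2 a ha)).symm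
    · rw [(hL b hb).2 a hab.symm]; exact h1 _ (e2 b hb)
    · exact hf.2 a (hm a ha) b (hm b hb) hab

lemma SC.deg [Fintype α] [Fintype V] {L : Finset α} {x : α} (hL : ∀ y ∈ L, LeafOf T y x)
    {f : α → V} (hf : SC T G (univ \ L) f) (hG : ¬ Cp T G) :
    (nb G (f x)).card + (Far G (univ \ L) x f).card + 2 ≤ L.card + (univ \ L).card := by
  classical
  have hx : x ∈ univ \ L := by simpa using fun h => (hL x h).1.ne rfl
  set S := (nb G (f x)).filter (fun z => ∀ u, u ∉ L → f u ≠ z) with hS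
  have c1 : S.card < L.card := by
    by_contra h
    refine hG (hf.extend hL S (by omega) ?_ ?_)
    · intro z hz; exact mem_nb.mp (mem_filter.mp hz).1
    · intro z hz; exact (mem_filter.mp hz).2
  set W := ((univ \ L).erase x) \ Far G (univ \ L) x f with hW
  have c2 : nb G (f x) ⊆ S ∪ W.image f := by
    intro z hz
    by_cases h : ∀ u, u ∉ L → f u ≠ z
    · exact mem_union_left _ (mem_filter.mpr ⟨hz, h⟩)
    · push Not at h
      obtain ⟨u, hu, rfl⟩ := h
      have ha := mem_nb.mp hz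
      refine mem_union_right _ (mem_image_of_mem f ?_)
      rw [hW, mem_sdiff, mem_erase, mem_Far]
      refine ⟨⟨?_, by simpa using hu⟩, fun h => h.2.2 ha⟩
      rintro rfl; exact ha.ne rfl
  have c3 := card_le_card c2
  have c4 := card_union_le S (W.image f)
  have c5 := card_image_le (s := W) (f := f)
  have c6 : Far G (univ \ L) x f ⊆ (univ \ L).erase x := by
    intro u hu
    rw [mem_Far] at hu
    exact mem_erase.mpr ⟨hu.2.1, hu.1⟩
  have c7 := card_sdiff_add_card_eq_card c6
  have c8 := card_erase_add_one hx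
  rw [← hW] at c7
  omega

omit [DecidableEq α] in
lemma Car.exists_max [Fintype α] [Fintype V] {U : Finset α} {x : α} {v : V}
    (h : Car T G U x v) : ∃ f, SC T G U f ∧ f x = v ∧
      ∀ f', SC T G U f' → f' x = v → (Far G U x f').card ≤ (Far G U x f).card := by
  obtain ⟨f, ⟨h1, h2⟩, h3⟩ := Set.exists_max_image {f : α → V | SC T G U f ∧ f x = v}
    (fun f => (Far G U x f).card) (Set.toFinite _) h
  exact ⟨f, h1, h2, fun f' a b => h3 f' ⟨a, b⟩⟩

lemma SC.move_leaf {U : Finset α} {f : α → V} (hf : SC T G U f) {y q : α} (hl : LeafOf T y q)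
    {z : V} (hz : ∀ u ∈ U, f u ≠ z) (ha : G.Adj (f q) z) :
    SC T G U (Function.update f y z) := by
  have hq : q ≠ y := hl.1.ne.symm
  constructor
  · intro a ha' b hb' hab
    by_cases h1 : a = y <;> by_cases h2 : b = y
    · rw [h1, h2]
    · rw [h1, Function.update_self, Function.update_of_ne h2] at hab
      exact absurd hab.symm (hz b hb')
    · rw [h2, Function.update_self, Function.update_of_ne h1] at hab
      exact absurd hab (hz a ha')
    · rw [Function.update_of_ne h1, Function.update_of_ne h2] at hab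
      exact hf.1 ha' hb' hab
  · intro a ha' b hb' hab
    by_cases h1 : a = y <;> by_cases h2 : b = y
    · rw [h1, h2] at hab; exact absurd hab (T.loopless.irrefl _)
    · rw [h1] at hab
      rw [h1, Function.update_self, Function.update_of_ne h2, hl.2 b hab]
      exact ha.symm
    · rw [h2] at hab
      rw [h2, Function.update_self, Function.update_of_ne h1, hl.2 a hab.symm]
      exact ha
    · rw [Function.update_of_ne h1, Function.update_of_ne h2]
      exact hf.2 a ha' b hb' hab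

lemma exists_good (hc : Col R B) {U P : Finset α} {x : α} {y : α → α} {U' : Finset β} {x' : β}
    (hP : ∀ q ∈ P, q ≠ x ∧ q ∈ U ∧ LeafOf T (y q) q ∧ y q ∈ U ∧ y q ≠ x ∧ y q ∉ P)
    {f : α → V} {g : β → V} (hf : SC T R U f) (hfg : g x' = f x)
    (hmax : ∀ f', SC T R U f' → f' x = f x → (Far R U x f').card ≤ (Far R U x f).card)
    (hlt : (Far R U x f).card + (Far B U' x' g).card < P.card) :
    ∃ q ∈ P, R.Adj (f x) (f q) ∧ (∀ u ∈ U', g u ≠ f q) ∧
      ∀ z, B.Adj (f x) z → (∀ u ∈ U, f u ≠ z) → B.Adj (f q) z := by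
  classical
  set P1 := P.filter (fun q => ¬ R.Adj (f x) (f q)) with hP1
  set P2 := P.filter (fun q => ¬ R.Adj (f x) (f (y q))) with hP2
  set P3 := P.filter (fun q => R.Adj (f x) (f q) ∧ ∃ u ∈ U', g u = f q) with hP3
  have c1 : P1.card + P2.card ≤ (Far R U x f).card := by
    have i1 : (P2.image y).card = P2.card := by
      refine card_image_of_injOn ?_
      intro a ha b hb hab
      have ha' := (hP a (mem_filter.mp ha).1).2.2.1
      have hb' := (hP b (mem_filter.mp hb).1).2.2.1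
      exact hb'.2 a (hab ▸ ha'.1)
    have i2 : Disjoint P1 (P2.image y) := by
      rw [disjoint_right]
      intro a ha h1
      obtain ⟨b, hb, rfl⟩ := mem_image.mp ha
      exact (hP b (mem_filter.mp hb).1).2.2.2.2.2 (mem_filter.mp h1).1
    rw [← i1, ← card_union_of_disjoint i2]
    refine card_le_card ?_
    intro a ha
    rw [mem_Far]
    rcases mem_union.mp ha with h | h
    · obtain ⟨h1, h2⟩ := mem_filter.mp h
      exact ⟨(hP a h1).2.1, (hP a h1).1, h2⟩
    · obtain ⟨b, hb, rfl⟩ := mem_image.mp h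
      obtain ⟨h1, h2⟩ := mem_filter.mp hb
      exact ⟨(hP b h1).2.2.2.1, (hP b h1).2.2.2.2.1, h2⟩
  have c2 : P3.card ≤ (Far B U' x' g).card := by
    have i1 : (P3.image f).card = P3.card := by
      refine card_image_of_injOn ?_
      intro a ha b hb hab
      exact hf.1 (hP a (mem_filter.mp ha).1).2.1 (hP b (mem_filter.mp hb).1).2.1 hab
    rw [← i1]
    refine le_trans (card_le_card ?_) (card_image_le (f := g))
    intro z hz
    obtain ⟨a, ha, rfl⟩ := mem_image.mp hz
    obtain ⟨-, h2, u, hu, h3⟩ := mem_filter.mp ha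
    refine mem_image.mpr ⟨u, mem_Far.mpr ⟨hu, ?_, ?_⟩, h3⟩
    · rintro rfl
      rw [← h3, hfg] at h2
      exact h2.ne rfl
    · rw [hfg, h3]; exact hc.not_both h2
  have c3 : ¬ P ⊆ P1 ∪ P2 ∪ P3 := by
    intro h
    have a1 := card_le_card h
    have a2 := card_union_le (P1 ∪ P2) P3
    have a3 := card_union_le P1 P2
    omega
  obtain ⟨q, hq, hn⟩ := not_subset.mp c3
  simp only [hP1, hP2, hP3, mem_union, mem_filter, hq, true_and, not_or, not_not, not_and,
    not_exists] at hn
  obtain ⟨⟨n1, n2⟩, n3⟩ := hn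
  refine ⟨q, hq, n1, fun u hu => n3 n1 u hu, ?_⟩
  intro z hz hzf
  obtain ⟨q1, q2, q3, q4, q5, -⟩ := hP q hq
  by_contra hb
  have hr : R.Adj (f q) z := hc.red (hzf q q2) hb
  have m1 := hf.move_leaf q3 hzf hr
  have m2 : Function.update f (y q) z x = f x := Function.update_of_ne q5.symm _ _
  have m3 := hmax _ m1 m2
  have m4 : y q ∉ Far R U x f := fun h => (mem_Far.mp h).2.2 n2
  have m5 : insert (y q) (Far R U x f) ⊆ Far R U x (Function.update f (y q) z) := by
    intro u hu
    rw [mem_Far, m2]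
    rcases mem_insert.mp hu with rfl | hu'
    · rw [Function.update_self]
      exact ⟨q4, q5, hc.symm.not_both hz⟩
    · have hne : u ≠ y q := fun h => m4 (h ▸ hu')
      rw [Function.update_of_ne hne]
      exact mem_Far.mp hu'
  have m6 := card_le_card m5
  rw [card_insert_of_notMem m4] at m6
  omega

variable [Fintype α] [Fintype V]

/-- The count in one colour: `L` is a nonempty set of leaves at `x`, and `G` has no copy. -/
lemma count_one (hT : T.IsTree) {x : α} {L : Finset α} (hL : ∀ y ∈ L, LeafOf T y x)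
    (hL0 : L.Nonempty) (hne : univ \ L ≠ {x}) (hG : ¬ Cp T G) :
    (Mk G).ncard + 2 * (Arr V).ncard ≤
      (univ \ L).card * (Arr V).ncard + L.card * (CarS T G (univ \ L) x).ncard := by
  obtain ⟨y0, hy0⟩ := hL0
  have hx : x ∈ univ \ L := by simpa using fun h => (hL x h).1.ne rfl
  obtain ⟨h, par, PP⟩ := exists_PS hT x
  have hRT : RT T (univ \ L) x := by
    refine PP.rt _ hx ?_
    intro u _ hux
    simp only [mem_sdiff, mem_univ, true_and]
    intro hp
    exact hux ((hL _ hp).2 u (PP.up u hux).1.symm)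
  have e : univ.erase y0 = L.erase y0 ∪ (univ \ L) := by
    ext u
    simp only [mem_erase, mem_univ, and_true, mem_union, mem_sdiff, true_and]
    constructor
    · intro hu; by_cases h : u ∈ L <;> tauto
    · rintro (h | h)
      · exact h.1
      · rintro rfl; exact h hy0
  have k1 := eps_chain (T := T) (G := G) hx (L.erase y0) (fun z hz => hL z (mem_of_mem_erase hz))
    (fun z hz => by simpa using mem_of_mem_erase hz)
  rw [card_erase_add_one hy0] at k1
  have b1 := (hRT.bound (G := G)).2 hne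
  rw [mk_eq_eps (hL y0 hy0) hG, e]
  omega

omit [DecidableEq α] [Fintype α] in
lemma arr_pos : 0 < (Arr V).ncard := by
  refine (Set.ncard_pos arr_finite).mpr ⟨(univ : Finset V).toList, nodup_toList _, ?_⟩
  intro u; simp

/-- chosen leaves of the other leaf parents lie outside `L`, `P` and differ from `x` -/
lemma parents_ok (hT : T.IsTree) (hn : 3 ≤ Fintype.card α) {x : α} {L P : Finset α}
    (hL : ∀ y ∈ L, LeafOf T y x) (hP : ∀ q ∈ P, q ≠ x ∧ ∃ y, LeafOf T y q)
    (hL0 : L.Nonempty) (hP0 : P.Nonempty) : ∃ y : α → α, ∀ q ∈ P,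
      q ≠ x ∧ q ∈ univ \ L ∧ LeafOf T (y q) q ∧ y q ∈ univ \ L ∧ y q ≠ x ∧ y q ∉ P := by
  obtain ⟨y0, hy0⟩ := hL0
  obtain ⟨q0, hq0⟩ := hP0
  have l0 := hL y0 hy0
  have : Nonempty α := ⟨x⟩
  choose! hPx y hy using hP
  have hns : ∀ c, ∃ u, u ≠ c ∧ ¬ T.Adj c u := by
    intro c
    by_contra h
    push Not at h
    have small : ∀ b, ¬ LeafOf T c b := by
      intro b hb
      have h1 : (univ : Finset α) ⊆ {c, b} := by
        intro u _
        by_cases hu : u = c
        · simp [hu]
        · simp [hb.2 u (h u hu)]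
      have h2 := card_le_card h1
      have h3 := card_le_two (a := c) (b := b)
      rw [card_univ] at h2
      omega
    have e1 : c = x := l0.2 c (h y0 (fun e => small x (e ▸ l0))).symm
    have e2 : c = q0 := (hy q0 hq0).2 c (h _ (fun e => small q0 (e ▸ hy q0 hq0))).symm
    exact hPx q0 hq0 (e2 ▸ e1)
  refine ⟨y, fun q hq => ?_⟩
  have lq := hy q hq
  refine ⟨hPx q hq, ?_, lq, ?_, ?_, ?_⟩
  · simpa using fun h => leaf_not_parent hT hns lq (hL q h)
  · simpa using fun h => hPx q hq (lq.2 x (hL _ h).1).symm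
  · intro h; exact leaf_not_parent hT hns l0 (h ▸ lq)
  · intro h; exact leaf_not_parent hT hns (hy _ h) lq

variable [DecidableEq β] [Fintype β] {T' : SimpleGraph β}

lemma not_both_car (hc : Col R B) {L P : Finset α} {x : α} {y : α → α}
    {L' P' : Finset β} {x' : β} {y' : β → β}
    (hL : ∀ y ∈ L, LeafOf T y x) (hL' : ∀ y ∈ L', LeafOf T' y x')
    (hP : ∀ q ∈ P, q ≠ x ∧ q ∈ univ \ L ∧ LeafOf T (y q) q ∧ y q ∈ univ \ L ∧ y q ≠ x ∧ y q ∉ P)
    (hP' : ∀ q ∈ P', q ≠ x' ∧ q ∈ univ \ L' ∧ LeafOf T' (y' q) q ∧ y' q ∈ univ \ L' ∧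
      y' q ≠ x' ∧ y' q ∉ P')
    (hV : Fintype.card α + Fintype.card β ≤ Fintype.card V + 2 + P.card)
    (hV' : Fintype.card α + Fintype.card β ≤ Fintype.card V + 2 + P'.card)
    (hR : ¬ Cp T R) (hB : ¬ Cp T' B)
    {v : V} (h1 : Car T R (univ \ L) x v) (h2 : Car T' B (univ \ L') x' v) : False := by
  obtain ⟨f, f1, f2, f3⟩ := h1.exists_max
  obtain ⟨g, g1, g2, g3⟩ := h2.exists_max
  have d1 := f1.deg hL hR
  have d2 := g1.deg hL' hB
  have d3 := hc.deg v
  have d4 := card_sdiff_add_card_eq_card (subset_univ L)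
  have d4' := card_sdiff_add_card_eq_card (subset_univ L')
  have d5 : 0 < Fintype.card V := Fintype.card_pos_iff.mpr ⟨v⟩
  rw [card_univ] at d4 d4'
  rw [f2] at d1
  rw [g2] at d2
  obtain ⟨q, hq, a1, a2, a3⟩ := exists_good hc hP f1 (g := g) (U' := univ \ L') (x' := x')
    (by rw [f2, g2]) (fun f' a b => f3 f' a (by rw [b, f2])) (by omega)
  obtain ⟨q', hq', b1, b2, b3⟩ := exists_good hc.symm hP' g1 (g := f) (U' := univ \ L) (x' := x)
    (by rw [f2, g2]) (fun f' a b => g3 f' a (by rw [b, g2])) (by omega)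
  rw [f2] at a1 a3
  rw [g2] at b1 b3
  exact hc.not_both (b3 _ a1 a2).symm (a3 _ b1 b2)

/-- Both counts together: if no vertex carries both reduced trees, a copy exists. -/
theorem count_two (hT : T.IsTree) (hT' : T'.IsTree) {x : α} {x' : β} {L : Finset α}
    {L' : Finset β} (hL : ∀ y ∈ L, LeafOf T y x) (hL' : ∀ y ∈ L', LeafOf T' y x') {d : ℕ}
    (hd : 1 ≤ d) (c1 : L.card = d) (c2 : L'.card = d) (hne : univ \ L ≠ {x})
    (hne' : univ \ L' ≠ {x'})
    (hV : Fintype.card α + Fintype.card β ≤ Fintype.card V + 2 + d) (hc : Col R B)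
    (hR : ¬ Cp T R) (hB : ¬ Cp T' B)
    (hloc : ∀ v, Car T R (univ \ L) x v → Car T' B (univ \ L') x' v → False) : False := by
  have t := mk_total (R := R) (B := B) (fun u w huw => by have := hc u w huw; tauto)
  have k1 := count_one hT hL (card_pos.mp (by omega)) hne hR
  have k2 := count_one hT' hL' (card_pos.mp (by omega)) hne' hB
  have p3 : (CarS T R (univ \ L) x).ncard + (CarS T' B (univ \ L') x').ncard ≤
      (Arr V).ncard := by
    rw [← Set.ncard_union_eq ?_ (arr_finite.subset (fun _ h => h.1))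
      (arr_finite.subset (fun _ h => h.1))]
    · exact Set.ncard_le_ncard (by rintro l (h | h) <;> exact h.1) arr_finite
    · rw [Set.disjoint_left]
      rintro l ⟨-, v, a1, a2⟩ ⟨-, w, c1, c2⟩
      rw [a1] at c1
      exact hloc v a2 (Option.some.inj c1 ▸ c2)
  have pos := arr_pos (V := V)
  have d4 := card_sdiff_add_card_eq_card (subset_univ L)
  have d4' := card_sdiff_add_card_eq_card (subset_univ L')
  rw [card_univ] at d4 d4'
  rw [c1] at k1 d4
  rw [c2] at k2 d4'
  have p4 := Nat.mul_le_mul_left d p3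
  rw [mul_add] at p4
  have p5 : ((univ \ L).card + (univ \ L').card + d) * (Arr V).ncard ≤
      ((Fintype.card V - 1) + 3) * (Arr V).ncard := Nat.mul_le_mul_right _ (by omega)
  rw [add_mul, add_mul, add_mul] at p5
  omega

theorem hub (hT : T.IsTree) (hT' : T'.IsTree) (hn : 3 ≤ Fintype.card α)
    (hn' : 3 ≤ Fintype.card β) {x : α} {x' : β} {L P : Finset α} {L' P' : Finset β}
    (hL : ∀ y ∈ L, LeafOf T y x) (hP : ∀ q ∈ P, q ≠ x ∧ ∃ y, LeafOf T y q)
    (hL' : ∀ y ∈ L', LeafOf T' y x') (hP' : ∀ q ∈ P', q ≠ x' ∧ ∃ y, LeafOf T' y q) {d : ℕ}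
    (hd : 1 ≤ d) (c1 : d ≤ L.card) (c2 : d ≤ L'.card) (c3 : d ≤ P.card) (c4 : d ≤ P'.card)
    (hV : Fintype.card α + Fintype.card β ≤ Fintype.card V + 2 + d) (hc : Col R B) :
    Cp T R ∨ Cp T' B := by
  by_contra hcon
  obtain ⟨hR, hB⟩ := not_or.mp hcon
  obtain ⟨M, m1, m2⟩ := exists_subset_card_eq c1
  obtain ⟨M', m1', m2'⟩ := exists_subset_card_eq c2
  have hM : ∀ y ∈ M, LeafOf T y x := fun y hy => hL y (m1 hy)
  have hM' : ∀ y ∈ M', LeafOf T' y x' := fun y hy => hL' y (m1' hy)
  obtain ⟨q0, hq0⟩ : P.Nonempty := card_pos.mp (by omega)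
  obtain ⟨q1, hq1⟩ : P'.Nonempty := card_pos.mp (by omega)
  obtain ⟨y, hy⟩ := parents_ok hT hn hM hP (card_pos.mp (by omega)) ⟨q0, hq0⟩
  obtain ⟨y', hy'⟩ := parents_ok hT' hn' hM' hP' (card_pos.mp (by omega)) ⟨q1, hq1⟩
  refine count_two hT hT' hM hM' hd m2 m2' ?_ ?_ hV hc hR hB ?_
  · intro h
    have := (hy q0 hq0).2.1
    rw [h, mem_singleton] at this
    exact (hy q0 hq0).1 this
  · intro h
    have := (hy' q1 hq1).2.1
    rw [h, mem_singleton] at this
    exact (hy' q1 hq1).1 this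
  · intro v h1 h2
    exact not_both_car hc hM hM' hy hy' (by omega) (by omega) hR hB h1 h2

lemma leafOf_of_nbr {α : Type*} {T : SimpleGraph α} {y x : α} (h : T.neighborSet y = {x}) :
    LeafOf T y x := by
  have : ∀ u, T.Adj y u ↔ u = x := fun u => by
    rw [← SimpleGraph.mem_neighborSet, h, Set.mem_singleton_iff]
  exact ⟨(this x).mpr rfl, fun u hu => (this u).mp hu⟩

lemma hub_contained {m n d : ℕ} (hm : 3 ≤ m) (hn : 3 ≤ n) (hd : 1 ≤ d)
    {S : SimpleGraph (Fin m)} {T : SimpleGraph (Fin n)} (hS : S.IsTree) (hT : T.IsTree)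
    (x : Fin m) (z : Fin n) (h1 : d ≤ {y | S.neighborSet y = {x}}.ncard)
    (h2 : d ≤ {q | q ≠ x ∧ ∃ y, S.neighborSet y = {q}}.ncard)
    (h3 : d ≤ {y | T.neighborSet y = {z}}.ncard)
    (h4 : d ≤ {q | q ≠ z ∧ ∃ y, T.neighborSet y = {q}}.ncard)
    (G : SimpleGraph (Fin (m + n - 2 - d))) : S.IsContained G ∨ T.IsContained Gᶜ := by
  classical
  rw [Set.ncard_eq_toFinset_card'] at h1 h2 h3 h4
  have := hub (V := Fin (m + n - 2 - d)) hS hT (by simpa using hm) (by simpa using hn)
    (x := x) (x' := z) (fun y hy => leafOf_of_nbr (by simpa using hy))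
    (fun q hq => by
      obtain ⟨h1, y, h2⟩ := Set.mem_toFinset.mp hq
      exact ⟨h1, y, leafOf_of_nbr h2⟩)
    (fun y hy => leafOf_of_nbr (by simpa using hy))
    (fun q hq => by
      obtain ⟨h1, y, h2⟩ := Set.mem_toFinset.mp hq
      exact ⟨h1, y, leafOf_of_nbr h2⟩)
    hd h1 h3 h2 h4 (by simp only [Fintype.card_fin]; omega) (col_compl G)
  exact this.imp Cp.contained Cp.contained

end Pool.Agent.Lib.MP_06e9af_co
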