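import Pool.Agent.Lib.MP_06e9af_co.Final
import Pool.Agent.Lib.MP_06e9af_co.Hub

/-!
Trees with a vertex that carries many leaves: greedy embedding across the two neighbourhoods.
-/

namespace Pool.Agent.Lib.MP_06e9af_co

open Finset

variable {α V : Type*}

lemma exists_PS_dist {T : SimpleGraph α} (hT : T.IsTree) (x : α) :
    ∃ par, PS T x (T.dist x) par := by
  classical
  have hex : ∀ u, u ≠ x → ∃ w, T.Adj u w ∧ T.dist x w + 1 = T.dist x u := by
    intro u hu
    obtain ⟨p, hp, hl⟩ := hT.connected.exists_path_of_dist x u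
    have hn : ¬ p.Nil := SimpleGraph.Walk.not_nil_of_ne hu.symm
    refine ⟨p.penultimate, (p.adj_penultimate hn).symm, ?_⟩
    have h1 := SimpleGraph.dist_le p.dropLast
    have h2 : p.dropLast.length + 1 = p.length := SimpleGraph.Walk.length_dropLast_add_one hn
    rcases hT.dist_eq_dist_add_one_of_adj x (p.adj_penultimate hn) with h | h <;> omega
  have huniq : ∀ u w w', T.Adj u w → T.Adj u w' → T.dist x w + 1 = T.dist x u →
      T.dist x w' + 1 = T.dist x u → w = w' := by
    intro u w w' a1 a2 b1 b2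
    obtain ⟨p, hp, hl⟩ := hT.connected.exists_path_of_dist x w
    obtain ⟨p', hp', hl'⟩ := hT.connected.exists_path_of_dist x w'
    have c1 : (p.concat a1.symm).IsPath :=
      SimpleGraph.Walk.isPath_of_length_eq_dist _ (by rw [SimpleGraph.Walk.length_concat]; omega)
    have c2 : (p'.concat a2.symm).IsPath :=
      SimpleGraph.Walk.isPath_of_length_eq_dist _ (by rw [SimpleGraph.Walk.length_concat]; omega)
    have e := (hT.existsUnique_path x u).unique c1 c2
    have := congrArg SimpleGraph.Walk.penultimate e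
    simpa using this
  choose! par hpar using hex
  refine ⟨par, ⟨SimpleGraph.dist_self, hpar, ?_⟩⟩
  intro u w huw
  rcases hT.dist_eq_dist_add_one_of_adj x huw with h | h
  · have hu : u ≠ x := by rintro rfl; simp at h
    exact Or.inl ⟨hu, huniq u _ _ (hpar u hu).1 huw (hpar u hu).2 h.symm⟩
  · have hw : w ≠ x := by rintro rfl; simp at h
    exact Or.inr ⟨hw, huniq w _ _ (hpar w hw).1 huw.symm (hpar w hw).2 h.symm⟩

/-- a dense bipartite relation has a part of large minimum degree -/
lemma dense_part [DecidableEq V] (r : V → V → Prop) [DecidableRel r] (d : ℕ) :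
    ∀ (k : ℕ) (A B : Finset V), A.card + B.card = k →
      d * (A.card + B.card) < ∑ a ∈ A, ∑ b ∈ B, (if r a b then 1 else 0) →
      ∃ A' ⊆ A, ∃ B' ⊆ B, B'.Nonempty ∧ (∀ a ∈ A', d < (B'.filter (fun b => r a b)).card) ∧
        ∀ b ∈ B', d < (A'.filter (fun a => r a b)).card := by
  intro k
  induction k using Nat.strong_induction_on with
  | _ k ih =>
    intro A B hk h
    by_cases h1 : ∃ a ∈ A, (B.filter (fun b => r a b)).card ≤ d
    · obtain ⟨a, ha, hd⟩ := h1
      have c := card_erase_add_one ha
      have s := sum_erase_add A (fun a => ∑ b ∈ B, (if r a b then 1 else 0)) ha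
      rw [card_filter] at hd
      obtain ⟨A', a1, B', b1, t⟩ := ih ((A.erase a).card + B.card) (by omega) (A.erase a) B rfl (by
        have : d * (A.card + B.card) = d * ((A.erase a).card + B.card) + d := by
          rw [← c]; ring
        omega)
      exact ⟨A', a1.trans (erase_subset _ _), B', b1, t⟩
    by_cases h2 : ∃ b ∈ B, (A.filter (fun a => r a b)).card ≤ d
    · obtain ⟨b, hb, hd⟩ := h2
      have c := card_erase_add_one hb
      have s := sum_erase_add B (fun b => ∑ a ∈ A, (if r a b then 1 else 0)) hb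
      rw [card_filter] at hd
      obtain ⟨A', a1, B', b1, t⟩ := ih (A.card + (B.erase b).card) (by omega) A (B.erase b) rfl (by
        have : d * (A.card + B.card) = d * (A.card + (B.erase b).card) + d := by
          rw [← c]; ring
        rw [sum_comm] at h ⊢
        omega)
      exact ⟨A', a1, B', b1.trans (erase_subset _ _), t⟩
    push Not at h1 h2
    refine ⟨A, Subset.refl _, B, Subset.refl _, ?_, h1, h2⟩
    rcases B.eq_empty_or_nonempty with rfl | hne
    · simp at h
    · exact hne

lemma exists_free [DecidableEq V] {S F : Finset V} (h : F.card < S.card) : ∃ w ∈ S, w ∉ F := by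
  by_contra hc
  push Not at hc
  have := card_le_card (show S ⊆ F from hc)
  omega

section emb

variable [DecidableEq α] [DecidableEq V] {T : SimpleGraph α} {G : SimpleGraph V} {x : α}
  {h : α → ℕ} {par : α → α}

/-- a copy of a part of the tree that is closed towards the root -/
structure Pe (G : SimpleGraph V) (x : α) (par : α → α) (W : Finset α) (f : α → V) : Prop where
  root : x ∈ W
  clo : ∀ u ∈ W, u ≠ x → par u ∈ W
  inj : ∀ u ∈ W, ∀ u' ∈ W, f u = f u' → u = u'
  adj : ∀ u ∈ W, u ≠ x → G.Adj (f u) (f (par u))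

omit [DecidableEq V] in
lemma Pe.ext1 {W : Finset α} {f : α → V} (H : Pe G x par W f) {z : α} (hz : z ∉ W)
    (hp : par z ∈ W) {w : V} (hw : G.Adj (f (par z)) w) (hf : ∀ u ∈ W, f u ≠ w) :
    Pe G x par (insert z W) (Function.update f z w) := by
  have ne : ∀ u ∈ W, u ≠ z := fun u hu e => hz (e ▸ hu)
  refine ⟨mem_insert_of_mem H.root, ?_, ?_, ?_⟩
  · intro u hu hx
    rcases mem_insert.mp hu with rfl | hu
    · exact mem_insert_of_mem hp
    · exact mem_insert_of_mem (H.clo u hu hx)
  · intro u hu u' hu' e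
    rcases mem_insert.mp hu with h1 | h1 <;> rcases mem_insert.mp hu' with h2 | h2
    · rw [h1, h2]
    · rw [h1, Function.update_self, Function.update_of_ne (ne _ h2)] at e
      exact absurd e.symm (hf _ h2)
    · rw [h2, Function.update_self, Function.update_of_ne (ne _ h1)] at e
      exact absurd e (hf _ h1)
    · rw [Function.update_of_ne (ne _ h1), Function.update_of_ne (ne _ h2)] at e
      exact H.inj _ h1 _ h2 e
  · intro u hu hx
    rcases mem_insert.mp hu with rfl | hu
    · rw [Function.update_self, Function.update_of_ne (ne _ hp)]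
      exact hw.symm
    · rw [Function.update_of_ne (ne _ hu), Function.update_of_ne (ne _ (H.clo u hu hx))]
      exact H.adj u hu hx

omit [DecidableEq α] in
lemma par_not_leaf (P : PS T x h par) {L : Finset α} (hL : ∀ y ∈ L, LeafOf T y x) {u : α}
    (hu : u ≠ x) : par u ∉ L := fun hp => hu ((hL _ hp).2 u (P.up u hu).1.symm)

omit [DecidableEq α] in
lemma leaf_height (P : PS T x h par) {y : α} (hy : LeafOf T y x) : h y = 1 := by
  have h1 := P.depth_adj hy.1
  have h2 := P.root
  omega

variable [Fintype α] [Fintype V]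

/-- the leaves at the root are added last -/
lemma add_leaves {L : Finset α} (hL : ∀ y ∈ L, LeafOf T y x) {f : α → V}
    (hi : ∀ u, u ∉ L → ∀ u', u' ∉ L → f u = f u' → u = u')
    (ha : ∀ u, u ∉ L → ∀ u', u' ∉ L → T.Adj u u' → G.Adj (f u) (f u'))
    (hc : L.card ≤ (nb G (f x) \ (univ \ L).image f).card) : Cp T G := by
  obtain ⟨g, g1, g2⟩ := exists_inj L _ (f x) hc
  have hx : x ∉ L := fun hx => (hL x hx).1.ne rfl
  have g3 : ∀ y ∈ L, ∀ u, u ∉ L → f u ≠ g y := by
    intro y hy u hu e
    exact (mem_sdiff.mp (g2 y hy)).2 (mem_image.mpr ⟨u, by simpa using hu, e⟩)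
  have g4 : ∀ y ∈ L, G.Adj (f x) (g y) := fun y hy => mem_nb.mp (mem_sdiff.mp (g2 y hy)).1
  refine ⟨fun u => if u ∈ L then g u else f u, ?_, ?_⟩
  · intro u u' e
    simp only at e
    by_cases h1 : u ∈ L <;> by_cases h2 : u' ∈ L
    · rw [if_pos h1, if_pos h2] at e; exact g1 _ h1 _ h2 e
    · rw [if_pos h1, if_neg h2] at e; exact absurd e.symm (g3 _ h1 _ h2)
    · rw [if_neg h1, if_pos h2] at e; exact absurd e (g3 _ h2 _ h1)
    · rw [if_neg h1, if_neg h2] at e; exact hi _ h1 _ h2 e
  · intro u u' e
    simp only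
    by_cases h1 : u ∈ L <;> by_cases h2 : u' ∈ L
    · exact absurd ((hL _ h1).2 _ e ▸ h2) hx
    · rw [if_pos h1, if_neg h2, (hL _ h1).2 _ e]; exact (g4 _ h1).symm
    · rw [if_neg h1, if_pos h2, (hL _ h2).2 _ e.symm]; exact g4 _ h2
    · rw [if_neg h1, if_neg h2]; exact ha _ h1 _ h2 e

/-- first phase: odd levels into `A`, even levels into `B` -/
lemma phase1 (P : PS T x h par) {L : Finset α} (hL : ∀ y ∈ L, LeafOf T y x) {v : V}
    {A B : Finset V} {e : ℕ} (hA : ∀ a ∈ A, G.Adj v a) (hB : ∀ b ∈ B, ¬ G.Adj v b ∧ b ≠ v)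
    (cA : e ≤ A.card) (dA : ∀ a ∈ A, e ≤ (B.filter (fun b => b ∈ nb G a)).card)
    (dB : ∀ b ∈ B, e ≤ (A.filter (fun a => b ∈ nb G a)).card)
    (hs : e ≤ (univ.filter (fun u => u ≠ x ∧ Even (h u))).card) :
    ∀ j ≤ e, ∃ W f, Pe G x par W f ∧ f x = v ∧ (∀ u ∈ W, u ∉ L) ∧
      (∀ u ∈ W, ¬ Even (h u) → f u ∈ A) ∧ (∀ u ∈ W, u ≠ x → Even (h u) → f u ∈ B) ∧
      (W.filter (fun u => u ≠ x ∧ Even (h u))).card = j ∧
      (W.filter (fun u => ¬ Even (h u))).card ≤ j := by
  classical
  have hx0 : Even (h x) := by rw [P.root]; simp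
  intro j
  induction j with
  | zero =>
    intro _
    refine ⟨{x}, fun _ => v, ⟨by simp, by simp, by simp, by simp⟩, rfl, ?_, ?_, by simp, by simp,
      by simp [hx0]⟩
    · intro u hu hl
      rw [mem_singleton] at hu
      exact (hL _ hl).1.ne hu
    · intro u hu hn
      rw [mem_singleton] at hu
      exact absurd (hu ▸ hx0) hn
  | succ j ih =>
    intro hj
    obtain ⟨W, f, H, fx, w1, w2, w3, w4, w5⟩ := ih (by omega)
    obtain ⟨z0, hz0, hz0'⟩ := exists_free (S := univ.filter (fun u => u ≠ x ∧ Even (h u)))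
      (F := W.filter (fun u => u ≠ x ∧ Even (h u))) (by omega)
    obtain ⟨z, hz, hmin⟩ := (univ.filter (fun u => u ≠ x ∧ Even (h u) ∧ u ∉ W)).exists_min_image h
      ⟨z0, by
        simp only [mem_filter, mem_univ, true_and, not_and] at hz0 hz0' ⊢
        exact ⟨hz0.1, hz0.2, fun hw => hz0' hw hz0.1 hz0.2⟩⟩
    simp only [mem_filter, mem_univ, true_and] at hz hmin
    obtain ⟨zx, ze, zW⟩ := hz
    have hp := (P.up z zx).2
    have po : ¬ Even (h (par z)) := by
      rw [← hp, Nat.even_add_one] at ze; exact ze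
    have px : par z ≠ x := fun e => po (e ▸ hx0)
    have hpp := (P.up _ px).2
    have ppe : Even (h (par (par z))) := by
      rw [← hpp, Nat.even_add_one, not_not] at po; exact po
    have ppW : par (par z) ∈ W := by
      by_contra hc
      have := hmin (par (par z)) ⟨fun e => hc (e ▸ H.root), ppe, hc⟩
      omega
    have step : ∃ W1 f1, Pe G x par W1 f1 ∧ f1 x = v ∧ (∀ u ∈ W1, u ∉ L) ∧
        (∀ u ∈ W1, ¬ Even (h u) → f1 u ∈ A) ∧ (∀ u ∈ W1, u ≠ x → Even (h u) → f1 u ∈ B) ∧
        (W1.filter (fun u => u ≠ x ∧ Even (h u))).card = j ∧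
        (W1.filter (fun u => ¬ Even (h u))).card ≤ j + 1 ∧ par z ∈ W1 ∧ z ∉ W1 := by
      by_cases hpW : par z ∈ W
      · exact ⟨W, f, H, fx, w1, w2, w3, w4, by omega, hpW, zW⟩
      have big : e ≤ (A.filter (fun a => G.Adj (f (par (par z))) a)).card := by
        by_cases hc : par (par z) = x
        · rw [hc, fx, filter_true_of_mem hA]; exact cA
        · refine (dB _ (w3 _ ppW hc ppe)).trans (card_le_card ?_)
          intro a ha
          simp only [mem_filter, mem_nb] at ha ⊢
          exact ⟨ha.1, ha.2.symm⟩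
      obtain ⟨w, a1, a2⟩ := exists_free (S := A.filter (fun a => G.Adj (f (par (par z))) a))
        (F := (W.filter (fun u => ¬ Even (h u))).image f) (by
          have := card_image_le (s := W.filter (fun u => ¬ Even (h u))) (f := f)
          omega)
      rw [mem_filter] at a1
      have fr : ∀ u ∈ W, f u ≠ w := by
        intro u hu e
        by_cases hue : Even (h u)
        · by_cases hux : u = x
          · rw [hux, fx] at e; exact (hA _ a1.1).ne e
          · exact (hB _ (w3 u hu hux hue)).1 (e ▸ hA _ a1.1)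
        · exact a2 (mem_image.mpr ⟨u, mem_filter.mpr ⟨hu, hue⟩, e⟩)
      have ne : ∀ u ∈ W, u ≠ par z := fun u hu e => hpW (e ▸ hu)
      refine ⟨insert (par z) W, Function.update f (par z) w, H.ext1 hpW ppW a1.2 fr,
        by rw [Function.update_of_ne px.symm, fx], ?_, ?_, ?_, ?_, ?_, mem_insert_self _ _, ?_⟩
      · intro u hu
        rcases mem_insert.mp hu with rfl | hu
        · exact par_not_leaf P hL zx
        · exact w1 u hu
      · intro u hu ho
        rcases mem_insert.mp hu with rfl | hu
        · rw [Function.update_self]; exact a1.1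
        · rw [Function.update_of_ne (ne u hu)]; exact w2 u hu ho
      · intro u hu hux he
        rcases mem_insert.mp hu with rfl | hu
        · exact absurd he po
        · rw [Function.update_of_ne (ne u hu)]; exact w3 u hu hux he
      · rw [filter_insert, if_neg (fun hh => po hh.2)]; exact w4
      · rw [filter_insert, if_pos po]
        exact (card_insert_le _ _).trans (by omega)
      · intro hh
        rcases mem_insert.mp hh with hh | hh
        · exact po (hh ▸ ze)
        · exact zW hh
    obtain ⟨W1, f1, H1, fx1, v1, v2, v3, v4, v5, v6, v7⟩ := step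
    have big := dA _ (v2 _ v6 po)
    obtain ⟨w, a1, a2⟩ := exists_free (S := B.filter (fun b => b ∈ nb G (f1 (par z))))
      (F := (W1.filter (fun u => u ≠ x ∧ Even (h u))).image f1) (by
        have := card_image_le (s := W1.filter (fun u => u ≠ x ∧ Even (h u))) (f := f1)
        omega)
    rw [mem_filter, mem_nb] at a1
    have fr : ∀ u ∈ W1, f1 u ≠ w := by
      intro u hu e
      by_cases hue : Even (h u)
      · by_cases hux : u = x
        · rw [hux, fx1] at e; exact (hB _ a1.1).2 e.symm
        · exact a2 (mem_image.mpr ⟨u, mem_filter.mpr ⟨hu, hux, hue⟩, e⟩)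
      · exact (hB _ a1.1).1 (e ▸ hA _ (v2 u hu hue))
    have ne : ∀ u ∈ W1, u ≠ z := fun u hu e => v7 (e ▸ hu)
    refine ⟨insert z W1, Function.update f1 z w, H1.ext1 v7 v6 a1.2 fr,
      by rw [Function.update_of_ne zx.symm, fx1], ?_, ?_, ?_, ?_, ?_⟩
    · intro u hu
      rcases mem_insert.mp hu with rfl | hu
      · intro hl
        rw [leaf_height P (hL _ hl)] at ze
        exact absurd ze (by decide)
      · exact v1 u hu
    · intro u hu ho
      rcases mem_insert.mp hu with rfl | hu
      · exact absurd ze ho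
      · rw [Function.update_of_ne (ne u hu)]; exact v2 u hu ho
    · intro u hu hux he
      rcases mem_insert.mp hu with rfl | hu
      · rw [Function.update_self]; exact a1.1
      · rw [Function.update_of_ne (ne u hu)]; exact v3 u hu hux he
    · rw [filter_insert, if_pos ⟨zx, ze⟩, card_insert_of_notMem (fun hh => v7 (mem_filter.mp hh).1),
        v4]
    · rw [filter_insert, if_neg (not_not.mpr ze)]; exact v5

/-- second phase: greedy extension inside a set of points of large degree -/
lemma phase2 (P : PS T x h par) {L : Finset α} (hL : ∀ y ∈ L, LeafOf T y x) {D : Finset V}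
    (hD : ∀ w ∈ D, (univ \ L).card ≤ (nb G w ∩ D).card + 1) :
    ∀ (k : ℕ) (W : Finset α) (f : α → V), Pe G x par W f → (∀ u ∈ W, u ∉ L) →
      (∀ u ∈ W, f u ∈ D) → ((univ \ L) \ W).card = k →
      ∃ f', Pe G x par (univ \ L) f' ∧ ∀ u ∈ W, f' u = f u := by
  intro k
  induction k with
  | zero =>
    intro W f H w1 _ hk
    have : W = univ \ L := by
      refine Subset.antisymm (fun u hu => by simpa using w1 u hu) ?_
      exact sdiff_eq_empty_iff_subset.mp (card_eq_zero.mp hk)
    exact ⟨f, this ▸ H, fun _ _ => rfl⟩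
  | succ k ih =>
    intro W f H w1 w2 hk
    obtain ⟨z, hz, hmin⟩ := ((univ \ L) \ W).exists_min_image h (card_pos.mp (by omega))
    have zW : z ∉ W := (mem_sdiff.mp hz).2
    have zL : z ∉ L := by simpa using (mem_sdiff.mp hz).1
    have zx : z ≠ x := fun e => zW (e ▸ H.root)
    have pW : par z ∈ W := by
      by_contra hc
      have := hmin (par z) (mem_sdiff.mpr ⟨by simpa using par_not_leaf P hL zx, hc⟩)
      have := (P.up z zx).2
      omega
    have sub : W ⊆ univ \ L := fun u hu => by simpa using w1 u hu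
    have c1 := card_sdiff_add_card_eq_card sub
    have c2 := card_erase_add_one pW
    have c3 := hD _ (w2 _ pW)
    obtain ⟨w, a1, a2⟩ := exists_free (S := nb G (f (par z)) ∩ D) (F := (W.erase (par z)).image f)
      (by
        have := card_image_le (s := W.erase (par z)) (f := f)
        omega)
    rw [mem_inter, mem_nb] at a1
    have fr : ∀ u ∈ W, f u ≠ w := by
      intro u hu e
      by_cases hup : u = par z
      · rw [hup] at e; exact a1.1.ne e
      · exact a2 (mem_image.mpr ⟨u, mem_erase.mpr ⟨hup, hu⟩, e⟩)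
    have ne : ∀ u ∈ W, u ≠ z := fun u hu e => zW (e ▸ hu)
    obtain ⟨f', b1, b2⟩ := ih (insert z W) (Function.update f z w) (H.ext1 zW pW a1.1 fr)
      (by
        intro u hu
        rcases mem_insert.mp hu with rfl | hu
        · exact zL
        · exact w1 u hu)
      (by
        intro u hu
        rcases mem_insert.mp hu with rfl | hu
        · rw [Function.update_self]; exact a1.2
        · rw [Function.update_of_ne (ne u hu)]; exact w2 u hu)
      (by
        rw [sdiff_insert, card_erase_of_mem hz]; omega)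
    refine ⟨f', b1, fun u hu => ?_⟩
    rw [b2 u (mem_insert_of_mem hu), Function.update_of_ne (ne u hu)]

/-- the whole embedding in one colour -/
lemma far_embed (P : PS T x h par) {L : Finset α} (hL : ∀ y ∈ L, LeafOf T y x) {v : V}
    {A B D : Finset V} {e : ℕ} (hA : ∀ a ∈ A, G.Adj v a) (hB : ∀ b ∈ B, ¬ G.Adj v b ∧ b ≠ v)
    (cA : e ≤ A.card) (dA : ∀ a ∈ A, e ≤ (B.filter (fun b => b ∈ nb G a)).card)
    (dB : ∀ b ∈ B, e ≤ (A.filter (fun a => b ∈ nb G a)).card)
    (hs : e ≤ (univ.filter (fun u => u ≠ x ∧ Even (h u))).card)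
    (vD : v ∈ D) (AD : A ⊆ D) (BD : B ⊆ D)
    (hD : ∀ w ∈ D, (univ \ L).card ≤ (nb G w ∩ D).card + 1)
    (hv : Fintype.card α ≤ (nb G v).card + e + 1) : Cp T G := by
  obtain ⟨W, f, H, fx, w1, w2, w3, w4, -⟩ := phase1 P hL hA hB cA dA dB hs e le_rfl
  obtain ⟨g, H', hg⟩ := phase2 P hL hD _ W f H w1 (by
    intro u hu
    by_cases hux : u = x
    · rw [hux, fx]; exact vD
    · by_cases he : Even (h u)
      · exact BD (w3 u hu hux he)
      · exact AD (w2 u hu he)) rfl
  have gx : g x = v := by rw [hg x H.root, fx]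
  refine add_leaves hL (f := g) (fun u hu u' hu' => H'.inj u (by simpa using hu) u'
    (by simpa using hu')) ?_ ?_
  · intro u hu u' hu' a
    rcases P.edge u u' a with ⟨a1, a2⟩ | ⟨a1, a2⟩
    · exact a2 ▸ H'.adj u (by simpa using hu) a1
    · exact (a2 ▸ H'.adj u' (by simpa using hu') a1 : G.Adj (g u') (g u)).symm
  · set E := insert x (W.filter (fun u => u ≠ x ∧ Even (h u))) with hE
    have cE : E.card = e + 1 := by
      rw [hE, card_insert_of_notMem (by simp), w4]
    have sE : E ⊆ univ \ L := by
      intro u hu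
      rcases mem_insert.mp hu with rfl | hu
      · exact H'.root
      · simpa using w1 u (mem_filter.mp hu).1
    have sub : nb G v \ ((univ \ L) \ E).image g ⊆ nb G (g x) \ (univ \ L).image g := by
      intro w hw
      rw [mem_sdiff] at hw ⊢
      refine ⟨gx ▸ hw.1, fun hc => hw.2 ?_⟩
      obtain ⟨u, hu, rfl⟩ := mem_image.mp hc
      refine mem_image.mpr ⟨u, mem_sdiff.mpr ⟨hu, fun hu' => ?_⟩, rfl⟩
      have adj := mem_nb.mp hw.1
      rcases mem_insert.mp hu' with rfl | hu'
      · exact adj.ne gx.symm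
      · obtain ⟨b1, b2, b3⟩ := mem_filter.mp hu'
        rw [hg u b1] at adj
        exact (hB _ (w3 u b1 b2 b3)).1 adj
    have c1 := card_le_card sub
    have c2 := le_card_sdiff (((univ \ L) \ E).image g) (nb G v)
    have c3 := card_image_le (s := (univ \ L) \ E) (f := g)
    have c4 := card_sdiff_add_card_eq_card sE
    have c5 := card_sdiff_add_card_eq_card (subset_univ L)
    rw [card_univ] at c5
    omega

end emb

section count

variable [Fintype V]

lemma head_bound (S : Finset V) (X : Set (List V))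
    (hX : ∀ l ∈ X, l ∈ Arr V ∧ ∃ v ∈ S, l.head? = some v) :
    Fintype.card V * X.ncard ≤ S.card * (Arr V).ncard := by
  classical
  set F := (arr_finite (V := V)).toFinset with hF
  have mF : ∀ l, l ∈ F ↔ l ∈ Arr V := fun l => by simp [hF]
  have cF : F.card = (Arr V).ncard := (Set.ncard_eq_toFinset_card _ _).symm
  have h1 : ∀ v w : V, (F.filter (fun l => l.head? = some v)).card ≤
      (F.filter (fun l => l.head? = some w)).card := by
    intro v w
    refine card_le_card_of_injOn (fun l => l.map (Equiv.swap v w)) ?_ ?_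
    · intro l hl
      simp only [coe_filter, Set.mem_ofPred_eq, mF] at hl ⊢
      refine ⟨⟨hl.1.1.map (Equiv.swap v w).injective, fun u => ?_⟩, ?_⟩
      · exact List.mem_map.mpr ⟨Equiv.swap v w u, hl.1.2 _, by simp⟩
      · rw [List.head?_map, hl.2]; simp
    · exact (List.map_injective_iff.mpr (Equiv.swap v w).injective).injOn
  have h2 : ∑ w : V, (F.filter (fun l => l.head? = some w)).card ≤ F.card := by
    rw [card_eq_sum_card_fiberwise (f := fun l : List V => l.head?) (s := F) (t := univ)
      (fun _ _ => mem_coe.mpr (mem_univ _)), Fintype.sum_option]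
    omega
  have h3 : ∀ v : V, Fintype.card V * (F.filter (fun l => l.head? = some v)).card ≤ F.card := by
    intro v
    refine le_trans ?_ h2
    have := card_nsmul_le_sum (univ : Finset V)
      (fun w => (F.filter (fun l => l.head? = some w)).card) _ (fun w _ => h1 v w)
    simpa using this
  have h4 : X.ncard ≤ ∑ v ∈ S, (F.filter (fun l => l.head? = some v)).card := by
    refine le_trans ?_ card_biUnion_le
    rw [← Set.ncard_coe_finset]
    refine Set.ncard_le_ncard ?_ (Finset.finite_toSet _)
    intro l hl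
    obtain ⟨a, v, b, c⟩ := hX l hl
    exact mem_coe.mpr (mem_biUnion.mpr ⟨v, b, mem_filter.mpr ⟨(mF l).mpr a, c⟩⟩)
  refine (Nat.mul_le_mul_left _ h4).trans ?_
  rw [mul_sum, ← cF]
  have := sum_le_card_nsmul S
    (fun v => Fintype.card V * (F.filter (fun l => l.head? = some v)).card) _ (fun v _ => h3 v)
  simpa using this

variable [DecidableEq α] [Fintype α] {T : SimpleGraph α} {R B : SimpleGraph V}

theorem far_main (hT : T.IsTree) {x : α} {L : Finset α} (hL : ∀ y ∈ L, LeafOf T y x) {e : ℕ}
    (he : 1 ≤ e) (hs : e ≤ (univ.filter (fun u => u ≠ x ∧ Even (T.dist x u))).card)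
    (h8 : 8 * e * Fintype.card α ≤ L.card ^ 2)
    (hV : Fintype.card V + 2 + e = 2 * Fintype.card α) (hc : Col R B) : Cp T R ∨ Cp T B := by
  classical
  by_contra hno
  rw [not_or] at hno
  obtain ⟨hR, hB⟩ := hno
  obtain ⟨par, P⟩ := exists_PS_dist hT x
  set n := Fintype.card α with hn
  set N := Fintype.card V with hN
  set l := L.card with hl
  have xL : x ∉ L := fun hx => (hL x hx).1.ne rfl
  have cU := card_sdiff_add_card_eq_card (subset_univ L)
  rw [card_univ, ← hn, ← hl] at cU
  set u := (univ \ L).card with hu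
  have u1 : 1 ≤ u := card_pos.mpr ⟨x, by simpa using xL⟩
  have l8 : 8 * e < l := by
    by_contra hcon
    have : l ^ 2 ≤ 8 * e * l := by nlinarith
    nlinarith
  have hL0 : L.Nonempty := card_pos.mp (by omega)
  have hne : univ \ L ≠ {x} := by
    intro hh
    obtain ⟨z, hz⟩ := card_pos.mp (show 0 < (univ.filter
      (fun u => u ≠ x ∧ Even (T.dist x u))).card by omega)
    simp only [mem_filter, mem_univ, true_and] at hz
    have : z ∈ univ \ L := by
      simp only [mem_sdiff, mem_univ, true_and]
      intro hzl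
      have := hz.2
      rw [leaf_height P (hL _ hzl)] at this
      exact absurd this (by decide)
    rw [hh, mem_singleton] at this
    exact hz.1 this
  have one : ∀ G : SimpleGraph V, ¬ Cp T G → N * (CarS T G (univ \ L) x).ncard ≤
      (univ.filter (fun v => (nb G v).card + 2 ≤ n)).card * (Arr V).ncard := by
    intro G hG
    refine head_bound _ _ ?_
    rintro p ⟨a, v, b, f, c, d⟩
    refine ⟨a, v, mem_filter.mpr ⟨mem_univ _, ?_⟩, b⟩
    have := c.deg hL hG
    rw [d] at this
    omega
  have c1 := count_one hT hL hL0 hne hR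
  have c2 := count_one hT hL hL0 hne hB
  have c3 := mk_total (R := R) (B := B) (fun a b hab => by have := hc a b hab; tauto)
  have c4 := one R hR
  have c5 := one B hB
  have c6 := arr_pos (V := V)
  set DR := univ.filter (fun v => (nb R v).card + 2 ≤ n) with hDR
  set DB := univ.filter (fun v => (nb B v).card + 2 ≤ n) with hDB
  set D := DR ∩ DB with hD
  have c7 := card_union_add_card_inter DR DB
  have c8 := card_le_univ (DR ∪ DB)
  have c9 := card_sdiff_add_card_eq_card (subset_univ D)
  rw [card_univ] at c9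
  rw [← hD] at c7
  rw [← hN] at c3 c8 c9
  rw [← hu, ← hl] at c1 c2
  set z := (univ \ D).card with hz
  set a := (Arr V).ncard
  set cR := (CarS T R (univ \ L) x).ncard
  set cB := (CarS T B (univ \ L) x).ncard
  obtain ⟨M, hM⟩ : ∃ M, N = M + 1 := ⟨N - 1, by omega⟩
  have c10 : (2 * l + 1) * a ≤ e * a + l * (cR + cB) := by
    have e1 : N - 1 = M := by omega
    rw [e1] at c3
    have e2 : (M + 4 + e) * a = (2 * u + 2 * l + 1) * a := by congr 1; omega
    nlinarith
  have c11 : N * (2 * l + 1) ≤ N * e + l * (DR.card + DB.card) := by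
    refine Nat.le_of_mul_le_mul_right ?_ c6
    have t1 := Nat.mul_le_mul_left N c10
    have t2 := Nat.mul_le_mul_left l (Nat.add_le_add c4 c5)
    nlinarith
  have c12 : l * z + N ≤ N * e := by
    have t1 : DR.card + DB.card + z ≤ 2 * N := by omega
    have t2 := Nat.mul_le_mul_left l t1
    nlinarith
  have c13 : 4 * z ≤ l := by
    by_contra hcon
    have t1 : l * (l + 1) ≤ l * (4 * z) := Nat.mul_le_mul_left l (by omega)
    have t2 : N * e ≤ 2 * n * e := Nat.mul_le_mul_right e (by omega)
    nlinarith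
  have degs : ∀ w ∈ D, n ≤ (nb R w ∩ D).card + z + e + 1 ∧ n ≤ (nb B w ∩ D).card + z + e + 1 ∧
      n ≤ (nb R w).card + e + 1 ∧ n ≤ (nb B w).card + e + 1 := by
    intro w hw
    have t1 := (mem_filter.mp (mem_inter.mp hw).1).2
    have t2 := (mem_filter.mp (mem_inter.mp hw).2).2
    have t3 := hc.deg w
    have t4 := card_sdiff_add_card_inter (nb R w) D
    have t5 := card_sdiff_add_card_inter (nb B w) D
    have t6 := card_le_card (sdiff_subset_sdiff (subset_univ (nb R w)) (Subset.refl D))
    have t7 := card_le_card (sdiff_subset_sdiff (subset_univ (nb B w)) (Subset.refl D))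
    omega
  obtain ⟨v, hv⟩ : D.Nonempty := card_pos.mp (by omega)
  obtain ⟨d, rfl⟩ : ∃ d, e = d + 1 := ⟨e - 1, by omega⟩
  have fin : ∀ G G' : SimpleGraph V, Col G G' →
      (∀ w ∈ D, n ≤ (nb G w ∩ D).card + z + (d + 1) + 1) → n ≤ (nb G v).card + (d + 1) + 1 →
      d * ((nb G v ∩ D).card + (nb G' v ∩ D).card) <
        ∑ p ∈ nb G v ∩ D, ∑ q ∈ nb G' v ∩ D, (if q ∈ nb G p then 1 else 0) → Cp T G := by
    intro G G' hG g1 g2 g3
    obtain ⟨A', a1, B', b1, ⟨b0, hb0⟩, dA, dB⟩ :=
      dense_part (fun p q => q ∈ nb G p) d _ _ _ rfl g3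
    refine far_embed P hL (v := v) (A := A') (B := B') (D := D) (e := d + 1)
      (fun p hp => mem_nb.mp (mem_inter.mp (a1 hp)).1) ?_ ?_ dA dB hs hv
      (a1.trans inter_subset_right) (b1.trans inter_subset_right) ?_ g2
    · intro q hq
      have := mem_nb.mp (mem_inter.mp (b1 hq)).1
      exact ⟨hG.symm.not_both this, this.ne.symm⟩
    · exact (dB b0 hb0).trans_le (card_filter_le _ _)
    · intro w hw
      have := g1 w hw
      omega
  obtain ⟨s1, s2, s3, s4⟩ := degs v hv
  set p := (nb R v ∩ D).card with hp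
  set q := (nb B v ∩ D).card with hq
  have tot : p * q ≤ ∑ s ∈ nb R v ∩ D, ∑ t ∈ nb B v ∩ D, (if t ∈ nb R s then 1 else 0) +
      ∑ t ∈ nb B v ∩ D, ∑ s ∈ nb R v ∩ D, (if s ∈ nb B t then 1 else 0) := by
    rw [sum_comm (s := nb B v ∩ D), ← sum_add_distrib]
    have : ∀ s ∈ nb R v ∩ D, q ≤ ∑ t ∈ nb B v ∩ D, (if t ∈ nb R s then 1 else 0) +
        ∑ t ∈ nb B v ∩ D, (if s ∈ nb B t then 1 else 0) := by
      intro s hs'
      rw [← sum_add_distrib, hq, card_eq_sum_ones]
      refine sum_le_sum (fun t ht => ?_)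
      have r1 := mem_nb.mp (mem_inter.mp hs').1
      have r2 := mem_nb.mp (mem_inter.mp ht).1
      have ne : s ≠ t := fun hh => hc.not_both r1 (hh ▸ r2)
      by_cases hr : R.Adj s t
      · rw [if_pos (mem_nb.mpr hr)]; omega
      · rw [if_pos (mem_nb.mpr (hc.blue ne hr).symm)]; omega
    have := card_nsmul_le_sum _ _ _ this
    simpa using this
  have p4 : 4 * (d + 1) ≤ p := by omega
  have q4 : 4 * (d + 1) ≤ q := by omega
  have k1 := mt (fin R B hc (fun w hw => (degs w hw).1) s3) hR
  have k2 := mt (fin B R hc.symm (fun w hw => (degs w hw).2.1) s4) hB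
  rw [not_lt, ← hp, ← hq] at k1 k2
  have m1 := Nat.mul_le_mul_right q p4
  have m2 := Nat.mul_le_mul_left p q4
  nlinarith

end count

/-- hub with many leaves, Ramsey form -/
theorem arrows_far {n e : ℕ} {T : SimpleGraph (Fin n)} (hT : T.IsTree) {x : Fin n}
    {L : Finset (Fin n)} (hL : ∀ y ∈ L, LeafOf T y x) (he : 1 ≤ e)
    (hs : e ≤ (univ.filter (fun u => u ≠ x ∧ Even (T.dist x u))).card)
    (h8 : 8 * e * n ≤ L.card ^ 2) : Arrows T (2 * n - 2 - e) := by
  intro G
  have h1 : (univ.filter (fun u => u ≠ x ∧ Even (T.dist x u))).card < n := by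
    have := card_lt_card (s := univ.filter (fun u => u ≠ x ∧ Even (T.dist x u))) (t := univ)
      (filter_ssubset.mpr ⟨x, mem_univ _, by simp⟩)
    simpa using this
  have := far_main (V := Fin (2 * n - 2 - e)) hT hL he hs (by simpa using h8)
    (by simp; omega) (col_compl G)
  exact this.imp Cp.contained Cp.contained

/-- the same with the hub counted among the points at even distance -/
theorem far {n : ℕ} {T : SimpleGraph (Fin n)} (hT : T.IsTree) (x : Fin n)
    (L : Finset (Fin n)) (hL : ∀ y ∈ L, LeafOf T y x) (e : ℕ) (he1 : 1 ≤ e)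
    (he : e + 1 ≤ (univ.filter fun v => Even (T.dist x v)).card)
    (h8 : 8 * e * n ≤ L.card ^ 2) : Arrows T (2 * n - 2 - e) := by
  refine arrows_far hT hL he1 ?_ h8
  have h : (univ.filter fun v => Even (T.dist x v)) ⊆
      insert x (univ.filter (fun u => u ≠ x ∧ Even (T.dist x u))) := by
    intro v hv
    by_cases hx : v = x
    · simp [hx]
    · simp only [mem_filter, mem_univ, true_and] at hv
      simp [hx, hv]
  have h1 := card_le_card h
  have h2 := card_insert_le x (univ.filter (fun u => u ≠ x ∧ Even (T.dist x u)))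
  omega

end Pool.Agent.Lib.MP_06e9af_co
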