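import Pool.Agent.Lib.MP_06e9af_co.Main
import Pool.Agent.Lib.MP_06e9af_co.Defs

/-!
Translation of the main theorems to Ramsey numbers.
-/

namespace Pool.Agent.Lib.MP_06e9af_co

open Finset

lemma Cp.contained {α V : Type} {T : SimpleGraph α} {G : SimpleGraph V} (h : Cp T G) :
    T.IsContained G := by
  obtain ⟨f, h1, h2⟩ := h
  exact ⟨⟨⟨f, fun {u u'} h => h2 u u' h⟩, h1⟩⟩

lemma col_compl {V : Type} (G : SimpleGraph V) : Col G Gᶜ := by
  intro u w huw
  simp [huw]

lemma exists_ramsey {α : Type} {T : SimpleGraph α} {N : ℕ} (h : Arrows T N) :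
    ∃ r, IsRamseyNumber T r ∧ r ≤ N := by
  classical
  have hex : ∃ N, Arrows T N := ⟨N, h⟩
  exact ⟨Nat.find hex, ⟨Nat.find_spec hex, fun M hM => Nat.find_min' hex hM⟩,
    Nat.find_min' hex h⟩

lemma not_star_iff {α : Type} {T : SimpleGraph α} :
    ¬ IsStar T ↔ ∀ c, ∃ u, u ≠ c ∧ ¬ T.Adj c u := by
  unfold IsStar
  push Not
  rfl

lemma arrows_nonstar {n : ℕ} (hn : 5 ≤ n) {T : SimpleGraph (Fin n)} (hT : T.IsTree)
    (hns : ¬ IsStar T) : Arrows T (2 * n - 4) := by
  intro G
  have := nonstar (V := Fin (2 * n - 4)) hT (not_star_iff.mp hns) (k := n - 1) (by omega)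
    (by simp; omega) (by simp; omega) (col_compl G)
  exact this.imp Cp.contained Cp.contained

lemma arrows_star {j : ℕ} (hj : 1 ≤ j) {T : SimpleGraph (Fin (2 * j + 1))} (hT : T.IsTree)
    (hs : IsStar T) : Arrows T (4 * j - 1) := by
  intro G
  obtain ⟨c, hc⟩ := hs
  have := star_odd (V := Fin (4 * j - 1)) hT hc hj (by simp) (by simp) (col_compl G)
  exact this.imp Cp.contained Cp.contained

lemma four_le {n : ℕ} {T : SimpleGraph (Fin n)} (hT : T.IsTree) (hns : ¬ IsStar T) : 4 ≤ n := by
  have hns' := not_star_iff.mp hns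
  obtain ⟨x, y, q, y', hxq, hy, hy'⟩ := exists_two_leafparents hT hns'
  have l := goodLeaf hT hns' hy hy' hxq.symm
  have h1 : x ≠ y := hy.1.ne.symm
  have h2 : y' ≠ q := hy'.1.ne
  have hc : ({x, y, q, y'} : Finset (Fin n)).card = 4 := by
    rw [card_insert_of_notMem, card_insert_of_notMem, card_pair h2.symm]
    · simp [l.qy.symm, l.yy.symm]
    · simp [h1, hxq, l.yx.symm]
  have := card_le_univ ({x, y, q, y'} : Finset (Fin n))
  rw [hc] at this
  simpa using this

/-- a star on `n` vertices is avoided by a colouring on at most `2n - 4` vertices -/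
lemma star_lower {n N : ℕ} (hn : 2 ≤ n) {T : SimpleGraph (Fin n)} (hs : IsStar T)
    (hN : N ≤ 2 * n - 4) : ¬ Arrows T N := by
  classical
  intro h
  obtain ⟨c, hc⟩ := hs
  let p : Fin N → Prop := fun i => i.val < n - 2
  let G : SimpleGraph (Fin N) :=
    { Adj := fun a b => ¬ (p a ↔ p b)
      symm := ⟨fun a b h h' => h h'.symm⟩
      loopless := ⟨fun a h => h Iff.rfl⟩ }
  have s1 : (univ.filter p).card ≤ n - 2 := by
    have : (univ.filter p).card ≤ (range (n - 2)).card :=
      card_le_card_of_injOn (fun i => i.val) (fun i hi => by simpa [p] using hi)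
        (fun a _ b _ h => Fin.ext h)
    simpa using this
  have s2 : (univ.filter (fun i => ¬ p i)).card ≤ n - 2 := by
    have : (univ.filter (fun i => ¬ p i)).card ≤ (Ico (n - 2) N).card :=
      card_le_card_of_injOn (fun i => i.val) (fun i hi => by
        have h1 : n - 2 ≤ i.val := by simpa [p] using hi
        simp [h1])
        (fun a _ b _ h => Fin.ext h)
    rw [Nat.card_Ico] at this
    omega
  have key : ∀ (f : Fin n → Fin N) (S : Finset (Fin N)), Function.Injective f →
      (∀ u, u ≠ c → f u ∈ S) → S.card ≤ n - 2 → False := by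
    intro f S hf hS hcard
    have : (univ.erase c).card ≤ S.card :=
      card_le_card_of_injOn f (fun u hu => hS u (by simpa using hu)) (fun a _ b _ h => hf h)
    rw [card_erase_of_mem (mem_univ _), card_univ, Fintype.card_fin] at this
    omega
  rcases h G with ⟨⟨f, hf⟩⟩ | ⟨⟨f, hf⟩⟩
  · by_cases hp : p (f c)
    · refine key f _ hf (fun u hu => ?_) s2
      have : ¬ (p (f c) ↔ p (f u)) := f.map_rel (hc u hu)
      simp only [mem_filter, mem_univ, true_and]; tauto
    · refine key f _ hf (fun u hu => ?_) s1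
      have : ¬ (p (f c) ↔ p (f u)) := f.map_rel (hc u hu)
      simp only [mem_filter, mem_univ, true_and]; tauto
  · by_cases hp : p (f c)
    · refine key f _ hf (fun u hu => ?_) s1
      have : ¬ ¬ (p (f c) ↔ p (f u)) := (f.map_rel (hc u hu)).2
      simp only [mem_filter, mem_univ, true_and]; tauto
    · refine key f _ hf (fun u hu => ?_) s2
      have : ¬ ¬ (p (f c) ↔ p (f u)) := (f.map_rel (hc u hu)).2
      simp only [mem_filter, mem_univ, true_and]; tauto

end Pool.Agent.Lib.MP_06e9af_co
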