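import Pool.Agent.Lib.MP_06e9af_co.Hub

/-!
Orderings by their first vertex; the count in terms of the vertices that carry the reduced tree.
-/

namespace Pool.Agent.Lib.MP_06e9af_co

open Finset

variable {α β V : Type*}

/-- orderings whose first vertex is `v` -/
def HeadS (v : V) : Set (List V) := {l | l ∈ Arr V ∧ l.head? = some v}

lemma head_le [Fintype V] (v w : V) : (HeadS v).ncard ≤ (HeadS w).ncard := by
  classical
  refine Set.ncard_le_ncard_of_injOn (List.map (Equiv.swap v w)) ?_ ?_
    (arr_finite.subset (fun _ h => h.1))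
  · rintro l ⟨⟨h1, h2⟩, h3⟩
    refine ⟨⟨h1.map (Equiv.swap v w).injective, fun u => ?_⟩, ?_⟩
    · exact List.mem_map.mpr ⟨Equiv.swap v w u, h2 _, by simp⟩
    · rw [List.head?_map, h3]; simp
  · exact (List.map_injective_iff.mpr (Equiv.swap v w).injective).injOn

lemma head_eq [Fintype V] (v w : V) : (HeadS v).ncard = (HeadS w).ncard :=
  le_antisymm (head_le v w) (head_le w v)

lemma heads_ncard [Fintype V] (v : V) (C : Finset V) :
    {l | l ∈ Arr V ∧ ∃ u ∈ C, l.head? = some u}.ncard = C.card * (HeadS v).ncard := by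
  classical
  induction C using Finset.induction_on with
  | empty => simp
  | insert a C ha ih =>
    have e : {l | l ∈ Arr V ∧ ∃ u ∈ insert a C, l.head? = some u} =
        HeadS a ∪ {l | l ∈ Arr V ∧ ∃ u ∈ C, l.head? = some u} := by
      ext l
      simp only [HeadS, Set.mem_ofPred_eq, Set.mem_union, mem_insert, exists_eq_or_imp]
      tauto
    rw [e, Set.ncard_union_eq ?_ (arr_finite.subset (fun _ h => h.1))
      (arr_finite.subset (fun _ h => h.1)), ih, card_insert_of_notMem ha, head_eq a v]
    · ring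
    · rw [Set.disjoint_left]
      rintro l ⟨-, h1⟩ ⟨-, u, hu, h2⟩
      rw [h1] at h2
      exact ha (Option.some.inj h2 ▸ hu)

lemma arr_eq [Fintype V] (v : V) : (Arr V).ncard = Fintype.card V * (HeadS v).ncard := by
  rw [← card_univ, ← heads_ncard v univ]
  congr 1
  ext l
  refine ⟨fun h => ⟨h, ?_⟩, fun h => h.1⟩
  cases l with
  | nil => exact absurd (h.2 v) (by simp)
  | cons a l => exact ⟨a, mem_univ _, rfl⟩

open Classical in
/-- the vertices that carry `T[U]` with `x` there -/
noncomputable def CarV [Fintype V] (T : SimpleGraph α) (G : SimpleGraph V) (U : Finset α)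
    (x : α) : Finset V := univ.filter (fun v => Car T G U x v)

lemma mem_CarV [Fintype V] {T : SimpleGraph α} {G : SimpleGraph V} {U : Finset α} {x : α}
    {v : V} : v ∈ CarV T G U x ↔ Car T G U x v := by
  simp [CarV]

lemma carS_eq [Fintype V] (T : SimpleGraph α) (G : SimpleGraph V) (U : Finset α) (x : α)
    (v : V) : (CarS T G U x).ncard = (CarV T G U x).card * (HeadS v).ncard := by
  rw [← heads_ncard v]
  congr 1
  ext l
  simp only [CarS, Set.mem_ofPred_eq, mem_CarV]
  constructor
  · rintro ⟨h, u, h1, h2⟩; exact ⟨h, u, h2, h1⟩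
  · rintro ⟨h, u, h1, h2⟩; exact ⟨h, u, h2, h1⟩

variable [DecidableEq α] [Fintype α] [Fintype V] {T : SimpleGraph α} {R B : SimpleGraph V}

/-- The two-colour count with the carrying vertices: `N (N + 3) ≤ 2 |U| N + l (c_R + c_B)`. -/
theorem count_car (hT : T.IsTree) {x : α} {L : Finset α} (hL : ∀ y ∈ L, LeafOf T y x)
    (hL0 : L.Nonempty) (hne : univ \ L ≠ {x}) (hc : Col R B) (hR : ¬ Cp T R) (hB : ¬ Cp T B) :
    Fintype.card V * (Fintype.card V + 3) ≤ 2 * (univ \ L).card * Fintype.card V +
      L.card * ((CarV T R (univ \ L) x).card + (CarV T B (univ \ L) x).card) := by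
  rcases Nat.eq_zero_or_pos (Fintype.card V) with h0 | h0
  · simp [h0]
  obtain ⟨v⟩ := Fintype.card_pos_iff.mp h0
  have t := mk_total (R := R) (B := B) (fun u w huw => by have := hc u w huw; tauto)
  have k1 := count_one hT hL hL0 hne hR
  have k2 := count_one hT hL hL0 hne hB
  have pos := arr_pos (V := V)
  rw [carS_eq T R _ x v] at k1
  rw [carS_eq T B _ x v] at k2
  rw [arr_eq v] at t k1 k2 pos
  have hH : 0 < (HeadS v).ncard := Nat.pos_of_mul_pos_left pos
  refine Nat.le_of_mul_le_mul_right ?_ hH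
  obtain ⟨M, hM⟩ : ∃ M, Fintype.card V = M + 1 := ⟨Fintype.card V - 1, by omega⟩
  rw [hM] at t k1 k2 ⊢
  rw [Nat.add_sub_cancel] at t
  nlinarith

/-- Few vertices fail to carry the reduced tree in both colours: with `Z` the set of these
vertices and `2 n ≤ N + 2 + e`, one has `l |Z| + N ≤ e N`. -/
theorem bad_few [DecidableEq V] (hT : T.IsTree) {x : α} {L : Finset α}
    (hL : ∀ y ∈ L, LeafOf T y x) (hL0 : L.Nonempty) (hne : univ \ L ≠ {x}) (hc : Col R B)
    (hR : ¬ Cp T R) (hB : ¬ Cp T B) {e : ℕ}
    (hV : 2 * Fintype.card α ≤ Fintype.card V + 2 + e) :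
    L.card * (univ \ (CarV T R (univ \ L) x ∩ CarV T B (univ \ L) x)).card + Fintype.card V ≤
      e * Fintype.card V := by
  have h1 := count_car hT hL hL0 hne hc hR hB
  have h2 := card_sdiff_add_card_eq_card (subset_univ L)
  have h3 := card_sdiff_add_card_eq_card
    (subset_univ (CarV T R (univ \ L) x ∩ CarV T B (univ \ L) x))
  have h4 := card_union_add_card_inter (CarV T R (univ \ L) x) (CarV T B (univ \ L) x)
  have h5 := card_le_univ (CarV T R (univ \ L) x ∪ CarV T B (univ \ L) x)
  rw [card_univ] at h2 h3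
  generalize (univ \ (CarV T R (univ \ L) x ∩ CarV T B (univ \ L) x)).card = z at *
  generalize (CarV T R (univ \ L) x ∩ CarV T B (univ \ L) x).card = i at *
  generalize (CarV T R (univ \ L) x ∪ CarV T B (univ \ L) x).card = j at *
  generalize (univ \ L).card = u at *
  generalize L.card = l at *
  generalize Fintype.card V = N at *
  rw [← h4] at h1
  have h6 : l * (j + i + z) ≤ l * (2 * N) := Nat.mul_le_mul_left _ (by omega)
  have h7 : (2 * (u + l)) * N ≤ (N + 2 + e) * N := Nat.mul_le_mul_right _ (by omega)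
  nlinarith

/-- a vertex that carries the reduced tree has degree at most `n - 2` -/
lemma Car.deg_le {G : SimpleGraph V} {x : α} {L : Finset α} (hL : ∀ y ∈ L, LeafOf T y x)
    (hG : ¬ Cp T G) {v : V} (h : Car T G (univ \ L) x v) :
    (nb G v).card + 2 ≤ Fintype.card α := by
  obtain ⟨f, f1, rfl⟩ := h
  have h1 := f1.deg hL hG
  have h2 := card_sdiff_add_card_eq_card (subset_univ L)
  rw [card_univ] at h2
  omega

/-- a vertex that carries the reduced tree in both colours has both degrees `≥ n - 1 - e` -/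
lemma good_deg {x : α} {L : Finset α} (hL : ∀ y ∈ L, LeafOf T y x) (hc : Col R B)
    (hR : ¬ Cp T R) (hB : ¬ Cp T B) {e : ℕ}
    (hV : 2 * Fintype.card α ≤ Fintype.card V + 2 + e) {v : V}
    (h1 : Car T R (univ \ L) x v) (h2 : Car T B (univ \ L) x v) :
    Fintype.card α ≤ (nb R v).card + 1 + e ∧ Fintype.card α ≤ (nb B v).card + 1 + e := by
  have a := h1.deg_le hL hR
  have b := h2.deg_le hL hB
  have c := hc.deg v
  have d : 0 < Fintype.card V := Fintype.card_pos_iff.mpr ⟨v⟩
  omega

end Pool.Agent.Lib.MP_06e9af_co
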