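import Pool.Agent.Lib.MP_06e9af_co.Broom

/-!
No vertex carries the almost complete tree in both colours: basic moves.
-/

namespace Pool.Agent.Lib.MP_06e9af_co

open Finset

variable {α V : Type*}

open Classical in
/-- neighbours -/
noncomputable def nb [Fintype V] (G : SimpleGraph V) (v : V) : Finset V :=
  univ.filter (fun w => G.Adj v w)

@[simp] lemma mem_nb [Fintype V] {G : SimpleGraph V} {v w : V} : w ∈ nb G v ↔ G.Adj v w := by
  simp [nb]

lemma ncard_nb [Fintype V] (G : SimpleGraph V) (v : V) :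
    (G.neighborSet v).ncard = (nb G v).card := by
  rw [← Set.ncard_coe_finset]; congr 1; ext; simp

/-- `R` and `B` are complementary -/
def Col (R B : SimpleGraph V) : Prop := ∀ u w, u ≠ w → (R.Adj u w ↔ ¬ B.Adj u w)

lemma Col.symm {R B : SimpleGraph V} (h : Col R B) : Col B R := by
  intro u w huw; have := h u w huw; tauto

lemma Col.red {R B : SimpleGraph V} (h : Col R B) {u w : V} (huw : u ≠ w) (hb : ¬ B.Adj u w) :
    R.Adj u w := (h u w huw).mpr hb

lemma Col.blue {R B : SimpleGraph V} (h : Col R B) {u w : V} (huw : u ≠ w) (hb : ¬ R.Adj u w) :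
    B.Adj u w := h.symm.red huw hb

lemma Col.not_both {R B : SimpleGraph V} (h : Col R B) {u w : V} (hr : R.Adj u w) :
    ¬ B.Adj u w := (h u w hr.ne).mp hr

lemma Col.deg [Fintype V] {R B : SimpleGraph V} (h : Col R B) (v : V) :
    Fintype.card V - 1 ≤ (nb R v).card + (nb B v).card := by
  classical
  have : univ.erase v ⊆ nb R v ∪ nb B v := by
    intro w hw
    have hne : v ≠ w := (ne_of_mem_erase hw).symm
    simp only [mem_union, mem_nb]
    have := h v w hne
    tauto
  have h1 := card_le_card this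
  have h2 := card_union_le (nb R v) (nb B v)
  simp only [mem_univ, card_erase_of_mem, card_univ] at h1
  omega

/-- a leaf `y'` at `q` away from `y` and `x` -/
structure GoodLeaf (T : SimpleGraph α) (y x y' q : α) : Prop where
  leaf : LeafOf T y' q
  qx : q ≠ x
  qy : q ≠ y
  yx : y' ≠ x
  yy : y' ≠ y

/-- the configuration at a vertex that carries `T - y` in both colours -/
structure Cfg [Fintype V] [DecidableEq V] (T : SimpleGraph α) (R B : SimpleGraph V) (y x : α)
    (f g : α → V) (t : α) (C : Finset V) (k : ℕ) : Prop where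
  col : Col R B
  leaf : LeafOf T y x
  nR : ¬ Cp T R
  nB : ¬ Cp T B
  hf : PC T R y f
  hg : PC T B y g
  gx : g x = f x
  hC : ∀ z, z ∈ C ↔ ∃ u, u ≠ y ∧ f u = z
  cardC : C.card = k
  cardD : Cᶜ.card = k - 2
  red : ∀ c ∈ C, c ≠ f x → R.Adj (f x) c
  blue : ∀ z, z ∉ C → B.Adj (f x) z
  ty : t ≠ y
  tx : t ≠ x
  gt : g t ∈ C
  gout : ∀ u, u ≠ y → u ≠ x → u ≠ t → g u ∉ C

variable [DecidableEq α] [Fintype α] [Fintype V] [DecidableEq V] {T : SimpleGraph α}
  {R B : SimpleGraph V}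

omit [Fintype V] in
lemma PC.card_image {G : SimpleGraph V} {y : α} {f : α → V} (hf : PC T G y f) :
    ((univ.erase y).image f).card = Fintype.card α - 1 := by
  rw [card_image_of_injOn]
  · simp
  · intro a ha b hb hab
    exact hf.1 a b (by simpa using ha) (by simpa using hb) hab

lemma PC.nb_sub {G : SimpleGraph V} {y x : α} (hl : LeafOf T y x) {f : α → V} (hf : PC T G y f)
    (hG : ¬ Cp T G) : nb G (f x) ⊆ ((univ.erase y).image f).erase (f x) := by
  intro z hz
  rw [mem_nb] at hz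
  refine mem_erase.mpr ⟨hz.ne.symm, ?_⟩
  by_contra hcon
  refine hG (hf.extend hl (z := z) ?_ hz)
  intro u hu h
  exact hcon (mem_image.mpr ⟨u, by simpa using hu, h⟩)

lemma exists_cfg (hc : Col R B) {y x : α} (hl : LeafOf T y x) (nR : ¬ Cp T R) (nB : ¬ Cp T B)
    {k : ℕ} (hk : 2 ≤ k) (hα : Fintype.card α = k + 1) (hV : Fintype.card V = 2 * k - 2)
    {f g : α → V} (hf : PC T R y f) (hg : PC T B y g) (hfg : g x = f x)
    (hdeg : k - 1 ≤ (nb R (f x)).card) : ∃ t C, Cfg T R B y x f g t C k := by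
  set C := (univ.erase y).image f with hCdef
  have hxy : x ≠ y := hl.1.ne.symm
  have cC : C.card = k := by rw [hCdef, hf.card_image, hα]; rfl
  have hC : ∀ z, z ∈ C ↔ ∃ u, u ≠ y ∧ f u = z := by simp [hCdef]
  have vC : f x ∈ C := (hC _).mpr ⟨x, hxy, rfl⟩
  have e1 : nb R (f x) = C.erase (f x) := by
    refine eq_of_subset_of_card_le (hf.nb_sub hl nR) ?_
    rw [card_erase_of_mem vC, cC]; exact hdeg
  have red : ∀ c ∈ C, c ≠ f x → R.Adj (f x) c := by
    intro c h1 h2
    rw [← mem_nb, e1]; exact mem_erase.mpr ⟨h2, h1⟩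
  have blue : ∀ z, z ∉ C → B.Adj (f x) z := by
    intro z hz
    refine hc.blue (fun h => hz (h ▸ vC)) (fun h => hz ?_)
    rw [← mem_nb, e1] at h; exact mem_of_mem_erase h
  have cD : Cᶜ.card = k - 2 := by rw [card_compl, hV, cC]; omega
  -- the part of the blue copy inside `C`
  set S := (univ.erase y).filter (fun u => g u ∈ C) with hS
  set S' := (univ.erase y).filter (fun u => ¬ g u ∈ C) with hS'
  have s1 : S.card + S'.card = k := by
    rw [hS, hS', card_filter_add_card_filter_not]; simp [hα]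
  have s2 : S'.card = k - 2 := by
    rw [← cD]
    refine card_bij (fun u _ => g u) ?_ ?_ ?_
    · intro u hu; simp only [hS', mem_filter] at hu; simpa using hu.2
    · intro a ha b hb hab
      simp only [hS', mem_filter, mem_erase] at ha hb
      exact hg.1 a b ha.1.1 hb.1.1 hab
    · intro z hz
      have hz' : z ∉ C := by simpa using hz
      have := hg.nb_sub hl nB (show z ∈ nb B (g x) by rw [mem_nb, hfg]; exact blue z hz')
      obtain ⟨u, h1, h2⟩ := mem_image.mp (mem_of_mem_erase this)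
      exact ⟨u, by simp only [hS', mem_filter]; exact ⟨h1, h2 ▸ hz'⟩, h2⟩
  have xS : x ∈ S := by
    simp only [hS, mem_filter, mem_erase, mem_univ, and_true]; exact ⟨hxy, hfg ▸ vC⟩
  have s3 : (S.erase x).card = 1 := by rw [card_erase_of_mem xS]; omega
  obtain ⟨t, ht⟩ := card_eq_one.mp s3
  have ht' : t ∈ S.erase x := by rw [ht]; simp
  simp only [hS, mem_erase, mem_filter, mem_univ, and_true] at ht'
  refine ⟨t, C, hc, hl, nR, nB, hf, hg, hfg, hC, cC, cD, red, blue, ht'.2.1, ht'.1, ht'.2.2, ?_⟩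
  intro u h1 h2 h3 h4
  have : u ∈ S.erase x := by
    simp only [hS, mem_erase, mem_filter, mem_univ, and_true]; exact ⟨h2, h1, h4⟩
  rw [ht] at this
  exact h3 (by simpa using this)

namespace Cfg

variable {y x : α} {f g : α → V} {t : α} {C : Finset V} {k : ℕ}

omit [DecidableEq α] [Fintype α] in
lemma fmem (c : Cfg T R B y x f g t C k) {u : α} (hu : u ≠ y) : f u ∈ C :=
  (c.hC _).mpr ⟨u, hu, rfl⟩

omit [DecidableEq α] [Fintype α] in
lemma fne (c : Cfg T R B y x f g t C k) {u w : α} (hu : u ≠ y) (hw : w ≠ y) (h : u ≠ w) :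
    f u ≠ f w := fun h' => h (c.hf.1 u w hu hw h')

omit [DecidableEq α] [Fintype α] in
lemma xy (c : Cfg T R B y x f g t C k) : x ≠ y := c.leaf.1.ne.symm

omit [DecidableEq α] [Fintype α] in
lemma nadj (c : Cfg T R B y x f g t C k) : ¬ T.Adj x t := by
  intro h
  have h1 := c.hg.2 x t c.xy c.ty h
  rw [c.gx] at h1
  exact c.col.not_both (c.red _ c.gt h1.ne.symm) h1

omit [Fintype α] in
lemma F1 (c : Cfg T R B y x f g t C k) {y' q : α} (l : GoodLeaf T y x y' q) {z : V} (hz : z ∉ C) :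
    B.Adj (f q) z := by
  refine c.col.blue (fun h => hz (h ▸ c.fmem l.qy)) (fun h => c.nR ?_)
  refine c.hf.swapin c.leaf (t := y') (z := z) l.yy l.yx (fun u hu h => hz (h ▸ c.fmem hu)) ?_ ?_
  · intro u _ hadj
    rw [l.leaf.2 u hadj]; exact h.symm
  · exact c.red _ (c.fmem l.yy) (c.fne l.yy c.xy l.yx)

omit [Fintype α] in
lemma F2 (c : Cfg T R B y x f g t C k) {y' q : α} (l : GoodLeaf T y x y' q) (ht : y' ≠ t) {w : V}
    (hw : w ∈ C) (h1 : w ≠ f x) (h2 : w ≠ g t) : ¬ B.Adj (g q) w := by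
  intro h
  refine c.nB (c.hg.swapin c.leaf (t := y') (z := w) l.yy l.yx ?_ ?_ ?_)
  · intro u hu he
    by_cases a1 : u = x
    · rw [a1, c.gx] at he; exact h1 he.symm
    by_cases a2 : u = t
    · rw [a2] at he; exact h2 he.symm
    exact c.gout u hu a1 a2 (he ▸ hw)
  · intro u _ hadj
    rw [l.leaf.2 u hadj]; exact h.symm
  · rw [c.gx]; exact c.blue _ (c.gout y' l.yy l.yx ht)

omit [Fintype α] in
lemma repl (c : Cfg T R B y x f g t C k) {y' q : α} (l : GoodLeaf T y x y' q) :
    Cfg T R B y x f (Function.update g t (f q)) t C k := by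
  have hx : Function.update g t (f q) x = f x := by
    rw [Function.update_of_ne c.tx.symm, c.gx]
  refine ⟨c.col, c.leaf, c.nR, c.nB, c.hf, ?_, hx, c.hC, c.cardC, c.cardD, c.red, c.blue, c.ty,
    c.tx, by simpa using c.fmem l.qy, ?_⟩
  · refine c.hg.move ?_ ?_
    · intro u h1 h2 he
      by_cases a1 : u = x
      · rw [a1, c.gx] at he; exact c.fne c.xy l.qy l.qx.symm he
      · exact c.gout u h1 a1 h2 (he ▸ c.fmem l.qy)
    · intro u h1 hadj
      refine c.F1 l (c.gout u h1 ?_ hadj.ne.symm)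
      rintro rfl; exact c.nadj hadj.symm
  · intro u h1 h2 h3
    rw [Function.update_of_ne h3]; exact c.gout u h1 h2 h3

omit [Fintype α] in
/-- three vertices with leaves -/
lemma three (c : Cfg T R B y x f g t C k) {y0 q0 y1 q1 : α} (l0 : GoodLeaf T y x y0 q0)
    (l1 : GoodLeaf T y x y1 q1) (hq : q0 ≠ q1) (h01 : q0 ≠ y1) (h10 : q1 ≠ y0) : False := by
  have hy : y0 ≠ y1 := by
    rintro rfl; exact hq (l1.leaf.2 _ l0.leaf.1)
  have key : ∀ y' q, GoodLeaf T y x y' q → y' ≠ t → q ≠ t → False := by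
    intro y' q l a1 a2
    have hs := c.gout q l.qy l.qx a2
    by_cases h : f q0 = g t
    · refine c.F2 l a1 (c.fmem l1.qy) (c.fne l1.qy c.xy l1.qx) ?_ (c.F1 l1 hs).symm
      rw [← h]; exact c.fne l1.qy l0.qy hq.symm
    · exact c.F2 l a1 (c.fmem l0.qy) (c.fne l0.qy c.xy l0.qx) h (c.F1 l0 hs).symm
  by_cases a1 : y0 = t
  · exact key y1 q1 l1 (a1 ▸ hy.symm) (a1 ▸ h10)
  by_cases a2 : q0 = t
  · exact key y1 q1 l1 (a2 ▸ h01.symm) (a2 ▸ hq.symm)
  exact key y0 q0 l0 a1 a2

omit [Fintype α] in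
lemma caseA_red (c : Cfg T R B y x f g t C k) {y' q : α} (l : GoodLeaf T y x y' q) (h1 : y' ≠ t)
    (h2 : q ≠ t) (hg : g t = f q) {w : V} (hw : w ∈ C) (a1 : w ≠ f x) (a2 : w ≠ f q) :
    R.Adj (g q) w :=
  c.col.red (fun h => c.gout q l.qy l.qx h2 (h ▸ hw)) (c.F2 l h1 hw a1 (hg ▸ a2))

omit [Fintype α] in
lemma caseA (c : Cfg T R B y x f g t C k) {y' q : α} (l : GoodLeaf T y x y' q) (h1 : y' ≠ t)
    (h2 : q ≠ t) (hg : g t = f q) (hxq : ¬ T.Adj x q) : False := by
  have hs := c.gout q l.qy l.qx h2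
  refine c.nR (c.hf.swapin c.leaf (t := q) (z := g q) l.qy l.qx
    (fun u hu h => hs (h ▸ c.fmem hu)) ?_ (c.red _ (c.fmem l.qy) (c.fne l.qy c.xy l.qx)))
  intro u hu hadj
  refine c.caseA_red l h1 h2 hg (c.fmem hu) (c.fne hu c.xy ?_) (c.fne hu l.qy hadj.ne.symm)
  rintro rfl; exact hxq hadj.symm

/-- double stars -/
lemma caseDS (c : Cfg T R B y x f g t C k) {y' q : α} (l : GoodLeaf T y x y' q) (h1 : y' ≠ t)
    (h2 : q ≠ t) (hg : g t = f q) {A Bq : Finset α} (D : DB T V x q A Bq [])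
    (hk : 4 ≤ k) (hα : Fintype.card α = k + 1) (hV : Fintype.card V = 2 * k - 2) : False := by
  have hs := c.gout q l.qy l.qx h2
  have hcard := D.card
  rw [hα] at hcard
  simp only [List.length_nil] at hcard
  have pa : 0 < A.card := card_pos.mpr ⟨y, (D.hA y).mpr c.leaf⟩
  have pb : 0 < Bq.card := card_pos.mpr ⟨y', (D.hB y').mpr l.leaf⟩
  set v := f x with hv
  set s := g q with hsd
  set W := (C.erase v).erase (f q) with hW
  have vC : v ∈ C := c.fmem c.xy
  have cW : W.card = k - 2 := by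
    rw [hW, card_erase_of_mem (mem_erase.mpr ⟨c.fne l.qy c.xy l.qx, c.fmem l.qy⟩),
      card_erase_of_mem vC, c.cardC]; omega
  have mW : ∀ w ∈ W, w ∈ C ∧ w ≠ v ∧ R.Adj v w ∧ R.Adj s w := by
    intro w hw
    simp only [hW, mem_erase] at hw
    exact ⟨hw.2.2, hw.2.1, c.red _ hw.2.2 hw.2.1, c.caseA_red l h1 h2 hg hw.2.2 hw.2.1 hw.1⟩
  have sv : s ≠ v := fun h => hs (h ▸ vC)
  have small : ∀ w ∈ W, (((nb R w).erase v).erase s).card + 2 ≤ min A.card Bq.card := by
    intro w hw
    obtain ⟨w1, w2, w3, w4⟩ := mW w hw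
    by_contra hcon
    obtain ⟨B0, b1, b2⟩ := exists_subset_card_eq
      (show min A.card Bq.card - 1 ≤ (((nb R w).erase v).erase s).card by omega)
    have b3 : ∀ z ∈ B0, z ≠ s ∧ z ≠ v ∧ R.Adj w z := fun z hz => by simpa using b1 hz
    have sB : s ∉ B0 := fun h => (b3 s h).1 rfl
    refine c.nR (D.emb2 R v w [] (((C.erase v).erase w) \ B0) (insert s B0) rfl ?_ ?_ ?_ ?_ ?_
      ?_ ?_)
    · simpa using w2.symm
    · simpa using w3
    · have := le_card_sdiff B0 ((C.erase v).erase w)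
      rw [card_erase_of_mem (mem_erase.mpr ⟨w2, w1⟩), card_erase_of_mem vC, c.cardC] at this
      omega
    · rw [card_insert_of_notMem sB]; omega
    · rw [disjoint_insert_right]
      exact ⟨fun h => hs (by simp only [mem_sdiff, mem_erase] at h; exact h.1.2.2),
        sdiff_disjoint⟩
    · intro z hz
      simp only [mem_sdiff, mem_erase] at hz
      refine ⟨c.red _ hz.1.2.2 hz.1.2.1, ?_⟩
      simp [hz.1.1, hz.1.2.1]
    · intro z hz
      rcases mem_insert.mp hz with rfl | hz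
      · refine ⟨w4.symm, ?_⟩
        simp [sv, w4.ne]
      · refine ⟨(b3 z hz).2.2, ?_⟩
        simp [(b3 z hz).2.1, (b3 z hz).2.2.ne.symm]
  obtain ⟨w, hw⟩ : W.Nonempty := card_pos.mp (by omega)
  obtain ⟨w', hw', hn⟩ : ∃ w' ∈ W.erase w, w' ∉ ((nb R w).erase v).erase s := by
    by_contra hcon
    push Not at hcon
    have := card_le_card (show W.erase w ⊆ _ from hcon)
    rw [card_erase_of_mem hw] at this
    have := small w hw
    omega
  obtain ⟨hww, hw'⟩ := mem_erase.mp hw'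
  obtain ⟨p1, p2, p3, p4⟩ := mW w hw
  obtain ⟨q1, q2, q3, q4⟩ := mW w' hw'
  have hb : B.Adj w w' := by
    refine c.col.blue hww.symm (fun h => hn ?_)
    simp [q2, q4.ne.symm, h]
  set X := insert w (insert w' (insert v (insert s
    (((nb R w).erase v).erase s ∪ ((nb R w').erase v).erase s)))) with hX
  have cX : X.card ≤ 4 + (((nb R w).erase v).erase s).card +
      (((nb R w').erase v).erase s).card := by
    have a1 := card_insert_le w (insert w' (insert v (insert s
      (((nb R w).erase v).erase s ∪ ((nb R w').erase v).erase s))))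
    have a2 := card_insert_le w' (insert v (insert s
      (((nb R w).erase v).erase s ∪ ((nb R w').erase v).erase s)))
    have a3 := card_insert_le v (insert s
      (((nb R w).erase v).erase s ∪ ((nb R w').erase v).erase s))
    have a4 := card_insert_le s (((nb R w).erase v).erase s ∪ ((nb R w').erase v).erase s)
    have a5 := card_union_le (((nb R w).erase v).erase s) (((nb R w').erase v).erase s)
    rw [hX]; omega
  have cXc : A.card + Bq.card ≤ Xᶜ.card := by
    rw [card_compl, hV]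
    have := small w hw
    have := small w' hw'
    omega
  have mX : ∀ z ∈ Xᶜ, B.Adj w z ∧ B.Adj w' z := by
    intro z hz
    simp only [hX, mem_compl, mem_insert, mem_union, mem_erase, mem_nb, not_or, not_and] at hz
    obtain ⟨z1, z2, z3, z4, z5, z6⟩ := hz
    exact ⟨c.col.blue (Ne.symm z1) (z5 z4 z3), c.col.blue (Ne.symm z2) (z6 z4 z3)⟩
  obtain ⟨A', a1, a2⟩ := exists_subset_card_eq (show A.card ≤ Xᶜ.card by omega)
  refine c.nB (D.emb B w w' [] A' (Xᶜ \ A') rfl ?_ ?_ a2.ge ?_ disjoint_sdiff ?_ ?_)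
  · simpa using hww.symm
  · simpa using hb
  · have := le_card_sdiff A' Xᶜ
    omega
  · intro z hz
    obtain ⟨z1, z2⟩ := mX z (a1 hz)
    exact ⟨z1, by simp [z1.ne.symm, z2.ne.symm]⟩
  · intro z hz
    obtain ⟨z1, z2⟩ := mX z (mem_sdiff.mp hz).1
    exact ⟨z2, by simp [z1.ne.symm, z2.ne.symm]⟩

end Cfg

end Pool.Agent.Lib.MP_06e9af_co
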