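import Pool.Agent.Lib.MP_06e9af_co.Twin

/-!
Every two-colouring of the complete graph on `2k - 2` vertices contains a monochromatic copy of
every tree with `k ≥ 4` edges other than the star.
-/

namespace Pool.Agent.Lib.MP_06e9af_co

open Finset

variable {α V : Type*} [DecidableEq α] [Fintype α] [Fintype V] [DecidableEq V]
  {T : SimpleGraph α} {R B : SimpleGraph V}

omit [DecidableEq α] [Fintype α] in
lemma goodLeaf (hT : T.IsTree) (hns : ∀ c, ∃ u, u ≠ c ∧ ¬ T.Adj c u) {y x y' q : α}
    (hy : LeafOf T y x) (hy' : LeafOf T y' q) (hq : q ≠ x) : GoodLeaf T y x y' q := by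
  refine ⟨hy', hq, ?_, ?_, ?_⟩
  · rintro rfl; exact leaf_not_parent hT hns hy' hy
  · rintro rfl; exact leaf_not_parent hT hns hy hy'
  · rintro rfl; exact hq (hy.2 q hy'.1)

/-- a choice of the leaf for which the configuration is impossible -/
lemma exists_leaf_no_cfg (hT : T.IsTree) (hns : ∀ c, ∃ u, u ≠ c ∧ ¬ T.Adj c u) {k : ℕ}
    (hk : 4 ≤ k) (hα : Fintype.card α = k + 1) (hV : Fintype.card V = 2 * k - 2) :
    ∃ y x, LeafOf T y x ∧ ∀ (R B : SimpleGraph V) (f g : α → V) (t : α) (C : Finset V),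
      ¬ Cfg T R B y x f g t C k := by
  have hb : Bip T V k := bip_of_tree hT hns hk hα
  obtain ⟨x, y, q, y', hxq, hy, hy'⟩ := exists_two_leafparents hT hns
  by_cases h3 : ∃ a b, LeafOf T a b ∧ b ≠ x ∧ b ≠ q
  · obtain ⟨a, b, h1, h2, h3⟩ := h3
    refine ⟨y, x, hy, fun R B f g t C c => c.three (goodLeaf hT hns hy hy' hxq.symm)
      (goodLeaf hT hns hy h1 h2) h3.symm ?_ ?_⟩
    · rintro rfl; exact leaf_not_parent hT hns hy' h1
    · rintro rfl; exact leaf_not_parent hT hns h1 hy'
  have hall : ∀ a b, LeafOf T a b → b = x ∨ b = q := by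
    intro a b h
    by_contra hcon
    push Not at hcon
    exact h3 ⟨a, b, h, hcon⟩
  have two : ∀ x y q y' y'', x ≠ q → LeafOf T y x → LeafOf T y' q → LeafOf T y'' q → y' ≠ y'' →
      (∀ a b, LeafOf T a b → b = x ∨ b = q) →
      ∀ (R B : SimpleGraph V) (f g : α → V) (t : α) (C : Finset V),
      ¬ Cfg T R B y x f g t C k := by
    intro x y q y' y'' hxq hy hy' hy'' hne hall R B f g t C c0
    obtain ⟨A, Bq, mid, D⟩ := exists_DB (V := V) hT hns hxq hy hy' hall
    have l := goodLeaf hT hns hy hy' hxq.symm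
    have c := c0.repl l
    have hg : Function.update g t (f q) t = f q := by simp
    by_cases hqt : q = t
    · subst hqt
      exact c.caseB hb l hg D hα
    obtain ⟨y0, l0, h0⟩ : ∃ y0, GoodLeaf T y x y0 q ∧ y0 ≠ t := by
      by_cases h : y' = t
      · exact ⟨y'', goodLeaf hT hns hy hy'' hxq.symm, h ▸ hne.symm⟩
      · exact ⟨y', l, h⟩
    by_cases hadj : T.Adj x q
    · have := D.adj hadj
      subst this
      exact c.caseDS l0 h0 hqt hg D hk hα hV
    · exact c.caseA l0 h0 hqt hg hadj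
  by_cases hB : ∃ y'', LeafOf T y'' q ∧ y' ≠ y''
  · obtain ⟨y'', h1, h2⟩ := hB
    exact ⟨y, x, hy, two x y q y' y'' hxq hy hy' h1 h2 hall⟩
  by_cases hA : ∃ y'', LeafOf T y'' x ∧ y ≠ y''
  · obtain ⟨y'', h1, h2⟩ := hA
    exact ⟨y', q, hy', two q y' x y y'' hxq.symm hy' hy h1 h2 (fun a b h => (hall a b h).symm)⟩
  push Not at hA hB
  obtain ⟨A, Bq, mid, D⟩ := exists_DB (V := V) hT hns hxq hy hy' hall
  refine ⟨y, x, hy, fun R B f g t C c => c.casePath hb (goodLeaf hT hns hy hy' hxq.symm) D ?_ ?_⟩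
  · refine card_eq_one.mpr ⟨y, ?_⟩
    ext u; rw [D.hA, mem_singleton]
    exact ⟨fun h => (hA u h).symm, fun h => h ▸ hy⟩
  · refine card_eq_one.mpr ⟨y', ?_⟩
    ext u; rw [D.hB, mem_singleton]
    exact ⟨fun h => (hB u h).symm, fun h => h ▸ hy'⟩

lemma near_star (hc : Col R B) (htri : ∀ a b c, T.Adj a b → T.Adj b c → ¬ T.Adj a c) {k : ℕ}
    (hb : Bip T V k) (hk : 4 ≤ k) (hα : Fintype.card α = k + 1)
    (hV : Fintype.card V = 2 * k - 2) {y x a : α} (hy : LeafOf T y x) (hay : a ≠ y) (hax : a ≠ x)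
    (ha : ∀ u, u ≠ y → u ≠ a → T.Adj a u) {v : V} (hv : k - 1 ≤ (nb R v).card) :
    Cp T R ∨ Cp T B := by
  obtain ⟨A, a1, a2⟩ := exists_subset_card_eq hv
  have mA : ∀ u ∈ A, R.Adj v u := fun u hu => mem_nb.mp (a1 hu)
  have vA : v ∉ A := fun h => (mA v h).ne rfl
  by_cases hred : ∃ w ∈ A, ∃ z ∈ (insert v A)ᶜ, R.Adj w z
  · left
    obtain ⟨w, hw, z, hz, hwz⟩ := hred
    have hxy : x ≠ y := hy.1.ne.symm
    obtain ⟨e, e1, e2⟩ := exists_inj (((univ.erase y).erase a).erase x) (A.erase w) v (by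
      rw [card_erase_of_mem (by simp [hxy, hax.symm]), card_erase_of_mem (by simp [hay]),
        card_erase_of_mem (by simp), card_erase_of_mem hw, card_univ]
      omega)
    simp only [mem_erase, mem_univ, and_true] at e1 e2
    set f : α → V := fun u => if u = a then v else if u = x then w else e u with hf
    have fa : f a = v := by simp [hf]
    have fx : f x = w := by simp [hf, hax.symm]
    have fo : ∀ u, u ≠ a → u ≠ x → f u = e u := fun u h1 h2 => by simp [hf, h1, h2]
    have fA : ∀ u, u ≠ y → u ≠ a → f u ∈ A := by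
      intro u h1 h2
      by_cases h : u = x
      · rw [h, fx]; exact hw
      · rw [fo u h2 h]; exact (e2 u ⟨h, h2, h1⟩).2
    have pc : PC T R y f := by
      constructor
      · intro u u' h1 h2 he
        by_cases b1 : u = a <;> by_cases b2 : u' = a
        · rw [b1, b2]
        · rw [b1, fa] at he; exact absurd (he ▸ fA u' h2 b2) vA
        · rw [b2, fa] at he; exact absurd (he ▸ fA u h1 b1) vA
        by_cases c1 : u = x <;> by_cases c2 : u' = x
        · rw [c1, c2]
        · rw [c1, fx, fo u' b2 c2] at he; exact absurd he.symm (e2 u' ⟨c2, b2, h2⟩).1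
        · rw [c2, fx, fo u b1 c1] at he; exact absurd he (e2 u ⟨c1, b1, h1⟩).1
        · rw [fo u b1 c1, fo u' b2 c2] at he; exact e1 u ⟨c1, b1, h1⟩ u' ⟨c2, b2, h2⟩ he
      · intro u u' h1 h2 he
        by_cases b1 : u = a <;> by_cases b2 : u' = a
        · rw [b1, b2] at he; exact absurd he (T.loopless.irrefl _)
        · rw [b1, fa]; exact mA _ (fA u' h2 b2)
        · rw [b2, fa]; exact (mA _ (fA u h1 b1)).symm
        · exact absurd (ha u' h2 b2) (htri a u u' (ha u h1 b1) he)
    refine pc.extend hy (z := z) ?_ (fx ▸ hwz)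
    intro u hu he
    refine (mem_compl.mp hz) ?_
    by_cases b : u = a
    · rw [← he, b, fa]; exact mem_insert_self _ _
    · exact mem_insert_of_mem (he ▸ fA u hu b)
  · right
    push Not at hred
    refine hb B A (insert v A)ᶜ ?_ ?_ a2.ge ?_
    · rw [disjoint_left]; intro u hu h; exact (mem_compl.mp h) (mem_insert_of_mem hu)
    · intro u hu z hz
      exact hc.blue (fun h => (mem_compl.mp hz) (mem_insert_of_mem (h ▸ hu))) (hred u hu z hz)
    · rw [card_compl, card_insert_of_notMem vA, hV]; omega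

omit [DecidableEq α] in
lemma no_cherry (hc : Col R B) {k : ℕ} (hb : Bip T V k) (hk : 4 ≤ k)
    (hα : Fintype.card α = k + 1) (hV : Fintype.card V = 2 * k - 2) (hn : ¬ Cherry R (k - 1))
    {v : V} (hv : k - 1 ≤ (nb R v).card) : Cp T R ∨ Cp T B := by
  have vN : v ∉ nb R v := by simp
  have cl : ∀ a ∈ nb R v, ∀ b ∈ nb R v, a ≠ b → R.Adj a b := by
    intro a ha b hb hab
    by_contra h
    exact hn ⟨a, v, b, (mem_nb.mp ha).symm, mem_nb.mp hb, hab, h, by rw [ncard_nb]; exact hv⟩
  by_cases hbig : k ≤ (nb R v).card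
  · left
    obtain ⟨e, e1, e2⟩ := exists_inj (univ : Finset α) (insert v (nb R v)) v (by
      rw [card_insert_of_notMem vN, card_univ]; omega)
    refine ⟨e, fun a b h => e1 a (mem_univ _) b (mem_univ _) h, fun u u' h => ?_⟩
    have hne : e u ≠ e u' := fun he => h.ne (e1 u (mem_univ _) u' (mem_univ _) he)
    rcases mem_insert.mp (e2 u (mem_univ _)) with h1 | h1 <;>
      rcases mem_insert.mp (e2 u' (mem_univ _)) with h2 | h2
    · exact absurd (h1.trans h2.symm) hne
    · rw [h1]; exact mem_nb.mp h2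
    · rw [h2]; exact (mem_nb.mp h1).symm
    · exact cl _ h1 _ h2 hne
  · right
    refine hb B (nb R v) (insert v (nb R v))ᶜ ?_ ?_ hv ?_
    · rw [disjoint_left]; intro u hu h; exact (mem_compl.mp h) (mem_insert_of_mem hu)
    · intro w hw z hz
      have hz' : z ≠ v ∧ ¬ R.Adj v z := by simpa using hz
      refine hc.blue (fun h => hz'.2 (h ▸ mem_nb.mp hw)) (fun h => hn ?_)
      refine ⟨v, w, z, mem_nb.mp hw, h, hz'.1.symm, hz'.2, ?_⟩
      rw [ncard_nb]
      have : insert v ((nb R v).erase w) ⊆ nb R w := by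
        intro u hu
        rcases mem_insert.mp hu with rfl | hu
        · exact mem_nb.mpr (mem_nb.mp hw).symm
        · exact mem_nb.mpr (cl w hw u (mem_of_mem_erase hu) (ne_of_mem_erase hu).symm)
      have := card_le_card this
      rw [card_insert_of_notMem (fun h => vN (mem_of_mem_erase h)), card_erase_of_mem hw] at this
      omega
    · rw [card_compl, card_insert_of_notMem vN, hV]; omega

theorem nonstar (hT : T.IsTree) (hns : ∀ c, ∃ u, u ≠ c ∧ ¬ T.Adj c u) {k : ℕ}
    (hk : 4 ≤ k) (hα : Fintype.card α = k + 1) (hV : Fintype.card V = 2 * k - 2)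
    (hc : Col R B) : Cp T R ∨ Cp T B := by
  by_contra hcon
  rw [not_or] at hcon
  obtain ⟨nR, nB⟩ := hcon
  have hb : Bip T V k := bip_of_tree hT hns hk hα
  obtain ⟨y, x, hy, hno⟩ := exists_leaf_no_cfg (V := V) hT hns hk hα hV
  obtain ⟨h, par, P⟩ := exists_PS hT x
  have deg : ∀ v, k - 1 ≤ (nb R v).card ∨ k - 1 ≤ (nb B v).card := by
    intro v; have := hc.deg v; omega
  obtain ⟨v0⟩ : Nonempty V := Fintype.card_pos_iff.mp (by omega)
  by_cases hs : ∀ a, a ≠ y → ∃ u, u ≠ y ∧ u ≠ a ∧ ¬ T.Adj a u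
  · refine count_step (fun u w huw => by have := hc u w huw; tauto) P.tri hy (P.rt_leaf hy)
      (k := k) (by omega) hα hV hs nR nB ?_ ?_
    · intro f g hf hg he
      rcases deg (f x) with h | h
      · obtain ⟨t, C, c⟩ := exists_cfg hc hy nR nB (by omega) hα hV hf hg he.symm h
        exact hno _ _ _ _ _ _ c
      · obtain ⟨t, C, c⟩ := exists_cfg hc.symm hy nB nR (by omega) hα hV hg hf he (he ▸ h)
        exact hno _ _ _ _ _ _ c
    · by_contra hch
      rw [not_or] at hch
      rcases deg v0 with h | h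
      · have := no_cherry hc hb hk hα hV hch.1 h; tauto
      · have := no_cherry hc.symm hb hk hα hV hch.2 h; tauto
  · push Not at hs
    obtain ⟨a, hay, ha⟩ := hs
    have hax : a ≠ x := by
      rintro rfl
      obtain ⟨u, h1, h2⟩ := hns a
      by_cases h : u = y
      · exact h2 (h ▸ hy.1.symm)
      · exact h2 (ha u h h1)
    rcases deg v0 with h | h
    · have := near_star hc P.tri hb hk hα hV hy hay hax ha h; tauto
    · have := near_star hc.symm P.tri hb hk hα hV hy hay hax ha h; tauto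

omit [DecidableEq V] in
lemma star_cp (htri : ∀ a b c, T.Adj a b → T.Adj b c → ¬ T.Adj a c) {c : α}
    (hs : ∀ u, u ≠ c → T.Adj c u) {v : V} (hv : Fintype.card α - 1 ≤ (nb R v).card) :
    Cp T R := by
  obtain ⟨e, e1, e2⟩ := exists_inj (univ.erase c) (nb R v) v (by simpa using hv)
  simp only [mem_erase, mem_univ, and_true, mem_nb] at e1 e2
  refine ⟨Function.update e c v, ?_, ?_⟩
  · intro a b hab
    by_cases ha : a = c <;> by_cases hb : b = c
    · rw [ha, hb]
    · rw [ha, Function.update_self, Function.update_of_ne hb] at hab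
      exact absurd hab (e2 b hb).ne
    · rw [hb, Function.update_self, Function.update_of_ne ha] at hab
      exact absurd hab.symm (e2 a ha).ne
    · rw [Function.update_of_ne ha, Function.update_of_ne hb] at hab
      exact e1 a ha b hb hab
  · intro a b hab
    by_cases ha : a = c <;> by_cases hb : b = c
    · rw [ha, hb] at hab; exact absurd hab (T.loopless.irrefl _)
    · rw [ha, Function.update_self, Function.update_of_ne hb]; exact e2 b hb
    · rw [hb, Function.update_self, Function.update_of_ne ha]; exact (e2 a ha).symm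
    · exact absurd (hs b hb) (htri c a b (hs a ha) hab)

omit [DecidableEq V] in
theorem star_odd (hT : T.IsTree) {c : α} (hs : ∀ u, u ≠ c → T.Adj c u) {j : ℕ}
    (hj : 1 ≤ j) (hα : Fintype.card α = 2 * j + 1) (hV : Fintype.card V = 4 * j - 1)
    (hc : Col R B) : Cp T R ∨ Cp T B := by
  classical
  obtain ⟨h, par, P⟩ := exists_PS hT c
  by_contra hcon
  rw [not_or] at hcon
  have hdeg : ∀ v, R.degree v = 2 * j - 1 := by
    intro v
    have a1 : ¬ _ := fun h => hcon.1 (star_cp P.tri hs (v := v) h)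
    have a2 : ¬ _ := fun h => hcon.2 (star_cp P.tri hs (v := v) h)
    have a3 := hc.deg v
    have a4 : R.degree v = (nb R v).card := by
      rw [← SimpleGraph.card_neighborFinset_eq_degree]; congr 1; ext; simp
    omega
  have := R.sum_degrees_eq_twice_card_edges
  simp only [hdeg, sum_const, card_univ, smul_eq_mul, hV] at this
  have hodd : Odd ((4 * j - 1) * (2 * j - 1)) :=
    Odd.mul ⟨2 * j - 1, by omega⟩ ⟨j - 1, by omega⟩
  rw [this] at hodd
  exact (Nat.not_odd_iff_even.mpr (even_two_mul _)) hodd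

end Pool.Agent.Lib.MP_06e9af_co
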