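import Pool.Agent.Lib.MP_06e9af_co.Bound

/-!
Copies, copies with one leaf missing, and the two-colour counting step.
-/

namespace Pool.Agent.Lib.MP_06e9af_co

open Finset

variable {α V : Type*}

/-- `G` contains a copy of `T`. -/
def Cp (T : SimpleGraph α) (G : SimpleGraph V) : Prop :=
  ∃ f : α → V, Function.Injective f ∧ ∀ u u', T.Adj u u' → G.Adj (f u) (f u')

/-- `f` is a copy of `T` minus the vertex `y`. -/
def PC (T : SimpleGraph α) (G : SimpleGraph V) (y : α) (f : α → V) : Prop :=
  (∀ u u', u ≠ y → u' ≠ y → f u = f u' → u = u') ∧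
    ∀ u u', u ≠ y → u' ≠ y → T.Adj u u' → G.Adj (f u) (f u')

/-- `y` is a leaf of `T` with neighbour `x`. -/
def LeafOf (T : SimpleGraph α) (y x : α) : Prop := T.Adj y x ∧ ∀ u, T.Adj y u → u = x

variable [DecidableEq α] {T : SimpleGraph α} {G : SimpleGraph V}

lemma PC.extend {y x : α} (hl : LeafOf T y x) {f : α → V} (hf : PC T G y f) {z : V}
    (hz : ∀ u, u ≠ y → f u ≠ z) (hadj : G.Adj (f x) z) : Cp T G := by
  have hxy : x ≠ y := hl.1.ne.symm
  refine ⟨Function.update f y z, ?_, ?_⟩
  · intro a b hab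
    by_cases ha : a = y <;> by_cases hb : b = y
    · rw [ha, hb]
    · rw [ha, Function.update_self, Function.update_of_ne hb] at hab
      exact absurd hab.symm (hz b hb)
    · rw [hb, Function.update_self, Function.update_of_ne ha] at hab
      exact absurd hab (hz a ha)
    · rw [Function.update_of_ne ha, Function.update_of_ne hb] at hab
      exact hf.1 a b ha hb hab
  · intro a b hab
    by_cases ha : a = y <;> by_cases hb : b = y
    · rw [ha, hb] at hab; exact absurd hab (T.loopless.irrefl _)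
    · rw [ha] at hab
      rw [ha, Function.update_self, Function.update_of_ne hb, hl.2 b hab]
      exact hadj.symm
    · rw [hb] at hab
      rw [hb, Function.update_self, Function.update_of_ne ha, hl.2 a hab.symm]
      exact hadj
    · rw [Function.update_of_ne ha, Function.update_of_ne hb]
      exact hf.2 a b ha hb hab

lemma PC.move {y t : α} {f : α → V} (hf : PC T G y f) {z : V}
    (hz : ∀ u, u ≠ y → u ≠ t → f u ≠ z) (hadj : ∀ u, u ≠ y → T.Adj t u → G.Adj z (f u)) :
    PC T G y (Function.update f t z) := by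
  constructor
  · intro a b ha' hb' hab
    by_cases ha : a = t <;> by_cases hb : b = t
    · rw [ha, hb]
    · rw [ha, Function.update_self, Function.update_of_ne hb] at hab
      exact absurd hab.symm (hz b hb' hb)
    · rw [hb, Function.update_self, Function.update_of_ne ha] at hab
      exact absurd hab (hz a ha' ha)
    · rw [Function.update_of_ne ha, Function.update_of_ne hb] at hab
      exact hf.1 a b ha' hb' hab
  · intro a b ha' hb' hab
    by_cases ha : a = t <;> by_cases hb : b = t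
    · rw [ha, hb] at hab; exact absurd hab (T.loopless.irrefl _)
    · rw [ha] at hab
      rw [ha, Function.update_self, Function.update_of_ne hb]
      exact hadj b hb' hab
    · rw [hb] at hab
      rw [hb, Function.update_self, Function.update_of_ne ha]
      exact (hadj a ha' hab.symm).symm
    · rw [Function.update_of_ne ha, Function.update_of_ne hb]
      exact hf.2 a b ha' hb' hab

/-- Move the vertex `t` to `z` and put the missing leaf at the old place of `t`. -/
lemma PC.swapin {y x t : α} (hl : LeafOf T y x) {f : α → V} (hf : PC T G y f) {z : V}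
    (hty : t ≠ y) (htx : t ≠ x) (hz : ∀ u, u ≠ y → f u ≠ z)
    (hadj : ∀ u, u ≠ y → T.Adj t u → G.Adj z (f u)) (hx : G.Adj (f x) (f t)) : Cp T G := by
  refine (hf.move (t := t) (fun u h _ => hz u h) hadj).extend hl (z := f t) ?_ ?_
  · intro u hu
    by_cases h : u = t
    · rw [h, Function.update_self]; exact (hz t hty).symm
    · rw [Function.update_of_ne h]; exact fun h' => h (hf.1 u t hu hty h')
  · rw [Function.update_of_ne htx.symm]; exact hx

variable [Fintype α] [Fintype V]

omit [Fintype V] in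
lemma Emb.pc {y x : α} {v : V} {P : List V} (h : Emb T G (univ.erase y) x v P) :
    ∃ f, PC T G y f ∧ f x = v ∧ ∀ u, u ≠ y → u ≠ x → f u ∈ P := by
  obtain ⟨f, h1, h2, h3, h4⟩ := h
  refine ⟨f, ⟨?_, ?_⟩, h2, ?_⟩
  · intro u u' hu hu' h
    exact h1 (by simpa using hu) (by simpa using hu') h
  · intro u u' hu hu' h
    exact h4 u (by simpa using hu) u' (by simpa using hu') h
  · intro u hu hx
    exact h3 u (by simpa using hu) hx

omit [Fintype V] in
lemma mk_eq_eps {y x : α} (hl : LeafOf T y x) (hG : ¬ Cp T G) :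
    Mk G = epsS T G (univ.erase y) x := by
  ext ⟨v, P, w, Q⟩
  refine ⟨fun h => ⟨h, fun he => hG ?_⟩, fun h => h.1⟩
  obtain ⟨f, h1, h2, h3⟩ := he.pc
  obtain ⟨a1, a2⟩ := h
  simp only [flat] at a1 a2 h2 h3
  have hnd := a1.1
  simp only [List.nodup_cons, List.mem_append, List.mem_cons, not_or, List.nodup_append,
    ne_eq] at hnd
  refine h1.extend hl (z := w) ?_ (h2 ▸ a2)
  intro u hu h
  by_cases hx : u = x
  · rw [hx, h2] at h; exact a2.ne h
  · exact hnd.2.2.2 _ (h3 u hu hx) w (Or.inl rfl) h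

theorem count_step {R B : SimpleGraph V} (hc : ∀ u w, u ≠ w → R.Adj u w ∨ B.Adj u w)
    (htri : ∀ a b c, T.Adj a b → T.Adj b c → ¬ T.Adj a c)
    {y x : α} (hl : LeafOf T y x) (hRT : RT T (univ.erase y) x)
    {k : ℕ} (hk : 2 ≤ k) (hα : Fintype.card α = k + 1) (hV : Fintype.card V = 2 * k - 2)
    (hns : ∀ a, a ≠ y → ∃ u, u ≠ y ∧ u ≠ a ∧ ¬ T.Adj a u)
    (hR : ¬ Cp T R) (hB : ¬ Cp T B)
    (hY : ∀ f g, PC T R y f → PC T B y g → f x ≠ g x)
    (hch : Cherry R (k - 1) ∨ Cherry B (k - 1)) : False := by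
  have hU : (univ.erase y).card = k := by simp [hα]
  have hne : univ.erase y ≠ {x} := by
    intro h; rw [h] at hU; simp at hU; omega
  have hns' : ∀ a ∈ univ.erase y, ∃ u ∈ univ.erase y, u ≠ a ∧ ¬ T.Adj a u := by
    intro a ha
    obtain ⟨u, h1, h2, h3⟩ := hns a (by simpa using ha)
    exact ⟨u, by simpa using h1, h2, h3⟩
  have t := mk_total hc
  rw [mk_eq_eps hl hR, mk_eq_eps hl hB, hV] at t
  have e1 := eps_le (T := T) (G := R) (univ.erase y) x
  have e2 := eps_le (T := T) (G := B) (univ.erase y) x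
  have b1 := (hRT.bound (G := R)).2 hne
  have b2 := (hRT.bound (G := B)).2 hne
  have p1 := piv_le_of (T := T) (G := R) (univ.erase y) x
    {l | l ∈ Arr V ∧ ∃ f, PC T R y f ∧ l.head? = some (f x)} (fun _ h => h.1) (by
      rintro ⟨v, P, w, Q⟩ ⟨h1, -, h3⟩
      obtain ⟨f, a1, a2, -⟩ := h3.pc
      exact ⟨h1.1, f, a1, by simp [flat, a2]⟩)
  have p2 := piv_le_of (T := T) (G := B) (univ.erase y) x
    {l | l ∈ Arr V ∧ ∃ f, PC T B y f ∧ l.head? = some (f x)} (fun _ h => h.1) (by
      rintro ⟨v, P, w, Q⟩ ⟨h1, -, h3⟩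
      obtain ⟨f, a1, a2, -⟩ := h3.pc
      exact ⟨h1.1, f, a1, by simp [flat, a2]⟩)
  have p3 : {l | l ∈ Arr V ∧ ∃ f, PC T R y f ∧ l.head? = some (f x)}.ncard +
      {l | l ∈ Arr V ∧ ∃ f, PC T B y f ∧ l.head? = some (f x)}.ncard ≤ (Arr V).ncard := by
    rw [← Set.ncard_union_eq ?_ (arr_finite.subset (fun _ h => h.1))
      (arr_finite.subset (fun _ h => h.1))]
    · exact Set.ncard_le_ncard (by rintro l (h | h) <;> exact h.1) arr_finite
    · rw [Set.disjoint_left]
      rintro l ⟨-, f, a1, a2⟩ ⟨-, g, c1, c2⟩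
      rw [a2] at c2
      exact hY f g a1 c1 (Option.some.inj c2)
  rw [hU] at b1 b2
  obtain ⟨j, rfl⟩ : ∃ j, k = j + 2 := ⟨k - 2, by omega⟩
  have e3 : (2 * (j + 2) - 2 - 1) * (Arr V).ncard = 2 * (j * (Arr V).ncard) + (Arr V).ncard := by
    have : 2 * (j + 2) - 2 - 1 = 2 * j + 1 := by omega
    rw [this]; ring
  rw [e3] at t
  rw [add_mul] at b1 b2
  rcases hch with h | h
  · have := (hRT.strict htri h (by omega)).2 hns'
    rw [hU, add_mul] at this
    omega
  · have := (hRT.strict htri h (by omega)).2 hns'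
    rw [hU, add_mul] at this
    omega

end Pool.Agent.Lib.MP_06e9af_co
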