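import Pool.Agent.Lib.MP_06e9af_co.Top

/-!
Parent structure of a finite tree and its consequences.
-/

namespace Pool.Agent.Lib.MP_06e9af_co

open Finset

variable {α V : Type*}

/-- Depth function and parent function of a tree rooted at `x`. -/
structure PS (T : SimpleGraph α) (x : α) (h : α → ℕ) (par : α → α) : Prop where
  root : h x = 0
  up : ∀ u, u ≠ x → T.Adj u (par u) ∧ h (par u) + 1 = h u
  edge : ∀ u w, T.Adj u w → (u ≠ x ∧ par u = w) ∨ (w ≠ x ∧ par w = u)

lemma exists_PS {T : SimpleGraph α} (hT : T.IsTree) (x : α) : ∃ h par, PS T x h par := by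
  classical
  have hex : ∀ u, u ≠ x → ∃ w, T.Adj u w ∧ T.dist x w + 1 = T.dist x u := by
    intro u hu
    obtain ⟨p, hp, hl⟩ := hT.connected.exists_path_of_dist x u
    have hn : ¬ p.Nil := SimpleGraph.Walk.not_nil_of_ne hu.symm
    refine ⟨p.penultimate, (p.adj_penultimate hn).symm, ?_⟩
    have h1 := SimpleGraph.dist_le p.dropLast
    have h2 : p.dropLast.length + 1 = p.length := SimpleGraph.Walk.length_dropLast_add_one hn
    rcases hT.dist_eq_dist_add_one_of_adj x (p.adj_penultimate hn) with h | h <;> omega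
  have huniq : ∀ u w w', T.Adj u w → T.Adj u w' → T.dist x w + 1 = T.dist x u →
      T.dist x w' + 1 = T.dist x u → w = w' := by
    intro u w w' a1 a2 b1 b2
    obtain ⟨p, hp, hl⟩ := hT.connected.exists_path_of_dist x w
    obtain ⟨p', hp', hl'⟩ := hT.connected.exists_path_of_dist x w'
    have c1 : (p.concat a1.symm).IsPath :=
      SimpleGraph.Walk.isPath_of_length_eq_dist _ (by rw [SimpleGraph.Walk.length_concat]; omega)
    have c2 : (p'.concat a2.symm).IsPath :=
      SimpleGraph.Walk.isPath_of_length_eq_dist _ (by rw [SimpleGraph.Walk.length_concat]; omega)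
    have e := (hT.existsUnique_path x u).unique c1 c2
    have := congrArg SimpleGraph.Walk.penultimate e
    simpa using this
  choose! par hpar using hex
  refine ⟨T.dist x, par, ⟨SimpleGraph.dist_self, hpar, ?_⟩⟩
  intro u w huw
  rcases hT.dist_eq_dist_add_one_of_adj x huw with h | h
  · have hu : u ≠ x := by rintro rfl; simp at h
    exact Or.inl ⟨hu, huniq u _ _ (hpar u hu).1 huw (hpar u hu).2 h.symm⟩
  · have hw : w ≠ x := by rintro rfl; simp at h
    exact Or.inr ⟨hw, huniq w _ _ (hpar w hw).1 huw.symm (hpar w hw).2 h.symm⟩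

lemma exists_inj (s : Finset α) (t : Finset V) (v : V) (h : s.card ≤ t.card) :
    ∃ e : α → V, (∀ a ∈ s, ∀ b ∈ s, e a = e b → a = b) ∧ ∀ a ∈ s, e a ∈ t := by
  have : Nonempty V := ⟨v⟩
  obtain ⟨f, h1, h2⟩ := Set.Finite.exists_injOn_of_encard_le (s := (s : Set α)) (t := (t : Set V))
    s.finite_toSet (by simpa using h)
  exact ⟨f, fun a ha b hb => h2 ha hb, fun a ha => h1 ha⟩

namespace PS

variable {T : SimpleGraph α} {x : α} {h : α → ℕ} {par : α → α}

lemma depth_adj (P : PS T x h par) {u w : α} (huw : T.Adj u w) :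
    h w + 1 = h u ∨ h u + 1 = h w := by
  rcases P.edge u w huw with ⟨a, b⟩ | ⟨a, b⟩
  · exact Or.inl (b ▸ (P.up u a).2)
  · exact Or.inr (b ▸ (P.up w a).2)

lemma tri (P : PS T x h par) (a b c : α) (h1 : T.Adj a b) (h2 : T.Adj b c) : ¬ T.Adj a c := by
  intro h3
  have := P.depth_adj h1
  have := P.depth_adj h2
  have := P.depth_adj h3
  omega

lemma eq_root (P : PS T x h par) {u : α} (hu : h u = 0) : u = x := by
  by_contra hne
  have := (P.up u hne).2
  omega

lemma leaf_of_nochild (P : PS T x h par) {u : α} (hu : u ≠ x)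
    (hc : ∀ w, w ≠ x → par w ≠ u) : LeafOf T u (par u) := by
  refine ⟨(P.up u hu).1, fun w hw => ?_⟩
  rcases P.edge u w hw with ⟨-, b⟩ | ⟨a, b⟩
  · exact b.symm
  · exact absurd b (hc w a)

lemma rt [DecidableEq α] (P : PS T x h par) (U : Finset α) (hx : x ∈ U)
    (hU : ∀ u ∈ U, u ≠ x → par u ∈ U) : RT T U x := by
  induction hn : U.card using Nat.strong_induction_on generalizing U with
  | _ n ih =>
    obtain ⟨u, hu, hmax⟩ := U.exists_max_image h ⟨x, hx⟩
    by_cases hux : u = x
    · have : U = {x} := by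
        ext w
        simp only [mem_singleton]
        constructor
        · intro hw
          have := hmax w hw
          rw [hux, P.root] at this
          exact P.eq_root (by omega)
        · rintro rfl; exact hx
      rw [this]; exact RT.single x
    · have hpu : par u ≠ u := (P.up u hux).1.ne.symm
      have h1 : RT T (U.erase u) x := by
        refine ih _ (by rw [← hn]; exact card_erase_lt_of_mem hu) _
          (mem_erase.mpr ⟨fun h => hux h.symm, hx⟩) ?_ rfl
        intro w hw hwx
        refine mem_erase.mpr ⟨?_, hU w (mem_of_mem_erase hw) hwx⟩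
        intro hp
        have := hmax w (mem_of_mem_erase hw)
        have h2 := (P.up w hwx).2
        rw [hp] at h2
        omega
      have h2 := h1.add_leaf (w := u) (p := par u) (notMem_erase u U)
        (mem_erase.mpr ⟨hpu, hU u hu hux⟩) (P.up u hux).1.symm (by
          intro w hw hadj
          rcases P.edge u w hadj with ⟨-, b⟩ | ⟨a, b⟩
          · exact b.symm
          · have := hmax w (mem_of_mem_erase hw)
            have h2 := (P.up w a).2
            rw [b] at h2
            omega)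
      rwa [insert_erase hu] at h2

lemma rt_leaf [DecidableEq α] [Fintype α] (P : PS T x h par) {y : α} (hy : LeafOf T y x) :
    RT T (univ.erase y) x := by
  refine P.rt _ (by simpa using hy.1.ne.symm) ?_
  intro u _ hux
  simp only [mem_erase, mem_univ, and_true]
  intro hp
  exact hux (hy.2 u (hp ▸ (P.up u hux).1.symm))

/-- a deepest vertex is a leaf -/
lemma exists_leaf [Fintype α] (P : PS T x h par) {u : α} (hu : u ≠ x) :
    ∃ y, y ≠ x ∧ LeafOf T y (par y) ∧ h u ≤ h y := by
  obtain ⟨y, -, hmax⟩ := (univ : Finset α).exists_max_image h ⟨x, mem_univ _⟩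
  have h1 := hmax u (mem_univ _)
  have h2 := (P.up u hu).2
  have hy : y ≠ x := by rintro rfl; rw [P.root] at h1; omega
  refine ⟨y, hy, P.leaf_of_nochild hy ?_, h1⟩
  intro w hw hp
  have := hmax w (mem_univ _)
  have h3 := (P.up w hw).2
  rw [hp] at h3
  omega

end PS

/-- two different vertices carry leaves -/
lemma exists_two_leafparents [Fintype α] {T : SimpleGraph α} (hT : T.IsTree)
    (hns : ∀ c, ∃ u, u ≠ c ∧ ¬ T.Adj c u) :
    ∃ x y q y', x ≠ q ∧ LeafOf T y x ∧ LeafOf T y' q := by
  obtain ⟨r⟩ := hT.connected.nonempty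
  obtain ⟨h, par, P⟩ := exists_PS hT r
  obtain ⟨u, hu, -⟩ := hns r
  obtain ⟨y, -, hy, -⟩ := P.exists_leaf hu
  obtain ⟨h', par', P'⟩ := exists_PS hT (par y)
  obtain ⟨u', hu', hn⟩ := hns (par y)
  obtain ⟨y', hy1, hy2, hy3⟩ := P'.exists_leaf hu'
  refine ⟨par y, y, par' y', y', ?_, hy, hy2⟩
  intro he
  have a1 := (P'.up y' hy1).2
  rw [← he, P'.root] at a1
  have a2 := P'.up u' hu'
  have : par' u' = par y := P'.eq_root (by omega)
  exact hn (this ▸ a2.1.symm)

lemma leaf_not_parent {T : SimpleGraph α} (hT : T.IsTree)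
    (hns : ∀ c, ∃ u, u ≠ c ∧ ¬ T.Adj c u) {a b c : α} (h1 : LeafOf T a b) : ¬ LeafOf T b c := by
  intro h2
  have hc : a = c := h2.2 a h1.1.symm
  subst hc
  obtain ⟨h, par, P⟩ := exists_PS hT b
  have key : ∀ n u, h u = n → u = a ∨ u = b := by
    intro n
    induction n with
    | zero => intro u hu; exact Or.inr (P.eq_root hu)
    | succ n ih =>
      intro u hu
      by_cases hub : u = b
      · exact Or.inr hub
      · obtain ⟨c1, c2⟩ := P.up u hub
        rcases ih (par u) (by omega) with h' | h'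
        · exact Or.inr (h1.2 u (h' ▸ c1.symm))
        · exact Or.inl (h2.2 u (h' ▸ c1.symm))
  obtain ⟨u, hu, hn⟩ := hns b
  rcases key _ u rfl with h' | h'
  · exact hn (h' ▸ h1.1.symm)
  · exact hu h'

/-- every complete bipartite graph with parts of sizes `k-1`, `k-2` contains `T` -/
def Bip (T : SimpleGraph α) (V : Type*) (k : ℕ) : Prop :=
  ∀ (G : SimpleGraph V) (C D : Finset V), Disjoint C D → (∀ a ∈ C, ∀ b ∈ D, G.Adj a b) →
    k - 1 ≤ C.card → k - 2 ≤ D.card → Cp T G

lemma cp_of_col [Fintype α] {T : SimpleGraph α} (c : α → Prop) [DecidablePred c]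
    (hc : ∀ u w, T.Adj u w → (c u ↔ ¬ c w)) {G : SimpleGraph V} {C D : Finset V} (v : V)
    (hd : Disjoint C D) (hG : ∀ a ∈ C, ∀ b ∈ D, G.Adj a b)
    (h1 : (univ.filter c).card ≤ C.card) (h2 : (univ.filter (fun u => ¬ c u)).card ≤ D.card) :
    Cp T G := by
  obtain ⟨e1, a1, a2⟩ := exists_inj _ _ v h1
  obtain ⟨e2, b1, b2⟩ := exists_inj _ _ v h2
  simp only [mem_filter, mem_univ, true_and] at a1 a2 b1 b2
  refine ⟨fun u => if c u then e1 u else e2 u, ?_, ?_⟩
  · intro u w huw
    simp only at huw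
    by_cases hu : c u <;> by_cases hw : c w
    · rw [if_pos hu, if_pos hw] at huw; exact a1 u hu w hw huw
    · rw [if_pos hu, if_neg hw] at huw
      exact absurd (huw ▸ a2 u hu) (disjoint_right.mp hd (b2 w hw))
    · rw [if_neg hu, if_pos hw] at huw
      exact absurd (huw ▸ b2 u hu) (disjoint_left.mp hd (a2 w hw))
    · rw [if_neg hu, if_neg hw] at huw; exact b1 u hu w hw huw
  · intro u w huw
    have := hc u w huw
    simp only
    by_cases hu : c u
    · have hw : ¬ c w := this.mp hu
      rw [if_pos hu, if_neg hw]; exact hG _ (a2 u hu) _ (b2 w hw)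
    · have hw : c w := by by_contra h; exact hu (this.mpr h)
      rw [if_neg hu, if_pos hw]; exact (hG _ (a2 w hw) _ (b2 u hu)).symm

lemma bip_of_tree [Fintype α] {T : SimpleGraph α} (hT : T.IsTree)
    (hns : ∀ c, ∃ u, u ≠ c ∧ ¬ T.Adj c u) {k : ℕ} (hk : 4 ≤ k) (hα : Fintype.card α = k + 1) :
    Bip T V k := by
  classical
  obtain ⟨x, y, q, y', hxq, hy, hy'⟩ := exists_two_leafparents hT hns
  obtain ⟨h, par, P⟩ := exists_PS hT x
  have hyy : y ≠ y' := by
    rintro rfl; exact hxq (hy'.2 x hy.1)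
  have hxy' : x ≠ y' := by
    rintro rfl; exact leaf_not_parent hT hns hy hy'
  have hqy : q ≠ y := by
    rintro rfl; exact leaf_not_parent hT hns hy' hy
  have hc : ∀ u w, T.Adj u w → (h u % 2 = 0 ↔ ¬ h w % 2 = 0) := by
    intro u w huw
    have := P.depth_adj huw
    omega
  have two : ∀ c : α → Prop, ∀ [DecidablePred c], (∀ u w, T.Adj u w → (c u ↔ ¬ c w)) →
      2 ≤ (univ.filter c).card := by
    intro c _ hc
    have a1 := hc _ _ hy.1
    have a2 := hc _ _ hy'.1
    refine one_lt_card.mpr ?_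
    simp only [mem_filter, mem_univ, true_and]
    by_cases b1 : c y <;> by_cases b2 : c y'
    · exact ⟨y, b1, y', b2, hyy⟩
    · exact ⟨y, b1, q, by tauto, hqy.symm⟩
    · exact ⟨x, by tauto, y', b2, hxy'⟩
    · exact ⟨x, by tauto, q, by tauto, hxq⟩
  have t1 := two _ hc
  have t2 := two (fun u => ¬ h u % 2 = 0) (fun u w huw => by have := hc u w huw; tauto)
  have hsum := card_filter_add_card_filter_not (s := (univ : Finset α)) (fun u => h u % 2 = 0)
  rw [card_univ, hα] at hsum
  intro G C D hd hG h1 h2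
  obtain ⟨v, -⟩ : C.Nonempty := card_pos.mp (by omega)
  by_cases hle : (univ.filter (fun u => ¬ h u % 2 = 0)).card ≤
      (univ.filter (fun u => h u % 2 = 0)).card
  · exact cp_of_col _ hc v hd hG (by omega) (by omega)
  · exact cp_of_col _ hc v hd.symm (fun a ha b hb => (hG b hb a ha).symm) (by omega) (by omega)

end Pool.Agent.Lib.MP_06e9af_co
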