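import Pool.Agent.Lib.MP_06e9af_co.Local

/-!
The remaining configurations: twins and paths.
-/

namespace Pool.Agent.Lib.MP_06e9af_co

open Finset

variable {α V : Type*}

lemma chain_snoc {r : V → V → Prop} {l : List V} {c : V} (h : l.IsChain r)
    (hc : ∀ a ∈ l, r a c) : (l ++ [c]).IsChain r := by
  refine h.append (List.isChain_singleton c) ?_
  intro a ha b hb
  simp only [List.head?_cons, Option.mem_def, Option.some.injEq] at hb
  rw [← hb]; exact hc a (List.mem_of_mem_getLast? ha)

lemma chain_cons' {r : V → V → Prop} {l : List V} {c : V} (h : l.IsChain r)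
    (hc : ∀ a ∈ l, r c a) : (c :: l).IsChain r := by
  cases l with
  | nil => exact List.isChain_singleton c
  | cons a l => exact List.isChain_cons_cons.mpr ⟨hc a (by simp), h⟩

lemma chain_snoc2 {r : V → V → Prop} {l : List V} {b c : V} (h : (l ++ [b]).IsChain r)
    (hc : r b c) : (l ++ [b] ++ [c]).IsChain r := by
  rw [List.append_assoc, List.singleton_append, List.isChain_split]
  exact ⟨h, by simpa using hc⟩

lemma red_rot (G : SimpleGraph V) (v' : V) (W : Finset V) (U : List V) (hn : U.Nodup)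
    (hc : U.IsChain G.Adj) (hU : ∀ u ∈ U, u ∈ W) (hv : v' ∉ W) (ha : ∀ u ∈ W, G.Adj v' u)
    (hne : U ≠ []) {w : V} (hw : w ∈ W) :
    ∃ m : List V, m.length = U.length ∧ (m ++ [w]).Nodup ∧ (m ++ [w]).IsChain G.Adj ∧ v' ∈ m ∧
      ∀ z ∈ m, z = v' ∨ z ∈ W := by
  have hvU : v' ∉ U := fun h => hv (hU _ h)
  by_cases hwU : w ∈ U
  · obtain ⟨A, B, rfl⟩ := List.append_of_mem hwU
    rw [List.isChain_split] at hc
    refine ⟨B ++ v' :: A, by simp; omega, ?_, ?_, by simp, ?_⟩
    · have : ((B ++ v' :: A) ++ [w]).Perm (v' :: (A ++ w :: B)) := by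
        classical
        rw [List.perm_iff_count]; intro x
        simp only [List.count_append, List.count_cons, List.count_nil]; omega
      exact this.nodup_iff.mpr (List.nodup_cons.mpr ⟨hvU, hn⟩)
    · rw [List.append_assoc, List.cons_append, List.isChain_split]
      refine ⟨chain_snoc hc.2.tail (fun a h => (ha a (hU a (by simp [h]))).symm),
        chain_cons' hc.1 (fun a h => ha a (hU a ?_))⟩
      simp only [List.mem_append, List.mem_cons, List.not_mem_nil, or_false] at h ⊢
      tauto
    · intro z hz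
      simp only [List.mem_append, List.mem_cons] at hz
      rcases hz with h | h | h
      · exact Or.inr (hU z (by simp [h]))
      · exact Or.inl h
      · exact Or.inr (hU z (by simp [h]))
  · obtain ⟨u, U', rfl⟩ := List.exists_cons_of_ne_nil hne
    refine ⟨U' ++ [v'], by simp, ?_, ?_, by simp, ?_⟩
    · have hvw : v' ≠ w := (ha w hw).ne
      simp only [List.mem_cons, not_or, List.nodup_cons] at hvU hwU hn
      simp only [List.append_assoc, List.cons_append, List.nil_append, List.nodup_append, hn.2,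
        List.nodup_cons, List.mem_cons, List.not_mem_nil, or_false, hvw, not_false_eq_true,
        List.nodup_nil, and_self, ne_eq, forall_eq_or_imp, forall_eq, true_and]
      intro a h
      exact ⟨fun e => hvU.2 (e ▸ h), fun e => hwU.2 (e ▸ h)⟩
    · exact chain_snoc2 (chain_snoc hc.tail (fun a h => (ha a (hU a (by simp [h]))).symm))
        (ha w hw)
    · intro z hz
      simp only [List.mem_append, List.mem_cons, List.not_mem_nil, or_false] at hz
      rcases hz with h | h
      · exact Or.inr (hU z (by simp [h]))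
      · exact Or.inl h

lemma blue_path (G : SimpleGraph V) (v v' : V) (D : Finset V) (S : List V) (hn : S.Nodup)
    (hc : S.IsChain G.Adj) (hS : ∀ u ∈ S, u ∈ D) (hv : v' ∉ D) (ha : ∀ u ∈ D, G.Adj v' u)
    (ha' : ∀ u ∈ D, G.Adj v u) (h3 : 3 ≤ S.length) {z : V} (hz : z ∈ D) :
    ∃ m : List V, m.length + 1 = S.length ∧ (m ++ [z]).Nodup ∧
      (v :: (m ++ [z])).IsChain G.Adj ∧ ∀ u ∈ m, u = v' ∨ u ∈ D := by
  classical
  have hvS : v' ∉ S := fun h => hv (hS _ h)
  by_cases hzS : z ∈ S
  · obtain ⟨A, B, rfl⟩ := List.append_of_mem hzS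
    cases B with
    | nil =>
      exact ⟨A, by simp, hn, chain_cons' hc (fun a h => ha' a (hS a h)),
        fun u h => Or.inr (hS u (by simp [h]))⟩
    | cons b B =>
      cases A with
      | nil =>
        have e : (b :: B).reverse ++ [z] = ([] ++ z :: b :: B).reverse := by simp
        refine ⟨(b :: B).reverse, by simp, ?_, ?_, ?_⟩
        · rw [e]; exact List.nodup_reverse.mpr hn
        · rw [e]
          refine chain_cons' ?_ (fun a h => ha' a (hS a (List.mem_reverse.mp h)))
          rw [List.isChain_reverse]; exact hc.imp (fun _ _ h => h.symm)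
        · intro u h
          refine Or.inr (hS u ?_)
          simp only [List.mem_reverse] at h
          exact List.mem_cons_of_mem _ h
      | cons a A =>
        rw [List.isChain_split] at hc
        refine ⟨(b :: B) ++ v' :: A, by simp; omega, ?_, ?_, ?_⟩
        · have : (a :: (((b :: B) ++ v' :: A) ++ [z])).Perm (v' :: ((a :: A) ++ z :: b :: B)) := by
            rw [List.perm_iff_count]; intro x
            simp only [List.count_append, List.count_cons, List.count_nil]; omega
          exact (List.nodup_cons.mp (this.nodup_iff.mpr (List.nodup_cons.mpr ⟨hvS, hn⟩))).2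
        · have e : v :: (((b :: B) ++ v' :: A) ++ [z]) = (v :: b :: B) ++ v' :: (A ++ [z]) := by
            simp
          rw [e, List.isChain_split]
          constructor
          · rw [List.cons_append, List.cons_append, List.isChain_cons_cons, ← List.cons_append]
            refine ⟨ha' b (hS b (by simp)), chain_snoc hc.2.tail (fun c h => (ha c (hS c ?_)).symm)⟩
            simp only [List.mem_append, List.mem_cons] at h ⊢
            tauto
          · refine chain_cons' hc.1.tail (fun c h => ha c (hS c ?_))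
            simp only [List.mem_append, List.mem_cons, List.not_mem_nil, or_false] at h ⊢
            tauto
        · intro u h
          simp only [List.mem_append, List.mem_cons] at h
          rcases h with (h | h) | h | h
          · exact Or.inr (hS u (by simp [h]))
          · exact Or.inr (hS u (by simp [h]))
          · exact Or.inl h
          · exact Or.inr (hS u (by simp [h]))
  · match S, hn, hc, hS, h3, hvS, hzS with
    | s1 :: s2 :: s3 :: S', hn, hc, hS, _, hvS, hzS =>
      have hvz : v' ≠ z := (ha z hz).ne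
      refine ⟨(s3 :: S') ++ [v'], by simp, ?_, ?_, ?_⟩
      · have h1 : (s3 :: S').Nodup := hn.of_cons.of_cons
        have h2 : v' ∉ s3 :: S' := fun h => hvS (by simp only [List.mem_cons] at h ⊢; tauto)
        have h4 : z ∉ s3 :: S' := fun h => hzS (by simp only [List.mem_cons] at h ⊢; tauto)
        have : (((s3 :: S') ++ [v']) ++ [z]).Perm (z :: v' :: (s3 :: S')) := by
          rw [List.perm_iff_count]; intro x
          simp only [List.count_append, List.count_cons, List.count_nil]; omega
        refine this.nodup_iff.mpr (List.nodup_cons.mpr ⟨?_, List.nodup_cons.mpr ⟨h2, h1⟩⟩)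
        intro h
        rcases List.mem_cons.mp h with h | h
        · exact hvz h.symm
        · exact h4 h
      · rw [List.cons_append, List.cons_append, List.isChain_cons_cons, ← List.cons_append,
          ← List.cons_append]
        refine ⟨ha' s3 (hS _ (by simp)), chain_snoc2 (chain_snoc hc.tail.tail
          (fun c h => (ha c (hS c ?_)).symm)) (ha z hz)⟩
        simp only [List.mem_cons] at h ⊢
        tauto
      · intro u h
        simp only [List.mem_append, List.mem_cons, List.not_mem_nil, or_false] at h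
        rcases h with (h | h) | h
        · exact Or.inr (hS u (by simp [h]))
        · exact Or.inr (hS u (by simp [h]))
        · exact Or.inl h

variable [DecidableEq α] [Fintype α] [Fintype V] [DecidableEq V] {T : SimpleGraph α}
  {R B : SimpleGraph V}

omit [DecidableEq α] [Fintype α] [Fintype V] [DecidableEq V] in
lemma PC.map_list {G : SimpleGraph V} {y : α} {f : α → V} (hf : PC T G y f) {l : List α}
    (hy : y ∉ l) (hn : l.Nodup) (hc : l.IsChain T.Adj) :
    (l.map f).Nodup ∧ (l.map f).IsChain G.Adj := by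
  have hne : ∀ u ∈ l, u ≠ y := fun u hu h => hy (h ▸ hu)
  constructor
  · exact hn.map_on (fun a ha b hb h => hf.1 a b (hne a ha) (hne b hb) h)
  · rw [List.isChain_map]
    exact hc.imp_of_mem_imp (fun a b ha hb h => hf.2 a b (hne a ha) (hne b hb) h)

namespace Cfg

variable {y x : α} {f g : α → V} {t : α} {C : Finset V} {k : ℕ}

omit [DecidableEq α] [Fintype α] in
lemma exists_red (c : Cfg T R B y x f g t C k) (hb : Bip T V k) :
    ∃ w ∈ C, w ≠ f x ∧ ∃ z, z ∉ C ∧ R.Adj w z := by
  by_contra hcon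
  push Not at hcon
  refine c.nB (hb B C Cᶜ disjoint_compl_right ?_ (by rw [c.cardC]; omega) c.cardD.ge)
  intro a ha b hb
  have hb' : b ∉ C := by simpa using hb
  by_cases h : a = f x
  · rw [h]; exact c.blue b hb'
  · exact c.col.blue (fun e => hb' (e ▸ ha)) (hcon a ha h b hb')

omit [DecidableEq α] in
/-- paths -/
lemma casePath (c : Cfg T R B y x f g t C k) (hb : Bip T V k) {y' q : α}
    (l : GoodLeaf T y x y' q) {A Bq : Finset α} {mid : List α} (D : DB T V x q A Bq mid)
    (hA : A.card = 1) (hB : Bq.card = 1) : False := by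
  obtain ⟨w, w1, w2, z, z1, z2⟩ := c.exists_red hb
  have yA : y ∈ A := (D.hA y).mpr c.leaf
  have yB : y' ∈ Bq := (D.hB y').mpr l.leaf
  have eA : ∀ u ∈ A, u = y := fun u hu => card_le_one.mp hA.le u hu y yA
  have eB : ∀ u ∈ Bq, u = y' := fun u hu => card_le_one.mp hB.le u hu y' yB
  have y1 : y ∉ x :: (mid ++ [q]) := fun h => D.notA y h yA
  have y2 : y' ∉ x :: (mid ++ [q]) := fun h => D.notB y' h yB
  have n0 : ((x :: (mid ++ [q])) ++ [y']).Nodup := by
    rw [List.nodup_append]
    refine ⟨D.nodup, by simp, ?_⟩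
    intro a ha b hb h
    rw [List.mem_singleton] at hb
    exact y2 (hb ▸ h ▸ ha)
  have c0 : ((x :: (mid ++ [q])) ++ [y']).IsChain T.Adj := by
    have := D.chain
    rw [← List.cons_append] at this ⊢
    exact chain_snoc2 this l.leaf.1.symm
  have y0 : y ∉ (x :: (mid ++ [q])) ++ [y'] := by
    rw [List.mem_append, List.mem_singleton, not_or]; exact ⟨y1, l.yy.symm⟩
  obtain ⟨n1, c1⟩ := c.hf.map_list y0 n0 c0
  rw [List.cons_append, List.map_cons] at n1 c1
  set Q := ((mid ++ [q]) ++ [y']).map f with hQ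
  have hQl : Q.length = mid.length + 2 := by simp [hQ]
  have hQC : ∀ u ∈ Q, u ∈ C := by
    intro u hu
    obtain ⟨a, ha, rfl⟩ := List.mem_map.mp hu
    exact c.fmem (fun h => y0 (h ▸ List.mem_cons_of_mem _ ha))
  have hvQ : f x ∉ Q := (List.nodup_cons.mp n1).1
  have hwQ : w ∈ Q := by
    obtain ⟨u, hu, rfl⟩ := (c.hC w).mp w1
    refine List.mem_map_of_mem ?_
    rcases D.cover u with h | h | h
    · rcases List.mem_cons.mp h with h | h
      · exact absurd (h ▸ rfl) w2
      · exact List.mem_append_left _ h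
    · exact absurd (eA u h) hu
    · rw [eB u h]; simp
  obtain ⟨m, m1, m2, m3, -, m5⟩ := red_rot R (f x) (C.erase (f x)) Q (List.nodup_cons.mp n1).2
    c1.tail (fun u hu => mem_erase.mpr ⟨fun h => hvQ (h ▸ hu), hQC u hu⟩) (notMem_erase _ _)
    (fun u hu => c.red u (mem_of_mem_erase hu) (ne_of_mem_erase hu))
    (List.ne_nil_of_mem hwQ) (mem_erase.mpr ⟨w2, w1⟩)
  have mC : ∀ u ∈ m ++ [w], u ∈ C := by
    intro u hu
    rcases List.mem_append.mp hu with h | h
    · rcases m5 u h with h | h
      · rw [h]; exact c.fmem c.xy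
      · exact mem_of_mem_erase h
    · rw [List.mem_singleton.mp h]; exact w1
  match m, m1, m2, m3, mC with
  | [], m1, _, _, _ => simp at m1; omega
  | [_], m1, _, _, _ => simp at m1; omega
  | a :: b :: m', m1, m2, m3, mC =>
    simp only [List.cons_append] at m2 m3 mC
    rw [List.isChain_cons_cons] at m3
    rw [List.nodup_cons] at m2
    refine c.nR (D.emb R b w m' {a} {z} (by simp at m1; omega) m2.2 m3.2 (by simp [hA])
      (by simp [hB]) ?_ ?_ ?_)
    · rw [disjoint_singleton]
      exact fun h => z1 (h ▸ mC a (by simp))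
    · intro u hu
      rw [mem_singleton.mp hu]; exact ⟨m3.1.symm, m2.1⟩
    · intro u hu
      rw [mem_singleton.mp hu]
      exact ⟨z2, fun h => z1 (mC z (List.mem_cons_of_mem _ h))⟩

/-- twins -/
lemma caseB {q : α} (c : Cfg T R B y x f g q C k) (hb : Bip T V k) {y' : α}
    (l : GoodLeaf T y x y' q) (hg : g q = f q) {A Bq : Finset α} {mid : List α}
    (D : DB T V x q A Bq mid) (hα : Fintype.card α = k + 1) : False := by
  have hcard := D.card
  rw [hα] at hcard
  have yA : y ∈ A := (D.hA y).mpr c.leaf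
  have yB : y' ∈ Bq := (D.hB y').mpr l.leaf
  have pa : 0 < A.card := card_pos.mpr ⟨y, yA⟩
  have pb : 0 < Bq.card := card_pos.mpr ⟨y', yB⟩
  have hmid : mid ≠ [] := by
    rintro rfl
    exact c.nadj (by simpa using D.chain)
  have pm : 0 < mid.length := List.length_pos_iff.mpr hmid
  set v := f x with hv
  set v' := f q with hv'
  set W := (C.erase v).erase v' with hW
  have vC : v ∈ C := c.fmem c.xy
  have v'C : v' ∈ C := c.fmem l.qy
  have vv : v' ≠ v := c.fne l.qy c.xy l.qx
  have cW : W.card = k - 2 := by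
    rw [hW, card_erase_of_mem (mem_erase.mpr ⟨vv, v'C⟩), card_erase_of_mem vC, c.cardC]; omega
  have mW : ∀ w, w ∈ W ↔ w ≠ v' ∧ w ≠ v ∧ w ∈ C := by simp [hW]
  have v'W : v' ∉ W := notMem_erase _ _
  have v'blue : ∀ z ∈ Cᶜ, B.Adj v' z := fun z hz => c.F1 l (by simpa using hz)
  have vblue : ∀ z ∈ Cᶜ, B.Adj v z := fun z hz => c.blue z (by simpa using hz)
  have v'red : ∀ w ∈ W, R.Adj v' w := by
    intro w hw
    obtain ⟨a1, a2, a3⟩ := (mW w).mp hw
    refine c.col.red a1.symm ?_
    have := c.F2 l l.leaf.1.ne a3 a2 (hg ▸ a1)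
    rwa [hg] at this
  have y1 : y ∉ x :: (mid ++ [q]) := fun h => D.notA y h yA
  have hnd := D.nodup
  simp only [List.nodup_cons, List.mem_append, List.mem_singleton, not_or, List.nodup_append,
    ne_eq, forall_eq] at hnd
  have ymid : y ∉ mid := fun h => y1 (by simp [h])
  have cmid : mid.IsChain T.Adj := D.chain.tail.left_of_append
  have mid_ne : ∀ u ∈ mid, u ≠ y ∧ u ≠ x ∧ u ≠ q := fun u hu =>
    ⟨fun h => ymid (h ▸ hu), fun h => hnd.1.1 (h ▸ hu), hnd.2.2.2 u hu⟩
  obtain ⟨nU, cU⟩ := c.hf.map_list ymid hnd.2.1 cmid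
  obtain ⟨nS, cS⟩ := c.hg.map_list ymid hnd.2.1 cmid
  have UW : ∀ u ∈ mid.map f, u ∈ W := by
    intro u hu
    obtain ⟨a, ha, rfl⟩ := List.mem_map.mp hu
    obtain ⟨a1, a2, a3⟩ := mid_ne a ha
    exact (mW _).mpr ⟨c.fne a1 l.qy a3, c.fne a1 c.xy a2, c.fmem a1⟩
  have SD : ∀ u ∈ mid.map g, u ∈ Cᶜ := by
    intro u hu
    obtain ⟨a, ha, rfl⟩ := List.mem_map.mp hu
    obtain ⟨a1, a2, a3⟩ := mid_ne a ha
    simpa using c.gout a a1 a2 a3
  -- vertices of `W` with a red neighbour outside `C` have few red neighbours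
  have few : ∀ w ∈ W, ∀ z, z ∉ C → R.Adj w z → ∃ W0 : Finset V, W0 ⊆ W ∧ w ∉ W0 ∧
      A.card + Bq.card - 1 ≤ W0.card ∧
      ((nb R w ∩ (W0 ∪ Cᶜ)).erase z).card + 2 ≤ min A.card Bq.card := by
    intro w hw z hz hwz
    obtain ⟨m, m1, m2, m3, m4, m5⟩ := red_rot R v' W (mid.map f) nU cU UW v'W v'red
      (by simpa using hmid) hw
    rw [List.length_map] at m1
    have mC : ∀ u ∈ m ++ [w], u ∈ C ∧ u ≠ v := by
      intro u hu
      rcases List.mem_append.mp hu with h | h
      · rcases m5 u h with h | h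
        · rw [h]; exact ⟨v'C, vv⟩
        · exact ⟨((mW u).mp h).2.2, ((mW u).mp h).2.1⟩
      · rw [List.mem_singleton.mp h]; exact ⟨((mW w).mp hw).2.2, ((mW w).mp hw).2.1⟩
    set W0 := W \ (m ++ [w]).toFinset with hW0
    have cW0 : A.card + Bq.card - 1 ≤ W0.card := by
      have e : W0 = W \ ((m ++ [w]).toFinset.erase v') := by
        ext u
        simp only [hW0, mem_sdiff, mem_erase, not_and]
        constructor
        · rintro ⟨h1, h2⟩; exact ⟨h1, fun _ => h2⟩
        · rintro ⟨h1, h2⟩; exact ⟨h1, h2 ((mW u).mp h1).1⟩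
      have := le_card_sdiff ((m ++ [w]).toFinset.erase v') W
      have e2 : ((m ++ [w]).toFinset.erase v').card = m.length := by
        rw [card_erase_of_mem (by simp [m4]), List.toFinset_card_of_nodup m2]; simp
      rw [e2, ← e] at this
      omega
    refine ⟨W0, sdiff_subset, by simp [hW0], cW0, ?_⟩
    by_contra hcon
    obtain ⟨B0, b1, b2⟩ := exists_subset_card_eq
      (show min A.card Bq.card - 1 ≤ ((nb R w ∩ (W0 ∪ Cᶜ)).erase z).card by omega)
    have b3 : ∀ u ∈ B0, u ≠ z ∧ R.Adj w u ∧ (u ∈ W0 ∨ u ∉ C) := fun u hu => by simpa using b1 hu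
    have zB : z ∉ B0 := fun h => (b3 z h).1 rfl
    have out : ∀ u, (u ∈ W0 ∨ u ∉ C) → u ∉ v :: (m ++ [w]) := by
      intro u hu h
      rcases List.mem_cons.mp h with h | h
      · rcases hu with hu | hu
        · exact ((mW u).mp (mem_sdiff.mp hu).1).2.1 h
        · exact hu (h ▸ vC)
      · rcases hu with hu | hu
        · exact (mem_sdiff.mp hu).2 (List.mem_toFinset.mpr h)
        · exact hu (mC u h).1
    refine c.nR (D.emb2 R v w m (W0 \ B0) (insert z B0) m1 ?_ ?_ ?_ ?_ ?_ ?_ ?_)
    · exact List.nodup_cons.mpr ⟨fun h => (mC v h).2 rfl, m2⟩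
    · exact chain_cons' m3 (fun a h => c.red a (mC a h).1 (mC a h).2)
    · have := le_card_sdiff B0 W0
      omega
    · rw [card_insert_of_notMem zB]; omega
    · rw [disjoint_insert_right]
      exact ⟨fun h => hz ((mW z).mp (mem_sdiff.mp (mem_sdiff.mp h).1).1).2.2, sdiff_disjoint⟩
    · intro u hu
      have h0 := (mem_sdiff.mp hu).1
      have h1 := (mW u).mp (mem_sdiff.mp h0).1
      exact ⟨c.red u h1.2.2 h1.2.1, out u (Or.inl h0)⟩
    · intro u hu
      rcases mem_insert.mp hu with rfl | hu
      · exact ⟨hwz, out u (Or.inr hz)⟩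
      · exact ⟨(b3 u hu).2.1, out u (b3 u hu).2.2⟩
  have cD := c.cardD
  have hasblue : ∀ w ∈ W, ∃ z ∈ Cᶜ, B.Adj w z := by
    intro w hw
    by_contra hcon
    push Not at hcon
    have allred : ∀ z ∈ Cᶜ, R.Adj w z := fun z hz =>
      c.col.red (fun h => (mem_compl.mp hz) (h ▸ ((mW w).mp hw).2.2)) (hcon z hz)
    obtain ⟨z, hz⟩ : Cᶜ.Nonempty := card_pos.mp (by omega)
    obtain ⟨W0, -, -, -, h4⟩ := few w hw z (mem_compl.mp hz) (allred z hz)
    have : Cᶜ.erase z ⊆ (nb R w ∩ (W0 ∪ Cᶜ)).erase z := by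
      refine erase_subset_erase _ (fun u hu => ?_)
      exact mem_inter.mpr ⟨mem_nb.mpr (allred u hu), mem_union_right _ hu⟩
    have := card_le_card this
    rw [card_erase_of_mem hz] at this
    omega
  obtain ⟨w, w1, w2, z, z1, z2⟩ := c.exists_red hb
  rw [← hv] at w2
  have hw : w ∈ W := by
    refine (mW w).mpr ⟨?_, w2, w1⟩
    rintro rfl
    exact c.col.not_both z2 (v'blue z (by simpa using z1))
  obtain ⟨W0, h1, h2, h3, h4⟩ := few w hw z z1 z2
  set N := W0 \ (nb R w ∩ (W0 ∪ Cᶜ)).erase z with hN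
  have cN : max A.card Bq.card + 1 ≤ N.card := by
    have := le_card_sdiff ((nb R w ∩ (W0 ∪ Cᶜ)).erase z) W0
    rw [← hN] at this
    omega
  have mN : ∀ u ∈ N, u ∈ W ∧ B.Adj w u := by
    intro u hu
    obtain ⟨a1, a2⟩ := mem_sdiff.mp hu
    refine ⟨h1 a1, c.col.blue (fun h => h2 (h ▸ a1)) (fun h => a2 ?_)⟩
    refine mem_erase.mpr ⟨fun e => z1 (e ▸ ((mW u).mp (h1 a1)).2.2), ?_⟩
    exact mem_inter.mpr ⟨mem_nb.mpr h, mem_union_left _ a1⟩
  obtain ⟨w', hw'⟩ : N.Nonempty := card_pos.mp (by omega)
  -- a blue path from `v` to `w`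
  have path : ∃ m : List V, m.length = mid.length ∧ (v :: (m ++ [w])).Nodup ∧
      (v :: (m ++ [w])).IsChain B.Adj ∧ ∀ u ∈ m, u = v' ∨ u = w' ∨ u ∈ Cᶜ := by
    obtain ⟨z', a1, a2⟩ := hasblue w hw
    have a3 := vblue z' a1
    by_cases e1 : mid.length = 1
    · refine ⟨[z'], by simp [e1], ?_, ?_, by simp [mem_compl.mp a1]⟩
      · simp [a3.ne, w2.symm, a2.ne.symm]
      · simp [a3, a2.symm]
    by_cases e2 : mid.length = 2
    · obtain ⟨z'', b1, b2⟩ := hasblue w' (mN w' hw').1
      have b3 := vblue z'' b1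
      have b4 := (mN w' hw').2
      have b5 := ((mW w').mp (mN w' hw').1).2.1
      have b6 : z'' ≠ w := fun h => (mem_compl.mp b1) (h ▸ w1)
      refine ⟨[z'', w'], by simp [e2], ?_, ?_, by simp [mem_compl.mp b1]⟩
      · simp [b3.ne, w2.symm, b2.ne.symm, b4.ne.symm, b5.symm, b6]
      · simp [b3, b2.symm, b4.symm]
    obtain ⟨m, m1, m2, m3, m4⟩ := blue_path B v v' Cᶜ (mid.map g) nS cS SD (by simpa using v'C)
      v'blue vblue (by rw [List.length_map]; omega) a1
    rw [List.length_map] at m1
    have m5 : ∀ u ∈ m ++ [z'], u = v' ∨ u ∈ Cᶜ := by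
      intro u hu
      rcases List.mem_append.mp hu with h | h
      · exact m4 u h
      · rw [List.mem_singleton.mp h]; exact Or.inr a1
    refine ⟨m ++ [z'], by simpa using m1, ?_, ?_, fun u hu => by have := m5 u hu; tauto⟩
    · refine List.nodup_cons.mpr ⟨?_, ?_⟩
      · intro h
        rcases List.mem_append.mp h with h | h
        · rcases m5 v h with h | h
          · exact vv h.symm
          · exact (mem_compl.mp h) vC
        · exact w2 (List.mem_singleton.mp h).symm
      · rw [List.nodup_append]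
        refine ⟨m2, by simp, ?_⟩
        intro a ha b hb e
        rw [List.mem_singleton] at hb
        rcases m5 a ha with h | h
        · exact ((mW w).mp hw).1 (hb ▸ e ▸ h)
        · exact (mem_compl.mp h) (e ▸ hb ▸ w1)
    · rw [← List.cons_append, ← List.cons_append]
      rw [← List.cons_append] at m3
      exact chain_snoc2 m3 a2.symm
  obtain ⟨m, m1, m2, m3, m4⟩ := path
  refine c.nB (D.emb B v w m (Cᶜ \ m.toFinset) (N.erase w') m1 m2 m3 ?_ ?_ ?_ ?_ ?_)
  · have := le_card_sdiff m.toFinset Cᶜ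
    have := List.toFinset_card_le m
    omega
  · rw [card_erase_of_mem hw']; omega
  · rw [disjoint_left]
    intro u hu hu'
    exact (mem_compl.mp (mem_sdiff.mp hu).1) ((mW u).mp (mN u (mem_of_mem_erase hu')).1).2.2
  · intro u hu
    obtain ⟨a1, a2⟩ := mem_sdiff.mp hu
    refine ⟨vblue u a1, ?_⟩
    simp only [List.mem_cons, List.mem_append, List.not_mem_nil, or_false, not_or]
    exact ⟨fun h => (mem_compl.mp a1) (h ▸ vC), fun h => a2 (List.mem_toFinset.mpr h),
      fun h => (mem_compl.mp a1) (h ▸ w1)⟩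
  · intro u hu
    obtain ⟨a1, a2⟩ := mem_erase.mp hu
    obtain ⟨a3, a4⟩ := mN u a2
    obtain ⟨a5, a6, a7⟩ := (mW u).mp a3
    refine ⟨a4, ?_⟩
    simp only [List.mem_cons, List.mem_append, List.not_mem_nil, or_false, not_or]
    refine ⟨a6, fun h => ?_, a4.ne.symm⟩
    rcases m4 u h with h | h | h
    · exact a5 h
    · exact a1 h
    · exact (mem_compl.mp h) a7

end Cfg

end Pool.Agent.Lib.MP_06e9af_co
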